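import Pool.Agent.R536.UD.Defs

/-!
# Membership in NP
-/

set_option autoImplicit false

namespace Pool.Agent.NPC.R536UD

open Pool.Agent.NPC.R536CS

/-- Certificates: for each vertex its color, whether it is in `D`, and two numbers. -/
abbrev Wt : Type := List (ℕ × ((ℕ × Bool) × (ℕ × ℕ)))

/-- The data of a vertex. -/
def gw (w : Wt) (v : ℕ) : (ℕ × Bool) × (ℕ × ℕ) := (w.lookup v).getD ((0, false), (0, 0))

/-- The color. -/
def wc (w : Wt) (v : ℕ) : ℕ := (gw w v).1.1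

/-- Membership in `D`. -/
def wf (w : Wt) (v : ℕ) : Bool := (gw w v).1.2

/-- The first number. -/
def wl (w : Wt) (v : ℕ) : ℕ := (gw w v).2.1

/-- The second number. -/
def wr (w : Wt) (v : ℕ) : ℕ := (gw w v).2.2

section

variable {α : Type} [TEnc α]

theorem pGw {w : α → Wt} {v : α → ℕ} (hw : Poly w) (hv : Poly v) :
    Poly (fun a => gw (w a) (v a)) := by
  unfold gw; fun_prop

theorem pWc {w : α → Wt} {v : α → ℕ} (hw : Poly w) (hv : Poly v) :
    Poly (fun a => wc (w a) (v a)) := Poly.fst (Poly.fst (pGw hw hv))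

theorem pWf {w : α → Wt} {v : α → ℕ} (hw : Poly w) (hv : Poly v) :
    Poly (fun a => wf (w a) (v a)) := Poly.snd (Poly.fst (pGw hw hv))

theorem pWl {w : α → Wt} {v : α → ℕ} (hw : Poly w) (hv : Poly v) :
    Poly (fun a => wl (w a) (v a)) := Poly.fst (Poly.snd (pGw hw hv))

theorem pWr {w : α → Wt} {v : α → ℕ} (hw : Poly w) (hv : Poly v) :
    Poly (fun a => wr (w a) (v a)) := Poly.snd (Poly.snd (pGw hw hv))

attribute [fun_prop] pWc pWf pWl pWr

theorem pp_adj {G : α → Gr} {u v : α → ℕ} (hG : Poly G) (hu : Poly u) (hv : Poly v) :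
    PP (fun a => Adj (G a) (u a) (v a)) :=
  PP.and (PP.ne hu hv) (PP.and (PP.mem hu (Poly.fst hG)) (PP.and (PP.mem hv (Poly.fst hG))
    (PP.or (PP.mem (Poly.pair hu hv) (Poly.snd hG)) (PP.mem (Poly.pair hv hu) (Poly.snd hG)))))

end

/-- The test for the coloring and the dominating set. -/
def Chk (G : Gr) (k : ℕ) (w : Wt) : Prop :=
  0 < k ∧ (∀ v ∈ G.1, ¬ (wf w v = true ∧ wc w v = 0)) ∧
    (∀ u ∈ G.1, ∀ v ∈ G.1, ¬ (Adj G u v ∧ wc w u = wc w v)) ∧
    (∀ v ∈ G.1, wf w v = true ∨ ∃ u ∈ G.1, wf w u = true ∧ Adj G v u ∧ wc w v < wc w u) ∧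
    ((G.1.dedup.filter (fun v => wf w v)).map (fun v => wc w v)).sum ≤ k

theorem pp_chk : PP (fun x : (Gr × ℕ) × Wt => Chk x.1.1 x.1.2 x.2) := by
  have p1 : Poly (fun x : (Gr × ℕ) × Wt => x.1.1.1) := by fun_prop
  have p2 : Poly (fun x : (Gr × ℕ) × Wt => x.1.2) := by fun_prop
  unfold Chk
  refine PP.and (PP.lt (Poly.const _) p2) (PP.and ?_ (PP.and ?_ (PP.and ?_ ?_)))
  · exact PP.ball (l := fun x : (Gr × ℕ) × Wt => x.1.1.1)
      (r := fun x v => ¬ (wf x.2 v = true ∧ wc x.2 v = 0)) p1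
      (PP.not (PP.and (PP.bool (by fun_prop)) (PP.eq (by fun_prop) (Poly.const _))))
  · refine PP.ball (l := fun x : (Gr × ℕ) × Wt => x.1.1.1)
      (r := fun x u => ∀ v ∈ x.1.1.1, ¬ (Adj x.1.1 u v ∧ wc x.2 u = wc x.2 v)) p1 ?_
    exact PP.ball (l := fun x : ((Gr × ℕ) × Wt) × ℕ => x.1.1.1.1)
      (r := fun x v => ¬ (Adj x.1.1.1 x.2 v ∧ wc x.1.2 x.2 = wc x.1.2 v)) (by fun_prop)
      (PP.not (PP.and (pp_adj (by fun_prop) (by fun_prop) (by fun_prop))
        (PP.eq (by fun_prop) (by fun_prop))))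
  · refine PP.ball (l := fun x : (Gr × ℕ) × Wt => x.1.1.1)
      (r := fun x v => wf x.2 v = true ∨ ∃ u ∈ x.1.1.1, wf x.2 u = true ∧ Adj x.1.1 v u ∧
        wc x.2 v < wc x.2 u) p1 ?_
    refine PP.or (PP.bool (by fun_prop)) ?_
    exact PP.bex (l := fun x : ((Gr × ℕ) × Wt) × ℕ => x.1.1.1.1)
      (r := fun x u => wf x.1.2 u = true ∧ Adj x.1.1.1 x.2 u ∧ wc x.1.2 x.2 < wc x.1.2 u)
      (by fun_prop)
      (PP.and (PP.bool (by fun_prop)) (PP.and (pp_adj (by fun_prop) (by fun_prop) (by fun_prop))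
        (PP.lt (by fun_prop) (by fun_prop))))
  · refine PP.le ?_ p2
    have h1 : Poly (fun x : (Gr × ℕ) × Wt => x.1.1.1.dedup.filter (fun v => wf x.2 v)) :=
      Poly.filter (p := fun x v => wf x.2 v) (R544.poly_dedup p1) (by fun_prop)
    exact Poly.sum (Poly.map (F := fun x v => wc x.2 v) h1 (by fun_prop))

theorem chk_omega {G : Gr} {k : ℕ} {w : Wt} (h : Chk G k w) : OmegaUC (graph G) ≤ k := by
  obtain ⟨-, h1, h2, h3, h4⟩ := h
  rw [omega_le_iff]
  have hm : ∀ v, v ∈ (G.1.dedup.filter (fun v => wf w v)).toFinset ↔ v ∈ G.1 ∧ wf w v = true := by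
    intro v
    rw [List.mem_toFinset, List.mem_filter, List.mem_dedup]
  refine ⟨wc w, (G.1.dedup.filter (fun v => wf w v)).toFinset, ⟨?_, ?_, ?_, ?_⟩, ?_⟩
  · intro d hd
    exact ((hm d).1 hd).1
  · intro d hd h0
    exact h1 d ((hm d).1 hd).1 ⟨((hm d).1 hd).2, h0⟩
  · intro u v huv e
    exact h2 u huv.2.1 v huv.2.2.1 ⟨huv, e⟩
  · intro v hv hD
    rcases h3 v hv with h | ⟨u, hu, hf, hadj, hlt⟩
    · exact absurd ((hm v).2 ⟨hv, h⟩) hD
    · exact ⟨u, (hm u).2 ⟨hu, hf⟩, hadj, hlt⟩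
  · rw [List.sum_toFinset _ ((List.nodup_dedup _).filter _)]
    exact h4

/-- The certificate. -/
def cert (G : Gr) (c : ℕ → ℕ) (f : ℕ → Bool) (l r : ℕ → ℕ) : Wt :=
  G.1.map (fun v => (v, ((c v, f v), (l v, r v))))

theorem lookup_map' {β : Type} (l : List ℕ) (f : ℕ → β) (a : ℕ) (h : a ∈ l) :
    (l.map (fun t => (t, f t))).lookup a = some (f a) := by
  induction l with
  | nil => simp at h
  | cons b l ih =>
    rw [List.map_cons, List.lookup_cons]
    by_cases h' : a = b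
    · subst h'
      simp
    · have h'' : (a == b) = false := by simpa using h'
      rw [h'']
      exact ih ((List.mem_cons.1 h).resolve_left h')

theorem gw_cert {G : Gr} {c : ℕ → ℕ} {f : ℕ → Bool} {l r : ℕ → ℕ} {v : ℕ} (hv : v ∈ G.1) :
    gw (cert G c f l r) v = ((c v, f v), (l v, r v)) := by
  unfold gw cert
  rw [lookup_map' G.1 (fun v => ((c v, f v), (l v, r v))) v hv]
  rfl

theorem chk_cert {G : Gr} {c : ℕ → ℕ} {D : Finset ℕ} (h : Sol G c D) {k : ℕ} (hk : 0 < k)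
    (hw : ∑ d ∈ D, c d ≤ k) (l r : ℕ → ℕ) :
    Chk G k (cert G c (fun v => decide (v ∈ D)) l r) := by
  have e1 : ∀ v ∈ G.1, wc (cert G c (fun v => decide (v ∈ D)) l r) v = c v := fun v hv => by
    unfold wc; rw [gw_cert hv]
  have e2 : ∀ v ∈ G.1, wf (cert G c (fun v => decide (v ∈ D)) l r) v = decide (v ∈ D) :=
    fun v hv => by unfold wf; rw [gw_cert hv]
  refine ⟨hk, ?_, ?_, ?_, ?_⟩
  · rintro v hv ⟨h1, h2⟩
    rw [e2 v hv, decide_eq_true_iff] at h1
    rw [e1 v hv] at h2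
    exact h.pos v h1 h2
  · rintro u hu v hv ⟨h1, h2⟩
    rw [e1 u hu, e1 v hv] at h2
    exact h.col u v h1 h2
  · intro v hv
    rw [e2 v hv, decide_eq_true_iff]
    by_cases hD : v ∈ D
    · exact Or.inl hD
    · obtain ⟨d, hd, hadj, hlt⟩ := h.dom v hv hD
      refine Or.inr ⟨d, hadj.2.2.1, ?_, hadj, ?_⟩
      · rw [e2 d hadj.2.2.1, decide_eq_true_iff]; exact hd
      · rw [e1 v hv, e1 d hadj.2.2.1]; exact hlt
  · refine le_trans (le_of_eq ?_) hw
    have hf : G.1.dedup.filter (fun v => wf (cert G c (fun v => decide (v ∈ D)) l r) v) =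
        G.1.dedup.filter (fun v => decide (v ∈ D)) :=
      List.filter_congr fun v hv => e2 v (List.mem_dedup.1 hv)
    rw [hf]
    have hg : (G.1.dedup.filter (fun v => decide (v ∈ D))).map
        (fun v => wc (cert G c (fun v => decide (v ∈ D)) l r) v) =
        (G.1.dedup.filter (fun v => decide (v ∈ D))).map c :=
      List.map_congr_left fun v hv => e1 v (List.mem_dedup.1 (List.mem_filter.1 hv).1)
    rw [hg, ← List.sum_toFinset _ ((List.nodup_dedup _).filter _)]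
    congr 1
    ext v
    rw [List.mem_toFinset, List.mem_filter, List.mem_dedup, decide_eq_true_iff]
    exact ⟨fun h => h.2, fun hv => ⟨h.sub v hv, hv⟩⟩

theorem c_le {G : Gr} {c : ℕ → ℕ} {D : Finset ℕ} (h : Sol G c D) {k : ℕ}
    (hw : ∑ d ∈ D, c d ≤ k) {v : ℕ} (hv : v ∈ G.1) : c v ≤ k := by
  have hD : ∀ d ∈ D, c d ≤ k := fun d hd =>
    (Finset.single_le_sum (fun _ _ => Nat.zero_le _) hd).trans hw
  by_cases hvD : v ∈ D
  · exact hD v hvD
  · obtain ⟨d, hd, -, hlt⟩ := h.dom v hv hvD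
    exact (hlt.trans_le (hD d hd)).le

theorem sz_small (n : ℕ) : sz n ≤ 4 * n + 1 := by
  have h1 := sz_nat_le n
  have h2 : n.size ≤ n := Nat.size_le.2 Nat.lt_two_pow_self
  omega

theorem sz_cert_le {G : Gr} {k : ℕ} {c : ℕ → ℕ} {f : ℕ → Bool} {l r : ℕ → ℕ}
    (hc : ∀ v ∈ G.1, c v ≤ k) (hl : ∀ v ∈ G.1, l v ≤ 2 * G.1.length)
    (hr : ∀ v ∈ G.1, r v ≤ 2 * G.1.length) :
    sz (cert G c f l r) ≤ sz (G, k) * (20 * sz (G, k) + 20) + 1 := by
  have h0 : sz (G, k) = sz G.1 + sz G.2 + 1 + sz k + 1 := by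
    obtain ⟨a, b⟩ := G
    simp only [sz_pair]
  have hlen : G.1.length ≤ sz (G, k) := by
    have := length_lt_sz G.1
    omega
  refine (sz_le_length_mul _ (20 * sz (G, k) + 19) ?_).trans ?_
  · intro x hx
    unfold cert at hx
    rw [List.mem_map] at hx
    obtain ⟨v, hv, rfl⟩ := hx
    simp only [sz_pair] at h0 ⊢
    have h1 := sz_le_of_mem hv
    have h2 := sz_nat_mono_le (hc v hv)
    have h3 := sz_bool_le (f v)
    have h4 := sz_small (l v)
    have h5 := sz_small (r v)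
    have h6 := hl v hv
    have h7 := hr v hv
    have h8 := length_lt_sz G.1
    omega
  · unfold cert
    rw [List.length_map]
    exact Nat.succ_le_succ (Nat.mul_le_mul_right (20 * sz (G, k) + 19 + 1) hlen)

theorem adj_iff {G : Gr} {u v : {v // v ∈ G.1}} : (graph G).Adj u v ↔ Adj G u.1 v.1 := by
  constructor
  · rintro ⟨h1, h2⟩; exact ⟨fun h => h1 (Subtype.ext h), u.2, v.2, h2⟩
  · rintro ⟨h1, -, -, h2⟩; exact ⟨fun h => h1 (congrArg Subtype.val h), h2⟩

/-- Membership in NP of `UCW(C)`. -/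
theorem np_of {C : ∀ {V : Type}, SimpleGraph V → Prop} {R : Gr → Wt → Prop}
    (hR : PP (fun x : Gr × Wt => R x.1 x.2)) (h2 : ∀ G w, R G w → C (graph G))
    (h1 : ∀ G : Gr, C (graph G) → ∃ l r : ℕ → ℕ, (∀ v ∈ G.1, l v ≤ 2 * G.1.length) ∧
      (∀ v ∈ G.1, r v ≤ 2 * G.1.length) ∧ ∀ c f, R G (cert G c f l r)) : InNPP (UCW C) := by
  refine R544.inNPP_of_pp (β := Wt) (R := fun x w => Chk x.1 x.2 w ∧ R x.1 w)
    (PP.and pp_chk (hR.comp (f := fun x : (Gr × ℕ) × Wt => (x.1.1, x.2)) (by fun_prop)))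
    (Polynomial.X * (20 * Polynomial.X + 20) + 1) ?_ ?_
  · rintro ⟨G, k⟩ ⟨hC, hk, ho⟩
    obtain ⟨c, D, h, hw⟩ := (omega_le_iff G k).1 ho
    obtain ⟨l, r, hl, hr, hR'⟩ := h1 G hC
    refine ⟨cert G c (fun v => decide (v ∈ D)) l r, ?_, chk_cert h hk hw l r, hR' _ _⟩
    have := sz_cert_le (f := fun v => decide (v ∈ D)) (fun v hv => c_le h hw hv) hl hr
    simpa using this
  · rintro ⟨G, k⟩ w ⟨hc, hR'⟩
    exact ⟨h2 G w hR', hc.1, chk_omega hc⟩

/-! ### Bipartite graphs -/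

theorem np_bip : InNPP (UCW (fun G => G.IsBipartite)) := by
  refine np_of (C := fun G => G.IsBipartite)
    (R := fun G w => ∀ u ∈ G.1, ∀ v ∈ G.1, ¬ (Adj G u v ∧ wl w u % 2 = wl w v % 2)) ?_ ?_ ?_
  · refine PP.ball (l := fun x : Gr × Wt => x.1.1)
      (r := fun x u => ∀ v ∈ x.1.1, ¬ (Adj x.1 u v ∧ wl x.2 u % 2 = wl x.2 v % 2)) (by fun_prop) ?_
    exact PP.ball (l := fun x : (Gr × Wt) × ℕ => x.1.1.1)
      (r := fun x v => ¬ (Adj x.1.1 x.2 v ∧ wl x.1.2 x.2 % 2 = wl x.1.2 v % 2)) (by fun_prop)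
      (PP.not (PP.and (pp_adj (by fun_prop) (by fun_prop) (by fun_prop))
        (PP.eq (by fun_prop) (by fun_prop))))
  · intro G w h
    refine ⟨SimpleGraph.Coloring.mk (fun v => (⟨wl w v.1 % 2, Nat.mod_lt _ (by omega)⟩ : Fin 2)) ?_⟩
    intro u v huv e
    rw [adj_iff] at huv
    exact h u.1 u.2 v.1 v.2 ⟨huv, congrArg Fin.val e⟩
  · rintro G ⟨C⟩
    refine ⟨fun v => if h : v ∈ G.1 then (C ⟨v, h⟩).val else 0, fun _ => 0, ?_, ?_, ?_⟩
    · intro v hv
      simp only [dif_pos hv]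
      have := (C ⟨v, hv⟩).isLt
      have := List.length_pos_of_mem hv
      omega
    · intro v _
      exact Nat.zero_le _
    · rintro c f u hu v hv ⟨hadj, e⟩
      unfold wl at e
      rw [gw_cert hu, gw_cert hv] at e
      simp only [dif_pos hu, dif_pos hv] at e
      have h1 := (C ⟨u, hu⟩).isLt
      have h2 := (C ⟨v, hv⟩).isLt
      have h3 : C ⟨u, hu⟩ ≠ C ⟨v, hv⟩ := C.valid (adj_iff.2 hadj)
      apply h3
      ext
      omega

/-! ### Interval graphs -/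

theorem np_interval : InNPP (UCW IsIntervalGraph) := by
  refine np_of (C := IsIntervalGraph)
    (R := fun G w => ∀ u ∈ G.1, wl w u ≤ wr w u ∧ ∀ v ∈ G.1, u = v ∨
      ((Adj G u v ∧ (wl w u ≤ wr w v ∧ wl w v ≤ wr w u)) ∨
        (¬ Adj G u v ∧ ¬ (wl w u ≤ wr w v ∧ wl w v ≤ wr w u)))) ?_ ?_ ?_
  · refine PP.ball (l := fun x : Gr × Wt => x.1.1)
      (r := fun x u => wl x.2 u ≤ wr x.2 u ∧ ∀ v ∈ x.1.1, u = v ∨
        ((Adj x.1 u v ∧ (wl x.2 u ≤ wr x.2 v ∧ wl x.2 v ≤ wr x.2 u)) ∨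
        (¬ Adj x.1 u v ∧ ¬ (wl x.2 u ≤ wr x.2 v ∧ wl x.2 v ≤ wr x.2 u)))) (by fun_prop) ?_
    refine PP.and (PP.le (by fun_prop) (by fun_prop)) ?_
    refine PP.ball (l := fun x : (Gr × Wt) × ℕ => x.1.1.1)
      (r := fun x v => x.2 = v ∨
        ((Adj x.1.1 x.2 v ∧ (wl x.1.2 x.2 ≤ wr x.1.2 v ∧ wl x.1.2 v ≤ wr x.1.2 x.2)) ∨
        (¬ Adj x.1.1 x.2 v ∧ ¬ (wl x.1.2 x.2 ≤ wr x.1.2 v ∧ wl x.1.2 v ≤ wr x.1.2 x.2))))
      (by fun_prop) ?_
    have h1 : PP (fun x : ((Gr × Wt) × ℕ) × ℕ => Adj x.1.1.1 x.1.2 x.2) :=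
      pp_adj (by fun_prop) (by fun_prop) (by fun_prop)
    have h2 : PP (fun x : ((Gr × Wt) × ℕ) × ℕ =>
        wl x.1.1.2 x.1.2 ≤ wr x.1.1.2 x.2 ∧ wl x.1.1.2 x.2 ≤ wr x.1.1.2 x.1.2) :=
      PP.and (PP.le (by fun_prop) (by fun_prop)) (PP.le (by fun_prop) (by fun_prop))
    exact PP.or (PP.eq (by fun_prop) (by fun_prop)) (PP.or (PP.and h1 h2)
      (PP.and (PP.not h1) (PP.not h2)))
  · intro G w h
    refine ⟨fun v => (wl w v.1 : ℝ), fun v => (wr w v.1 : ℝ), fun v => ?_, fun u v => ?_⟩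
    · exact Nat.cast_le.2 (h v.1 v.2).1
    · rw [adj_iff]
      have hu := (h u.1 u.2).1
      have hv := (h v.1 v.2).1
      have key : (Set.Icc (wl w u.1 : ℝ) (wr w u.1) ∩ Set.Icc (wl w v.1 : ℝ) (wr w v.1)).Nonempty ↔
          wl w u.1 ≤ wr w v.1 ∧ wl w v.1 ≤ wr w u.1 := by
        constructor
        · rintro ⟨x, ⟨h1, h2⟩, h3, h4⟩
          exact ⟨Nat.cast_le.1 (h1.trans h4), Nat.cast_le.1 (h3.trans h2)⟩
        · rintro ⟨h1, h2⟩
          rcases le_total (wl w u.1) (wl w v.1) with h3 | h3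
          · exact ⟨(wl w v.1 : ℝ), ⟨Nat.cast_le.2 h3, Nat.cast_le.2 h2⟩, le_refl _,
              Nat.cast_le.2 hv⟩
          · exact ⟨(wl w u.1 : ℝ), ⟨le_refl _, Nat.cast_le.2 hu⟩, Nat.cast_le.2 h3,
              Nat.cast_le.2 h1⟩
      rw [key]
      rcases (h u.1 u.2).2 v.1 v.2 with h1 | ⟨h1, h2⟩ | ⟨h1, h2⟩
      · constructor
        · intro h'; exact absurd h1 h'.1
        · intro h'; exact absurd (Subtype.ext h1) h'.1
      · exact ⟨fun _ => ⟨fun e => h1.1 (congrArg Subtype.val e), h2⟩, fun _ => h1⟩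
      · exact ⟨fun h' => absurd h' h1, fun h' => absurd h'.2 h2⟩
  · rintro G ⟨l, r, hlr, hadj⟩
    classical
    -- the endpoints
    set EP : Finset ℝ := G.1.attach.toFinset.image l ∪ G.1.attach.toFinset.image r with hEP
    have hl : ∀ v, l v ∈ EP := fun v => Finset.mem_union_left _ (Finset.mem_image_of_mem _
      (List.mem_toFinset.2 (List.mem_attach _ _)))
    have hr : ∀ v, r v ∈ EP := fun v => Finset.mem_union_right _ (Finset.mem_image_of_mem _
      (List.mem_toFinset.2 (List.mem_attach _ _)))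
    have hcard : EP.card ≤ 2 * G.1.length := by
      have h1 : EP.card ≤ (G.1.attach.toFinset.image l).card +
          (G.1.attach.toFinset.image r).card := Finset.card_union_le _ _
      have h2 := Finset.card_image_le (s := G.1.attach.toFinset) (f := l)
      have h3 := Finset.card_image_le (s := G.1.attach.toFinset) (f := r)
      have h4 := List.toFinset_card_le G.1.attach
      rw [List.length_attach] at h4
      omega
    have hrk : ∀ x ∈ EP, ∀ y ∈ EP, (x ≤ y ↔ (EP.filter (· < x)).card ≤ (EP.filter (· < y)).card)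
        := by
      intro x hx y hy
      constructor
      · intro hxy
        exact Finset.card_le_card (Finset.monotone_filter_right _ fun z _ hz => lt_of_lt_of_le hz hxy)
      · intro h
        by_contra hc
        push Not at hc
        have : (EP.filter (· < y)).card < (EP.filter (· < x)).card := by
          apply Finset.card_lt_card
          rw [Finset.ssubset_iff_of_subset (Finset.monotone_filter_right _
            fun z _ hz => lt_trans hz hc)]
          exact ⟨y, Finset.mem_filter.2 ⟨hy, hc⟩, fun h' => lt_irrefl _ (Finset.mem_filter.1 h').2⟩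
        omega
    refine ⟨fun v => if h : v ∈ G.1 then (EP.filter (· < l ⟨v, h⟩)).card else 0,
      fun v => if h : v ∈ G.1 then (EP.filter (· < r ⟨v, h⟩)).card else 0, ?_, ?_, ?_⟩
    · intro v hv
      simp only [dif_pos hv]
      exact (Finset.card_filter_le _ _).trans hcard
    · intro v hv
      simp only [dif_pos hv]
      exact (Finset.card_filter_le _ _).trans hcard
    · intro c f u hu
      have e1 : ∀ v (hv : v ∈ G.1), wl (cert G c f
          (fun v => if h : v ∈ G.1 then (EP.filter (· < l ⟨v, h⟩)).card else 0)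
          (fun v => if h : v ∈ G.1 then (EP.filter (· < r ⟨v, h⟩)).card else 0)) v =
          (EP.filter (· < l ⟨v, hv⟩)).card := by
        intro v hv
        unfold wl
        rw [gw_cert hv]
        simp only [dif_pos hv]
      have e2 : ∀ v (hv : v ∈ G.1), wr (cert G c f
          (fun v => if h : v ∈ G.1 then (EP.filter (· < l ⟨v, h⟩)).card else 0)
          (fun v => if h : v ∈ G.1 then (EP.filter (· < r ⟨v, h⟩)).card else 0)) v =
          (EP.filter (· < r ⟨v, hv⟩)).card := by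
        intro v hv
        unfold wr
        rw [gw_cert hv]
        simp only [dif_pos hv]
      rw [e1 u hu, e2 u hu]
      refine ⟨(hrk _ (hl _) _ (hr _)).1 (hlr _), fun v hv => ?_⟩
      rw [e1 v hv, e2 v hv, ← hrk _ (hl _) _ (hr _), ← hrk _ (hl _) _ (hr _)]
      by_cases huv : u = v
      · exact Or.inl huv
      · right
        have h1 := hadj ⟨u, hu⟩ ⟨v, hv⟩
        rw [adj_iff] at h1
        have h2 : (Set.Icc (l ⟨u, hu⟩) (r ⟨u, hu⟩) ∩ Set.Icc (l ⟨v, hv⟩) (r ⟨v, hv⟩)).Nonempty ↔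
            l ⟨u, hu⟩ ≤ r ⟨v, hv⟩ ∧ l ⟨v, hv⟩ ≤ r ⟨u, hu⟩ := by
          constructor
          · rintro ⟨x, ⟨a1, a2⟩, a3, a4⟩
            exact ⟨a1.trans a4, a3.trans a2⟩
          · rintro ⟨a1, a2⟩
            rcases le_total (l ⟨u, hu⟩) (l ⟨v, hv⟩) with h3 | h3
            · exact ⟨l ⟨v, hv⟩, ⟨h3, a2⟩, le_refl _, hlr _⟩
            · exact ⟨l ⟨u, hu⟩, ⟨le_refl _, hlr _⟩, h3, a1⟩
        rw [h2] at h1
        by_cases ha : Adj G u v
        · exact Or.inl ⟨ha, (h1.1 ha).2⟩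
        · exact Or.inr ⟨ha, fun hc => ha (h1.2 ⟨fun e => huv (congrArg Subtype.val e), hc⟩)⟩

end Pool.Agent.NPC.R536UD
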