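import Pool.Agent.R536.UD.Defs

/-!
# Bipartite graphs
-/

set_option autoImplicit false

namespace Pool.Agent.NPC.R536UD.Bip

open Pool.Agent.NPC.R536CS

section

variable (φ : List (Lit ℕ × Lit ℕ × Lit ℕ))

/-- The number of copies. -/
def NN : ℕ := (vars φ).length + 3

/-- The center. -/
def ct : ℕ := nm 0 0 0

/-- The leaves. -/
def lf (k : ℕ) : ℕ := nm 1 k 0

/-- The literals. -/
def lt (v : ℕ) (b : Bool) : ℕ := nm 2 v (bif b then 1 else 0)

/-- The vertices of the variables. -/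
def ve (v k : ℕ) : ℕ := nm 3 v k

/-- The vertices of the clauses. -/
def ce (j k : ℕ) : ℕ := nm 4 j k

/-- The vertices. -/
def vs : List ℕ := ct :: ((List.range (NN φ)).map lf ++ ((vars φ).flatMap (fun v =>
    [lt v true, lt v false]) ++ ((vars φ).flatMap (fun v => (List.range (NN φ)).map (ve v)) ++
    (List.range φ.length).flatMap (fun j => (List.range (NN φ)).map (ce j)))))

/-- The edges. -/
def es : List (ℕ × ℕ) := (List.range (NN φ)).map (fun k => (ct, lf k)) ++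
  ((vars φ).flatMap (fun v => [(ct, lt v true), (ct, lt v false)]) ++
  ((vars φ).flatMap (fun v => (List.range (NN φ)).flatMap
    (fun k => [(lt v true, ve v k), (lt v false, ve v k)])) ++
  (List.range (3 * φ.length)).flatMap (fun r => (List.range (NN φ)).map
    (fun k => (lt (vr φ r) (sg φ r), ce (r / 3) k)))))

/-- The graph. -/
def bgr : Gr := (vs φ, es φ)

variable {φ}

theorem lt_inj {v v' : ℕ} {b b' : Bool} : lt v b = lt v' b' ↔ v = v' ∧ b = b' := by
  unfold lt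
  rw [nm_inj]
  cases b <;> cases b' <;> simp

theorem mem_vs {u : ℕ} : u ∈ vs φ ↔ u = ct ∨ (∃ k < NN φ, u = lf k) ∨
    (∃ v ∈ vars φ, ∃ b, u = lt v b) ∨ (∃ v ∈ vars φ, ∃ k < NN φ, u = ve v k) ∨
    ∃ j < φ.length, ∃ k < NN φ, u = ce j k := by
  unfold vs
  simp only [List.mem_cons, List.mem_append, List.mem_map, List.mem_range, List.mem_flatMap,
    List.not_mem_nil, or_false]
  constructor
  · rintro (h | ⟨k, hk, rfl⟩ | ⟨v, hv, rfl | rfl⟩ | ⟨v, hv, k, hk, rfl⟩ | ⟨j, hj, k, hk, rfl⟩)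
    · exact Or.inl h
    · exact Or.inr (Or.inl ⟨k, hk, rfl⟩)
    · exact Or.inr (Or.inr (Or.inl ⟨v, hv, true, rfl⟩))
    · exact Or.inr (Or.inr (Or.inl ⟨v, hv, false, rfl⟩))
    · exact Or.inr (Or.inr (Or.inr (Or.inl ⟨v, hv, k, hk, rfl⟩)))
    · exact Or.inr (Or.inr (Or.inr (Or.inr ⟨j, hj, k, hk, rfl⟩)))
  · rintro (h | ⟨k, hk, rfl⟩ | ⟨v, hv, b, rfl⟩ | ⟨v, hv, k, hk, rfl⟩ | ⟨j, hj, k, hk, rfl⟩)
    · exact Or.inl h
    · exact Or.inr (Or.inl ⟨k, hk, rfl⟩)
    · refine Or.inr (Or.inr (Or.inl ⟨v, hv, ?_⟩))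
      cases b
      · exact Or.inr rfl
      · exact Or.inl rfl
    · exact Or.inr (Or.inr (Or.inr (Or.inl ⟨v, hv, k, hk, rfl⟩)))
    · exact Or.inr (Or.inr (Or.inr (Or.inr ⟨j, hj, k, hk, rfl⟩)))

theorem mem_es {u w : ℕ} : (u, w) ∈ es φ ↔ (∃ k < NN φ, u = ct ∧ w = lf k) ∨
    (∃ v ∈ vars φ, ∃ b, u = ct ∧ w = lt v b) ∨
    (∃ v ∈ vars φ, ∃ b, ∃ k < NN φ, u = lt v b ∧ w = ve v k) ∨
    ∃ r < 3 * φ.length, ∃ k < NN φ, u = lt (vr φ r) (sg φ r) ∧ w = ce (r / 3) k := by
  unfold es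
  simp only [List.mem_cons, List.mem_append, List.mem_map, List.mem_range, List.mem_flatMap,
    List.not_mem_nil, or_false, Prod.mk.injEq]
  constructor
  · rintro (⟨k, hk, rfl, rfl⟩ | ⟨v, hv, ⟨rfl, rfl⟩ | ⟨rfl, rfl⟩⟩ |
      ⟨v, hv, k, hk, ⟨rfl, rfl⟩ | ⟨rfl, rfl⟩⟩ | ⟨r, hr, k, hk, rfl, rfl⟩)
    · exact Or.inl ⟨k, hk, rfl, rfl⟩
    · exact Or.inr (Or.inl ⟨v, hv, true, rfl, rfl⟩)
    · exact Or.inr (Or.inl ⟨v, hv, false, rfl, rfl⟩)
    · exact Or.inr (Or.inr (Or.inl ⟨v, hv, true, k, hk, rfl, rfl⟩))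
    · exact Or.inr (Or.inr (Or.inl ⟨v, hv, false, k, hk, rfl, rfl⟩))
    · exact Or.inr (Or.inr (Or.inr ⟨r, hr, k, hk, rfl, rfl⟩))
  · rintro (⟨k, hk, rfl, rfl⟩ | ⟨v, hv, b, rfl, rfl⟩ | ⟨v, hv, b, k, hk, rfl, rfl⟩ |
      ⟨r, hr, k, hk, rfl, rfl⟩)
    · exact Or.inl ⟨k, hk, rfl, rfl⟩
    · refine Or.inr (Or.inl ⟨v, hv, ?_⟩)
      cases b
      · exact Or.inr ⟨rfl, rfl⟩
      · exact Or.inl ⟨rfl, rfl⟩
    · refine Or.inr (Or.inr (Or.inl ⟨v, hv, k, hk, ?_⟩))
      cases b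
      · exact Or.inr ⟨rfl, rfl⟩
      · exact Or.inl ⟨rfl, rfl⟩
    · exact Or.inr (Or.inr (Or.inr ⟨r, hr, k, hk, rfl, rfl⟩))

/-- The kind of a vertex. -/
def kd (u : ℕ) : ℕ := u.unpair.1

theorem kd_nm (k i j : ℕ) : kd (nm k i j) = k := by
  unfold kd nm
  rw [Nat.unpair_pair]

theorem kd_ct : kd ct = 0 := kd_nm _ _ _
theorem kd_lf (k : ℕ) : kd (lf k) = 1 := kd_nm _ _ _
theorem kd_lt (v : ℕ) (b : Bool) : kd (lt v b) = 2 := kd_nm _ _ _
theorem kd_ve (v k : ℕ) : kd (ve v k) = 3 := kd_nm _ _ _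
theorem kd_ce (j k : ℕ) : kd (ce j k) = 4 := kd_nm _ _ _

theorem kd_es {u w : ℕ} (h : (u, w) ∈ es φ) : (kd u = 0 ∧ (kd w = 1 ∨ kd w = 2)) ∨
    (kd u = 2 ∧ (kd w = 3 ∨ kd w = 4)) := by
  rcases mem_es.1 h with ⟨k, hk, rfl, rfl⟩ | ⟨v, hv, b, rfl, rfl⟩ | ⟨v, hv, b, k, hk, rfl, rfl⟩ |
    ⟨r, hr, k, hk, rfl, rfl⟩ <;> simp [kd_ct, kd_lf, kd_lt, kd_ve, kd_ce]

theorem es_vs {u w : ℕ} (h : (u, w) ∈ es φ) : u ∈ vs φ ∧ w ∈ vs φ := by
  rw [mem_vs, mem_vs]
  rcases mem_es.1 h with ⟨k, hk, rfl, rfl⟩ | ⟨v, hv, b, rfl, rfl⟩ | ⟨v, hv, b, k, hk, rfl, rfl⟩ |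
    ⟨r, hr, k, hk, rfl, rfl⟩
  · exact ⟨Or.inl rfl, Or.inr (Or.inl ⟨k, hk, rfl⟩)⟩
  · exact ⟨Or.inl rfl, Or.inr (Or.inr (Or.inl ⟨v, hv, b, rfl⟩))⟩
  · exact ⟨Or.inr (Or.inr (Or.inl ⟨v, hv, b, rfl⟩)),
      Or.inr (Or.inr (Or.inr (Or.inl ⟨v, hv, k, hk, rfl⟩)))⟩
  · exact ⟨Or.inr (Or.inr (Or.inl ⟨_, vr_mem hr, _, rfl⟩)),
      Or.inr (Or.inr (Or.inr (Or.inr ⟨r / 3, by omega, k, hk, rfl⟩)))⟩

theorem adj_bgr {u w : ℕ} : Adj (bgr φ) u w ↔ (u, w) ∈ es φ ∨ (w, u) ∈ es φ := by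
  unfold Adj bgr
  constructor
  · rintro ⟨-, -, -, h⟩; exact h
  · intro h
    rcases h with h | h
    · have h1 := es_vs h
      refine ⟨?_, h1.1, h1.2, Or.inl h⟩
      rintro rfl
      have := kd_es h
      omega
    · have h1 := es_vs h
      refine ⟨?_, h1.2, h1.1, Or.inr h⟩
      rintro rfl
      have := kd_es h
      omega

theorem bip : (graph (bgr φ)).IsBipartite := by
  refine ⟨SimpleGraph.Coloring.mk (fun v => if kd v.1 = 1 ∨ kd v.1 = 2 then (1 : Fin 2) else 0) ?_⟩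
  rintro ⟨u, hu⟩ ⟨w, hw⟩ ⟨-, h⟩
  have key : (kd u = 1 ∨ kd u = 2) ∧ ¬ (kd w = 1 ∨ kd w = 2) ∨
      ¬ (kd u = 1 ∨ kd u = 2) ∧ (kd w = 1 ∨ kd w = 2) := by
    rcases h with h | h
    · have := kd_es h
      simp only at this
      omega
    · have := kd_es h
      simp only at this
      omega
  rcases key with ⟨h1, h2⟩ | ⟨h1, h2⟩
  · simp only [h1, h2, if_true, if_false]
    simp
  · simp only [h1, h2, if_true, if_false]
    simp

/-! ### From assignments to solutions -/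

/-- The coloring. -/
def cb (u : ℕ) : ℕ := if kd u = 0 then 2 else if kd u = 2 then 1 else 0

theorem sol_of_sat (h : SAT3 φ) : ∃ c D, Sol (bgr φ) c D ∧
    ∑ d ∈ D, c d ≤ (vars φ).length + 2 := by
  classical
  obtain ⟨τ, hτ⟩ := h
  have hs := slots_of_sat hτ
  have c0 : cb ct = 2 := by unfold cb; rw [kd_ct, if_pos rfl]
  have c2 : ∀ v b, cb (lt v b) = 1 := by
    intro v b; unfold cb; rw [kd_lt, if_neg (by omega), if_pos rfl]
  have hinj : Function.Injective (fun v => lt v (τ v)) := fun v w e => (lt_inj.1 e).1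
  have hnc : ct ∉ (vars φ).toFinset.image (fun v => lt v (τ v)) := by
    rw [Finset.mem_image]
    rintro ⟨v, -, e⟩
    have := congrArg kd e
    simp only [kd_lt, kd_ct] at this
    omega
  refine ⟨cb, insert ct ((vars φ).toFinset.image (fun v => lt v (τ v))), ⟨?_, ?_, ?_, ?_⟩, ?_⟩
  · intro d hd
    rw [Finset.mem_insert, Finset.mem_image] at hd
    show d ∈ vs φ
    rw [mem_vs]
    rcases hd with rfl | ⟨v, hv, rfl⟩
    · exact Or.inl rfl
    · exact Or.inr (Or.inr (Or.inl ⟨v, List.mem_toFinset.1 hv, _, rfl⟩))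
  · intro d hd
    rw [Finset.mem_insert, Finset.mem_image] at hd
    rcases hd with rfl | ⟨v, hv, rfl⟩
    · rw [c0]; omega
    · rw [c2]; omega
  · intro u w huw
    rw [adj_bgr] at huw
    unfold cb
    rcases huw with h | h
    · rcases kd_es h with ⟨h1, h2⟩ | ⟨h1, h2⟩
      · rw [if_pos (by omega), if_neg (by omega)]
        split_ifs <;> omega
      · rw [if_neg (by omega), if_pos (by omega), if_neg (by omega), if_neg (by omega)]
        omega
    · rcases kd_es h with ⟨h1, h2⟩ | ⟨h1, h2⟩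
      · rw [if_neg (show ¬ kd u = 0 by omega), if_pos (show kd w = 0 by omega)]
        split_ifs <;> omega
      · rw [if_neg (show ¬ kd u = 0 by omega), if_neg (show ¬ kd u = 2 by omega),
          if_neg (show ¬ kd w = 0 by omega), if_pos (show kd w = 2 by omega)]
        omega
  · intro u hu hD
    rcases mem_vs.1 hu with rfl | ⟨k, hk, rfl⟩ | ⟨v, hv, b, rfl⟩ | ⟨v, hv, k, hk, rfl⟩ |
      ⟨j, hj, k, hk, rfl⟩
    · exact absurd (Finset.mem_insert_self _ _) hD
    · refine ⟨ct, Finset.mem_insert_self _ _, adj_bgr.2 (Or.inr (mem_es.2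
        (Or.inl ⟨k, hk, rfl, rfl⟩))), ?_⟩
      rw [c0]
      unfold cb
      rw [kd_lf, if_neg (by omega), if_neg (by omega)]
      omega
    · refine ⟨ct, Finset.mem_insert_self _ _, adj_bgr.2 (Or.inr (mem_es.2
        (Or.inr (Or.inl ⟨v, hv, b, rfl, rfl⟩)))), ?_⟩
      rw [c0, c2]
      omega
    · refine ⟨lt v (τ v), Finset.mem_insert_of_mem (Finset.mem_image.2
        ⟨v, List.mem_toFinset.2 hv, rfl⟩), adj_bgr.2 (Or.inr (mem_es.2
        (Or.inr (Or.inr (Or.inl ⟨v, hv, τ v, k, hk, rfl, rfl⟩))))), ?_⟩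
      rw [c2]
      unfold cb
      rw [kd_ve, if_neg (by omega), if_neg (by omega)]
      omega
    · obtain ⟨s, hs1, hs2⟩ := hs j hj
      refine ⟨lt (vr φ s) (τ (vr φ s)), Finset.mem_insert_of_mem (Finset.mem_image.2
        ⟨_, List.mem_toFinset.2 (vr_mem (by omega)), rfl⟩), adj_bgr.2 (Or.inr (mem_es.2
        (Or.inr (Or.inr (Or.inr ⟨s, by omega, k, hk, by rw [hs2], by rw [hs1]⟩))))), ?_⟩
      rw [c2]
      unfold cb
      rw [kd_ce, if_neg (by omega), if_neg (by omega)]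
      omega
  · rw [Finset.sum_insert hnc, c0, Finset.sum_image (fun x _ y _ e => hinj e),
      Finset.sum_congr rfl (fun v _ => c2 v (τ v)), Finset.sum_const, smul_eq_mul, mul_one,
      List.toFinset_card_of_nodup (by unfold vars; exact List.nodup_dedup _)]
    omega

/-! ### From solutions to assignments -/

theorem sat_of_sol {c : ℕ → ℕ} {D : Finset ℕ} (h : Sol (bgr φ) c D)
    (hw : ∑ d ∈ D, c d ≤ (vars φ).length + 2) : SAT3 φ := by
  classical
  have hcard : D.card ≤ (vars φ).length + 2 := by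
    refine le_trans ?_ hw
    rw [Finset.card_eq_sum_ones]
    exact Finset.sum_le_sum fun d hd => Nat.one_le_iff_ne_zero.2 (h.pos d hd)
  have hfam : ∀ x : ℕ → ℕ, Function.Injective x → ∃ k < NN φ, x k ∉ D := by
    intro x hx
    by_contra hc
    push Not at hc
    have h1 : (Finset.range (NN φ)).image x ⊆ D := by
      intro y hy
      rw [Finset.mem_image] at hy
      obtain ⟨k, hk, rfl⟩ := hy
      exact hc k (Finset.mem_range.1 hk)
    have h2 := Finset.card_le_card h1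
    rw [Finset.card_image_of_injective _ hx, Finset.card_range] at h2
    unfold NN at h2
    omega
  have hct : ct ∈ D := by
    obtain ⟨k, hk, hD⟩ := hfam lf (fun x y e => by unfold lf at e; rw [nm_inj] at e; omega)
    obtain ⟨d, hd, hadj, -⟩ := h.dom (lf k) (mem_vs.2 (Or.inr (Or.inl ⟨k, hk, rfl⟩))) hD
    rw [adj_bgr] at hadj
    rcases hadj with ha | ha
    · have := kd_es ha
      rw [kd_lf] at this
      omega
    · rcases mem_es.1 ha with ⟨k', hk', rfl, e⟩ | ⟨v, hv, b, rfl, e⟩ | ⟨v, hv, b, k', hk', rfl, e⟩ |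
        ⟨r, hr, k', hk', rfl, e⟩
      · exact hd
      · exact hd
      · have := congrArg kd e
        rw [kd_lf, kd_ve] at this
        omega
      · have := congrArg kd e
        rw [kd_lf, kd_ce] at this
        omega
  have hv : ∀ v, ∃ b, v ∈ vars φ → lt v b ∈ D := by
    intro v
    by_cases hv : v ∈ vars φ
    · obtain ⟨k, hk, hD⟩ := hfam (ve v) (fun x y e => by unfold ve at e; rw [nm_inj] at e; omega)
      obtain ⟨d, hd, hadj, -⟩ := h.dom (ve v k)
        (mem_vs.2 (Or.inr (Or.inr (Or.inr (Or.inl ⟨v, hv, k, hk, rfl⟩))))) hD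
      rw [adj_bgr] at hadj
      rcases hadj with ha | ha
      · have := kd_es ha
        rw [kd_ve] at this
        omega
      · rcases mem_es.1 ha with ⟨k', hk', rfl, e⟩ | ⟨v', hv', b, rfl, e⟩ |
          ⟨v', hv', b, k', hk', rfl, e⟩ | ⟨r, hr, k', hk', rfl, e⟩
        · have := congrArg kd e
          rw [kd_lf, kd_ve] at this
          omega
        · have := congrArg kd e
          rw [kd_lt, kd_ve] at this
          omega
        · unfold ve at e
          rw [nm_inj] at e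
          obtain ⟨-, rfl, -⟩ := e
          exact ⟨b, fun _ => hd⟩
        · have := congrArg kd e
          rw [kd_ve, kd_ce] at this
          omega
    · exact ⟨true, fun h => absurd h hv⟩
  choose β hβ using hv
  -- the literals in `D`
  have hP : (D.filter (fun d => kd d = 2)).card ≤ (vars φ).length := by
    have hsub : insert ct (D.filter (fun d => kd d = 2)) ⊆ D := by
      intro x hx
      rw [Finset.mem_insert, Finset.mem_filter] at hx
      rcases hx with rfl | hx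
      · exact hct
      · exact hx.1
    have hn : ct ∉ D.filter (fun d => kd d = 2) := by
      rw [Finset.mem_filter, kd_ct]
      omega
    have h1 : c ct + ∑ d ∈ D.filter (fun d => kd d = 2), c d ≤ (vars φ).length + 2 := by
      rw [← Finset.sum_insert hn]
      exact (Finset.sum_le_sum_of_subset hsub).trans hw
    have h2 := h.pos ct hct
    rcases Nat.lt_or_ge (c ct) 2 with h3 | h3
    · have h4 : (D.filter (fun d => kd d = 2)).card • 2 ≤
          ∑ d ∈ D.filter (fun d => kd d = 2), c d := by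
        refine Finset.card_nsmul_le_sum _ _ _ fun d hd => ?_
        rw [Finset.mem_filter] at hd
        have h5 := h.pos d hd.1
        have h6 : Adj (bgr φ) ct d := by
          have hdv : d ∈ vs φ := h.sub d hd.1
          rcases mem_vs.1 hdv with rfl | ⟨k, hk, rfl⟩ | ⟨v, hv, b, rfl⟩ | ⟨v, hv, k, hk, rfl⟩ |
            ⟨j, hj, k, hk, rfl⟩
          · rw [kd_ct] at hd; omega
          · rw [kd_lf] at hd; omega
          · exact adj_bgr.2 (Or.inl (mem_es.2 (Or.inr (Or.inl ⟨v, hv, b, rfl, rfl⟩))))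
          · rw [kd_ve] at hd; omega
          · rw [kd_ce] at hd; omega
        have h7 := h.col _ _ h6
        omega
      rw [smul_eq_mul] at h4
      omega
    · have h4 : (D.filter (fun d => kd d = 2)).card • 1 ≤
          ∑ d ∈ D.filter (fun d => kd d = 2), c d := by
        refine Finset.card_nsmul_le_sum _ _ _ fun d hd => ?_
        rw [Finset.mem_filter] at hd
        exact Nat.one_le_iff_ne_zero.2 (h.pos d hd.1)
      rw [smul_eq_mul, mul_one] at h4
      omega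
  have hQ : (vars φ).toFinset.image (fun v => lt v (β v)) = D.filter (fun d => kd d = 2) := by
    apply Finset.eq_of_subset_of_card_le
    · intro x hx
      rw [Finset.mem_image] at hx
      obtain ⟨v, hv, rfl⟩ := hx
      rw [Finset.mem_filter]
      exact ⟨hβ v (List.mem_toFinset.1 hv), kd_lt _ _⟩
    · rw [Finset.card_image_of_injective _ (fun v w e => (lt_inj.1 e).1),
        List.toFinset_card_of_nodup (by unfold vars; exact List.nodup_dedup _)]
      exact hP
  have hu : ∀ v b, lt v b ∈ D → b = β v := by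
    intro v b hb
    have : lt v b ∈ D.filter (fun d => kd d = 2) := Finset.mem_filter.2 ⟨hb, kd_lt _ _⟩
    rw [← hQ, Finset.mem_image] at this
    obtain ⟨w, -, e⟩ := this
    obtain ⟨rfl, e'⟩ := lt_inj.1 e
    exact e'.symm
  refine sat_of_slots β fun r hr => ?_
  have hj : r / 3 < φ.length := by omega
  obtain ⟨k, hk, hD⟩ := hfam (ce (r / 3)) (fun x y e => by unfold ce at e; rw [nm_inj] at e; omega)
  obtain ⟨d, hd, hadj, -⟩ := h.dom (ce (r / 3) k)
    (mem_vs.2 (Or.inr (Or.inr (Or.inr (Or.inr ⟨r / 3, hj, k, hk, rfl⟩))))) hD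
  rw [adj_bgr] at hadj
  rcases hadj with ha | ha
  · have := kd_es ha
    rw [kd_ce] at this
    omega
  · rcases mem_es.1 ha with ⟨k', hk', rfl, e⟩ | ⟨v', hv', b, rfl, e⟩ |
      ⟨v', hv', b, k', hk', rfl, e⟩ | ⟨s, hs, k', hk', rfl, e⟩
    · have := congrArg kd e
      rw [kd_lf, kd_ce] at this
      omega
    · have := congrArg kd e
      rw [kd_lt, kd_ce] at this
      omega
    · have := congrArg kd e
      rw [kd_ve, kd_ce] at this
      omega
    · unfold ce at e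
      rw [nm_inj] at e
      exact ⟨s, slot_cases (by omega), (hu _ _ hd).symm⟩

theorem red_bip : SAT3 φ ↔ UCW (fun G => G.IsBipartite) (bgr φ, (vars φ).length + 2) := by
  unfold UCW
  simp only
  rw [omega_le_iff]
  constructor
  · intro h
    exact ⟨bip, by omega, sol_of_sat h⟩
  · rintro ⟨-, -, c, D, h, hw⟩
    exact sat_of_sol h hw

end

/-! ### The reduction is computed in polynomial time -/

section

variable {α : Type} [TEnc α]

theorem pLf {k : α → ℕ} (hk : Poly k) : Poly (fun a => lf (k a)) := by unfold lf; fun_prop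

theorem pLt {v : α → ℕ} {b : α → Bool} (hv : Poly v) (hb : Poly b) :
    Poly (fun a => lt (v a) (b a)) := by unfold lt; fun_prop

theorem pVe {v k : α → ℕ} (hv : Poly v) (hk : Poly k) : Poly (fun a => ve (v a) (k a)) := by
  unfold ve; fun_prop

theorem pCe {v k : α → ℕ} (hv : Poly v) (hk : Poly k) : Poly (fun a => ce (v a) (k a)) := by
  unfold ce; fun_prop

attribute [fun_prop] pLf pLt pVe pCe

end

theorem bgr_poly : Poly (fun φ : List (Lit ℕ × Lit ℕ × Lit ℕ) =>
    (bgr φ, (vars φ).length + 2)) := by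
  have hN : Poly (fun φ : List (Lit ℕ × Lit ℕ × Lit ℕ) => List.range (NN φ)) :=
    (UPoly.add (UPoly.length (pVars Poly.id)) (UPoly.const 3)).range
  have hm : Poly (fun φ : List (Lit ℕ × Lit ℕ × Lit ℕ) => List.range φ.length) :=
    (UPoly.length Poly.id).range
  have h3 : Poly (fun φ : List (Lit ℕ × Lit ℕ × Lit ℕ) => List.range (3 * φ.length)) :=
    (UPoly.mul (UPoly.const 3) (UPoly.length Poly.id)).range
  refine Poly.pair (Poly.pair ?_ ?_) (by fun_prop)
  · unfold vs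
    refine Poly.cons (Poly.const _) (Poly.append (by fun_prop) (Poly.append (by fun_prop)
      (Poly.append ?_ ?_)))
    · refine Poly.flatMap (F := fun (φ : List (Lit ℕ × Lit ℕ × Lit ℕ)) v =>
        (List.range (NN φ)).map (ve v)) (by fun_prop) ?_
      exact Poly.map (F := fun (x : List (Lit ℕ × Lit ℕ × Lit ℕ) × ℕ) k => ve x.2 k)
        (hN.comp (Poly.fst Poly.id)) (by fun_prop)
    · refine Poly.flatMap (F := fun (φ : List (Lit ℕ × Lit ℕ × Lit ℕ)) j =>
        (List.range (NN φ)).map (ce j)) hm ?_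
      exact Poly.map (F := fun (x : List (Lit ℕ × Lit ℕ × Lit ℕ) × ℕ) k => ce x.2 k)
        (hN.comp (Poly.fst Poly.id)) (by fun_prop)
  · unfold es
    refine Poly.append (by fun_prop) (Poly.append (by fun_prop) (Poly.append ?_ ?_))
    · refine Poly.flatMap (F := fun (φ : List (Lit ℕ × Lit ℕ × Lit ℕ)) v =>
        (List.range (NN φ)).flatMap
          (fun k => [(lt v true, ve v k), (lt v false, ve v k)])) (by fun_prop) ?_
      exact Poly.flatMap (F := fun (x : List (Lit ℕ × Lit ℕ × Lit ℕ) × ℕ) k =>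
        [(lt x.2 true, ve x.2 k), (lt x.2 false, ve x.2 k)])
        (hN.comp (Poly.fst Poly.id)) (by fun_prop)
    · refine Poly.flatMap (F := fun (φ : List (Lit ℕ × Lit ℕ × Lit ℕ)) r =>
        (List.range (NN φ)).map (fun k => (lt (vr φ r) (sg φ r), ce (r / 3) k))) h3 ?_
      exact Poly.map (F := fun (x : List (Lit ℕ × Lit ℕ × Lit ℕ) × ℕ) k =>
        (lt (vr x.1 x.2) (sg x.1 x.2), ce (x.2 / 3) k))
        (hN.comp (Poly.fst Poly.id)) (by fun_prop)

theorem hard_bip : NPHardP (UCW (fun G => G.IsBipartite)) :=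
  (hardI_SAT3.trans bgr_poly fun _ => red_bip).toNPHardP

end Pool.Agent.NPC.R536UD.Bip
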