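import Pool.Agent.R536.UD.Sound2

/-!
# From arrangements to cheap solutions
-/

set_option autoImplicit false

namespace Pool.Agent.NPC.R536UD

open Pool.Agent.NPC.R536CS

namespace Par

variable {P : Par}

/-- The coloring given by an arrangement. -/
def cf (P : Par) (arr : ℕ → ℕ → ℕ) (v : ℕ) : ℕ :=
  if v.unpair.1 = P.K then P.K
  else if v.unpair.2.unpair.1 % 6 = 0 then arr (v.unpair.2.unpair.1 / 6 - 1) v.unpair.1
  else arr (v.unpair.2.unpair.1 / 6) v.unpair.1

theorem cf_nm (arr : ℕ → ℕ → ℕ) (a k : ℕ) : cf P arr (nm a k 0) = if a = P.K then P.K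
    else if k % 6 = 0 then arr (k / 6 - 1) a else arr (k / 6) a := by
  unfold cf nm
  simp only [Nat.unpair_pair]

/-- The conditions on an arrangement. -/
structure Arr (P : Par) (C : Finset ℕ) (arr : ℕ → ℕ → ℕ) (z : ℕ → ℕ) : Prop where
  lt : ∀ g ≤ P.M, ∀ a < P.K, arr g a < P.K
  inj : ∀ g ≤ P.M, ∀ a < P.K, ∀ b < P.K, arr g a = arr g b → a = b
  keep : ∀ g < P.M, ∀ a < P.K, a ∉ P.X (g + 1) → arr (g + 1) a = arr g a
  low : ∀ g ∈ C, ∀ a ∈ P.X (g + 1), arr (g + 1) a < (P.X (g + 1)).length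
  z_lt : ∀ g ∈ C, z g < P.K
  z_X : ∀ g ∈ C, z g ∉ P.X (g + 1)
  z_col : ∀ g ∈ C, arr g (z g) = (P.X (g + 1)).length

variable {C : Finset ℕ} {q : ℕ} {Wn : ℕ → Finset ℕ} {arr : ℕ → ℕ → ℕ} {z : ℕ → ℕ}

theorem cf_E (e : ℕ) : cf P arr (P.E e) = P.K := by
  unfold E
  rw [cf_nm, if_pos rfl]

theorem cf_N (A : Arr P C arr z) {g s a : ℕ} (hg : g < P.M) (hs : s < P.K + 4) (ha : a < P.K) :
    cf P arr (P.N g s a) = if s ≤ P.K then arr g a else arr (g + 1) a := by
  unfold N
  rw [cf_nm, if_neg (show ¬ a = P.K by omega), ky_lt ha]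
  by_cases h1 : s ≤ a
  · rw [if_pos h1, if_pos (show s ≤ P.K by omega)]
    by_cases hx : a ∈ P.X g
    · rw [if_pos hx, if_neg (by omega), show (6 * g + 5) / 6 = g by omega]
    · rw [if_neg hx, if_pos (by omega), show (6 * g + 0) / 6 = g by omega]
      rcases Nat.eq_zero_or_pos g with rfl | hg0
      · rfl
      · obtain ⟨g', rfl⟩ := Nat.exists_eq_succ_of_ne_zero (Nat.pos_iff_ne_zero.1 hg0)
        rw [Nat.succ_eq_add_one, Nat.add_sub_cancel, A.keep g' (by omega) a ha hx]
  · rw [if_neg h1]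
    by_cases h2 : s ≤ P.K
    · rw [if_pos h2, if_neg (show ¬ (a ∈ P.X (g + 1) ∧ P.K < s) by omega), if_pos (by omega),
        show (6 * (g + 1) + 0) / 6 - 1 = g by omega]
    · rw [if_neg h2]
      by_cases hx : a ∈ P.X (g + 1)
      · rw [if_pos (show a ∈ P.X (g + 1) ∧ P.K < s from ⟨hx, by omega⟩), if_neg (by omega),
          show (6 * (g + 1) + (s - P.K + 1)) / 6 = g + 1 by omega]
      · rw [if_neg (show ¬ (a ∈ P.X (g + 1) ∧ P.K < s) from fun h => hx h.1), if_pos (by omega),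
          show (6 * (g + 1) + 0) / 6 - 1 = g by omega,
          A.keep g hg a ha hx]

theorem N_after {g : ℕ} {s a : ℕ} (hs : s < 4) (ha : a < P.K) (hx : a ∉ P.X (g + 1)) :
    P.N g (P.K + s) a = P.N g P.K a := by
  induction s with
  | zero => rfl
  | succ s ih =>
    have e := N_step (P := P) (g := g) (s := P.K + s) ha (by omega) (by tauto)
    rw [show P.K + (s + 1) = P.K + s + 1 from rfl, e, ih (by omega)]

theorem sol_of_arr (G : Good P C q Wn) (A : Arr P C arr z) :
    ∃ c D, Sol P.gr c D ∧ ∑ d ∈ D, c d ≤ q * P.K + ∑ g ∈ C, (P.X (g + 1)).length := by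
  classical
  have hzc : ∀ g ∈ C, ∀ s, P.K < s → s < P.K + 4 →
      cf P arr (P.N g s (z g)) = (P.X (g + 1)).length := by
    intro g hg s hs hs'
    rw [cf_N A (G.C_lt g hg) hs' (A.z_lt g hg), if_neg (by omega),
      A.keep g (G.C_lt g hg) _ (A.z_lt g hg) (A.z_X g hg), A.z_col g hg]
  have hzN : ∀ g ∈ C, ∀ s, P.K < s → s < P.K + 4 → P.N g s (z g) = P.N g (P.K + 1) (z g) := by
    intro g hg s hs hs'
    obtain ⟨j, rfl⟩ : ∃ j, s = P.K + j := ⟨s - P.K, by omega⟩
    rw [N_after (by omega) (A.z_lt g hg) (A.z_X g hg),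
      N_after (s := 1) (by omega) (A.z_lt g hg) (A.z_X g hg)]
  have colB_lt : ∀ g < P.M, ∀ s < P.K + 4, ∀ a < P.K, cf P arr (P.N g s a) < P.K := by
    intro g hg s hs a ha
    rw [cf_N A hg hs ha]
    split_ifs
    · exact A.lt g hg.le a ha
    · exact A.lt (g + 1) hg a ha
  have colB_inj : ∀ g < P.M, ∀ s < P.K + 4, ∀ a < P.K, ∀ b < P.K,
      cf P arr (P.N g s a) = cf P arr (P.N g s b) → a = b := by
    intro g hg s hs a ha b hb
    rw [cf_N A hg hs ha, cf_N A hg hs hb]
    split_ifs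
    · exact A.inj g hg.le a ha b hb
    · exact A.inj (g + 1) hg a ha b hb
  have hlen : ∀ g ∈ C, 0 < (P.X (g + 1)).length := fun g hg =>
    List.length_pos_of_ne_nil (G.ne_nil g hg)
  refine ⟨cf P arr, (Finset.range q).image P.E ∪ C.image (fun g => P.N g (P.K + 1) (z g)),
    ⟨?_, ?_, ?_, ?_⟩, ?_⟩
  · intro d hd
    rw [Finset.mem_union, Finset.mem_image, Finset.mem_image] at hd
    rcases hd with ⟨e, he, rfl⟩ | ⟨g, hg, rfl⟩
    · rw [Finset.mem_range] at he
      obtain ⟨g, hg⟩ : (Wn e).Nonempty := Finset.card_pos.1 (by rw [G.W_card e he]; omega)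
      refine mem_gr.2 ⟨g, 0, P.K, G.W_lt e he g hg, by omega, K_mem_al (by omega), ?_⟩
      rw [N_K (K_mem_al (by omega)), G.W_ei e he g hg]
    · exact mem_gr.2 ⟨g, P.K + 1, z g, G.C_lt g hg, by omega, mem_al_of_lt (A.z_lt g hg), rfl⟩
  · intro d hd
    rw [Finset.mem_union, Finset.mem_image, Finset.mem_image] at hd
    rcases hd with ⟨e, he, rfl⟩ | ⟨g, hg, rfl⟩
    · rw [cf_E]
      have := G.K_pos
      omega
    · rw [hzc g hg _ (by omega) (by omega)]
      have := hlen g hg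
      omega
  · intro u v huv
    obtain ⟨g, s, a, b, hg, hs, ha, hb, hab, rfl, rfl⟩ := adj_gr.1 huv
    rcases mem_al.1 ha with ha' | ⟨rfl, ha'⟩
    · rcases mem_al.1 hb with hb' | ⟨rfl, hb'⟩
      · exact fun e => hab (colB_inj g hg s hs a ha' b hb' e)
      · have := colB_lt g hg s hs a ha'
        rw [N_K hb, cf_E]
        omega
    · rcases mem_al.1 hb with hb' | ⟨rfl, hb'⟩
      · have := colB_lt g hg s hs b hb'
        rw [N_K ha, cf_E]
        omega
      · exact absurd rfl hab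
  · intro v hv hD
    obtain ⟨g, s, a, hg, hs, ha, rfl⟩ := mem_gr.1 hv
    have hED : P.E (P.ei g) ∈ (Finset.range q).image P.E ∪ C.image (fun g => P.N g (P.K + 1) (z g))
        := Finset.mem_union_left _ (Finset.mem_image_of_mem _ (Finset.mem_range.2 (G.ei_lt g hg)))
    rcases mem_al.1 ha with ha' | ⟨rfl, ha'⟩
    · by_cases hK : P.K ∈ P.al g s
      · refine ⟨_, hED, adj_gr.2 ⟨g, s, a, P.K, hg, hs, ha, hK, by omega, rfl, (N_K hK).symm⟩, ?_⟩
        rw [cf_E]
        exact colB_lt g hg s hs a ha'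
      · rw [mem_al] at hK
        have hc : P.ck g = true ∧ P.K < s := by
          by_contra hc
          exact hK (Or.inr ⟨rfl, hc⟩)
        have hgC := (G.mem_C g).2 hc.1
        by_cases hx : a ∈ P.X (g + 1)
        · refine ⟨P.N g s (z g), ?_, adj_gr.2 ⟨g, s, a, z g, hg, hs, ha,
            mem_al_of_lt (A.z_lt g hgC), ?_, rfl, rfl⟩, ?_⟩
          · rw [hzN g hgC s hc.2 hs]
            exact Finset.mem_union_right _ (Finset.mem_image_of_mem _ hgC)
          · rintro rfl
            exact A.z_X g hgC hx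
          · rw [hzc g hgC s hc.2 hs, cf_N A hg hs ha', if_neg (by omega)]
            exact A.low g hgC a hx
        · obtain ⟨j, rfl⟩ : ∃ j, s = P.K + j := ⟨s - P.K, by omega⟩
          have hK' : P.K ∈ P.al g P.K := K_mem_al le_rfl
          refine ⟨_, hED, adj_gr.2 ⟨g, P.K, a, P.K, hg, by omega, mem_al_of_lt ha', hK', by omega,
            N_after (by omega) ha' hx, (N_K hK').symm⟩, ?_⟩
          rw [cf_E]
          exact colB_lt g hg _ hs a ha'
    · rw [N_K ha] at hD
      exact absurd hED hD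
  · have hdj : Disjoint ((Finset.range q).image P.E)
        (C.image (fun g => P.N g (P.K + 1) (z g))) := by
      rw [Finset.disjoint_left]
      intro d hd hd'
      rw [Finset.mem_image] at hd hd'
      obtain ⟨e, -, rfl⟩ := hd
      obtain ⟨g, hg, e'⟩ := hd'
      exact N_ne_E (A.z_lt g hg) e'
    rw [Finset.sum_union hdj, Finset.sum_image (fun x _ y _ e => E_inj.1 e), Finset.sum_image]
    · rw [Finset.sum_congr rfl (fun e _ => cf_E (P := P) (arr := arr) e), Finset.sum_const,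
        Finset.card_range, smul_eq_mul,
        Finset.sum_congr rfl (fun g hg => hzc g hg (P.K + 1) (by omega) (by omega))]
    · intro g hg g' hg' e
      by_contra hne
      have := N_era (A.z_lt g hg) (by omega) (by omega) e
      rcases G.C_sp g hg g' hg' hne with h | h <;> omega

end Par

end Pool.Agent.NPC.R536UD
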