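import Pool.Agent.R536.CS.Mem

/-!
# The up-color domination weight
-/

set_option autoImplicit false

namespace Pool.Agent.NPC.R536UD

section

variable {V : Type} (G : SimpleGraph V)

/-- Colorings: adjacent vertices have different colors. The colors are natural numbers. -/
def IsColoring (c : V → ℕ) : Prop := ∀ u v, G.Adj u v → c u ≠ c v

/-- Up-color dominating sets for `(G, c)`: no vertex of `D` has color `0` and every vertex outside
`D` has a neighbour in `D` with a larger color. -/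
def UpDominating (c : V → ℕ) (D : Finset V) : Prop :=
  (∀ d ∈ D, c d ≠ 0) ∧ ∀ v, v ∉ D → ∃ d ∈ D, G.Adj v d ∧ c v < c d

/-- The minimum weight of an up-color dominating set for `(G, c)` (infinite if there is none). -/
noncomputable def omegaUC (c : V → ℕ) : ℕ∞ :=
  ⨅ (D : Finset V) (_ : UpDominating G c D), ((∑ d ∈ D, c d : ℕ) : ℕ∞)

/-- The up-color domination weight of `G`. -/
noncomputable def OmegaUC : ℕ∞ := ⨅ (c : V → ℕ) (_ : IsColoring G c), omegaUC G c

/-- Interval graphs: the vertices are assigned closed intervals `[l v, r v]` of the real line, and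
different vertices are adjacent if and only if their intervals intersect. -/
def IsIntervalGraph : Prop :=
  ∃ l r : V → ℝ, (∀ v, l v ≤ r v) ∧
    ∀ u v, G.Adj u v ↔ u ≠ v ∧ (Set.Icc (l u) (r u) ∩ Set.Icc (l v) (r v)).Nonempty

end

theorem iInf_le_nat {ι : Sort*} {f : ι → ℕ∞} {k : ℕ} : (⨅ i, f i) ≤ (k : ℕ∞) ↔ ∃ i, f i ≤ k := by
  constructor
  · intro h
    by_contra hc
    push Not at hc
    have h1 : ((k : ℕ∞) + 1) ≤ ⨅ i, f i := le_iInf fun i => by
      exact Order.add_one_le_of_lt (hc i)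
    have h2 := h1.trans h
    exact absurd h2 (by
      have : ((k : ℕ∞) + 1) = ((k + 1 : ℕ) : ℕ∞) := by push_cast; rfl
      rw [this, Nat.cast_le]
      omega)
  · rintro ⟨i, hi⟩
    exact (iInf_le f i).trans hi

theorem OmegaUC_le {V : Type} {G : SimpleGraph V} {k : ℕ} : OmegaUC G ≤ k ↔
    ∃ c : V → ℕ, IsColoring G c ∧ ∃ D : Finset V, UpDominating G c D ∧ ∑ d ∈ D, c d ≤ k := by
  unfold OmegaUC omegaUC
  simp only [iInf_le_nat, Nat.cast_le, exists_prop]

/-- Graphs are given by the list of the names of their vertices and the list of their edges. -/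
abbrev Gr : Type := List ℕ × List (ℕ × ℕ)

/-- The graph given by a list of names of vertices and a list of edges: two different vertices are
adjacent if they form a pair on the list of edges, in some order. -/
def graph (G : Gr) : SimpleGraph {v : ℕ // v ∈ G.1} where
  Adj u v := u ≠ v ∧ ((u.1, v.1) ∈ G.2 ∨ (v.1, u.1) ∈ G.2)
  symm := ⟨fun _ _ h => ⟨h.1.symm, h.2.symm⟩⟩
  loopless := ⟨fun _ h => h.1 rfl⟩

/-- `UCW(C)`: given a graph of the class `C` and a positive integer `k`, is the up-color domination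
weight of the graph at most `k`? -/
def UCW (C : ∀ {V : Type}, SimpleGraph V → Prop) (x : Gr × ℕ) : Prop :=
  C (graph x.1) ∧ 0 < x.2 ∧ OmegaUC (graph x.1) ≤ x.2

/-- Adjacency in terms of names. -/
def Adj (G : Gr) (u v : ℕ) : Prop :=
  u ≠ v ∧ u ∈ G.1 ∧ v ∈ G.1 ∧ ((u, v) ∈ G.2 ∨ (v, u) ∈ G.2)

/-- Solutions in terms of names. -/
structure Sol (G : Gr) (c : ℕ → ℕ) (D : Finset ℕ) : Prop where
  sub : ∀ d ∈ D, d ∈ G.1
  pos : ∀ d ∈ D, c d ≠ 0
  col : ∀ u v, Adj G u v → c u ≠ c v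
  dom : ∀ v ∈ G.1, v ∉ D → ∃ d ∈ D, Adj G v d ∧ c v < c d

theorem omega_le_iff (G : Gr) (k : ℕ) : OmegaUC (graph G) ≤ k ↔
    ∃ c D, Sol G c D ∧ ∑ d ∈ D, c d ≤ k := by
  rw [OmegaUC_le]
  constructor
  · rintro ⟨c, hc, D, ⟨h1, h2⟩, h3⟩
    refine ⟨fun v => if h : v ∈ G.1 then c ⟨v, h⟩ else 0, D.map ⟨Subtype.val,
      Subtype.val_injective⟩, ⟨?_, ?_, ?_, ?_⟩, ?_⟩
    · intro d hd
      rw [Finset.mem_map] at hd
      obtain ⟨⟨d', hd'⟩, -, rfl⟩ := hd
      exact hd'
    · intro d hd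
      rw [Finset.mem_map] at hd
      obtain ⟨⟨d', hd'⟩, hD, rfl⟩ := hd
      simp only [Function.Embedding.coeFn_mk, dif_pos hd']
      exact h1 _ hD
    · rintro u v ⟨hne, hu, hv, he⟩
      simp only [dif_pos hu, dif_pos hv]
      exact hc _ _ ⟨fun h => hne (congrArg Subtype.val h), he⟩
    · intro v hv hD
      have hD' : (⟨v, hv⟩ : {v : ℕ // v ∈ G.1}) ∉ D := fun h => hD (Finset.mem_map.2 ⟨_, h, rfl⟩)
      obtain ⟨⟨d, hd⟩, hdD, hadj, hlt⟩ := h2 _ hD'
      refine ⟨d, Finset.mem_map.2 ⟨_, hdD, rfl⟩, ⟨fun h => hadj.1 (Subtype.ext h), hv, hd,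
        hadj.2⟩, ?_⟩
      simp only [dif_pos hv, dif_pos hd]
      exact hlt
    · rw [Finset.sum_map]
      refine le_trans (le_of_eq ?_) h3
      refine Finset.sum_congr rfl fun d _ => ?_
      obtain ⟨d, hd⟩ := d
      simp only [Function.Embedding.coeFn_mk, dif_pos hd]
  · rintro ⟨c, D, h, hk⟩
    refine ⟨fun v => c v.1, ?_, D.subtype (· ∈ G.1), ⟨?_, ?_⟩, ?_⟩
    · rintro ⟨u, hu⟩ ⟨v, hv⟩ ⟨hne, he⟩
      exact h.col u v ⟨fun h => hne (Subtype.ext h), hu, hv, he⟩
    · rintro ⟨d, hd⟩ hD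
      exact h.pos d (Finset.mem_subtype.1 hD)
    · rintro ⟨v, hv⟩ hD
      obtain ⟨d, hdD, hadj, hlt⟩ := h.dom v hv (fun h' => hD (Finset.mem_subtype.2 h'))
      exact ⟨⟨d, hadj.2.2.1⟩, Finset.mem_subtype.2 hdD, ⟨fun h => hadj.1 (congrArg Subtype.val h),
        hadj.2.2.2⟩, hlt⟩
    · refine le_trans (le_of_eq ?_) hk
      rw [← Finset.sum_subtype_of_mem (p := (· ∈ G.1)) c (fun x hx => h.sub x hx)]

end Pool.Agent.NPC.R536UD
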