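import Pool.Agent.R536.UD.Defs

/-!
# Graphs given by sequences of cliques
-/

set_option autoImplicit false

namespace Pool.Agent.NPC.R536UD

open Pool.Agent.NPC.R536CS

/-! ### Sequences of cliques -/

/-- The graph whose edges are the pairs of vertices on a common list `cl t` with `t < T`. -/
def cg (T : ℕ) (cl : ℕ → List ℕ) : Gr :=
  ((List.range T).flatMap cl,
    (List.range T).flatMap (fun t => (cl t).flatMap (fun u => (cl t).map (fun v => (u, v)))))

theorem mem_cg {T : ℕ} {cl : ℕ → List ℕ} {v : ℕ} : v ∈ (cg T cl).1 ↔ ∃ t < T, v ∈ cl t := by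
  simp [cg]

theorem adj_cg {T : ℕ} {cl : ℕ → List ℕ} {u v : ℕ} :
    Adj (cg T cl) u v ↔ u ≠ v ∧ ∃ t < T, u ∈ cl t ∧ v ∈ cl t := by
  unfold Adj
  rw [mem_cg, mem_cg]
  have h : ∀ u v, (u, v) ∈ (cg T cl).2 ↔ ∃ t < T, u ∈ cl t ∧ v ∈ cl t := by
    intro u v
    simp only [cg, List.mem_flatMap, List.mem_range, List.mem_map, Prod.mk.injEq]
    constructor
    · rintro ⟨t, ht, u', hu, v', hv, rfl, rfl⟩; exact ⟨t, ht, hu, hv⟩
    · rintro ⟨t, ht, hu, hv⟩; exact ⟨t, ht, u, hu, v, hv, rfl, rfl⟩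
  rw [h, h]
  constructor
  · rintro ⟨h1, -, -, ⟨t, ht, h3, h4⟩ | ⟨t, ht, h3, h4⟩⟩
    · exact ⟨h1, t, ht, h3, h4⟩
    · exact ⟨h1, t, ht, h4, h3⟩
  · rintro ⟨h1, t, ht, h3, h4⟩
    exact ⟨h1, ⟨t, ht, h3⟩, ⟨t, ht, h4⟩, Or.inl ⟨t, ht, h3, h4⟩⟩

/-- If each vertex is on the lists `cl t` for an interval of values of `t` then the graph is an
interval graph. -/
theorem interval_cg {T : ℕ} {cl : ℕ → List ℕ}
    (h : ∀ v t₁ t₂ t₃, t₁ ≤ t₂ → t₂ ≤ t₃ → t₃ < T → v ∈ cl t₁ → v ∈ cl t₃ → v ∈ cl t₂) :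
    IsIntervalGraph (graph (cg T cl)) := by
  classical
  have hne : ∀ v : {v // v ∈ (cg T cl).1}, ((Finset.range T).filter (fun t => v.1 ∈ cl t)).Nonempty
      := by
    rintro ⟨v, hv⟩
    obtain ⟨t, ht, hv⟩ := mem_cg.1 hv
    exact ⟨t, Finset.mem_filter.2 ⟨Finset.mem_range.2 ht, hv⟩⟩
  refine ⟨fun v => (((Finset.range T).filter (fun t => v.1 ∈ cl t)).min' (hne v) : ℕ),
    fun v => (((Finset.range T).filter (fun t => v.1 ∈ cl t)).max' (hne v) : ℕ), ?_, ?_⟩
  · intro v
    exact Nat.cast_le.2 (Finset.min'_le _ _ (Finset.max'_mem _ _))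
  · intro u v
    have hmin : ∀ v : {v // v ∈ (cg T cl).1},
        ((Finset.range T).filter (fun t => v.1 ∈ cl t)).min' (hne v) < T ∧
        v.1 ∈ cl (((Finset.range T).filter (fun t => v.1 ∈ cl t)).min' (hne v)) := fun v => by
      have := Finset.min'_mem _ (hne v)
      rw [Finset.mem_filter, Finset.mem_range] at this
      exact this
    have hmax : ∀ v : {v // v ∈ (cg T cl).1},
        ((Finset.range T).filter (fun t => v.1 ∈ cl t)).max' (hne v) < T ∧
        v.1 ∈ cl (((Finset.range T).filter (fun t => v.1 ∈ cl t)).max' (hne v)) := fun v => by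
      have := Finset.max'_mem _ (hne v)
      rw [Finset.mem_filter, Finset.mem_range] at this
      exact this
    have key : ∀ (v : {v // v ∈ (cg T cl).1}) (t : ℕ), t < T → (v.1 ∈ cl t ↔
        ((Finset.range T).filter (fun t => v.1 ∈ cl t)).min' (hne v) ≤ t ∧
        t ≤ ((Finset.range T).filter (fun t => v.1 ∈ cl t)).max' (hne v)) := by
      intro v t ht
      constructor
      · intro hv
        have : t ∈ (Finset.range T).filter (fun t => v.1 ∈ cl t) :=
          Finset.mem_filter.2 ⟨Finset.mem_range.2 ht, hv⟩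
        exact ⟨Finset.min'_le _ _ this, Finset.le_max' _ _ this⟩
      · rintro ⟨h1, h2⟩
        exact h v.1 _ _ _ h1 h2 (hmax v).1 (hmin v).2 (hmax v).2
    have hadj : (graph (cg T cl)).Adj u v ↔ Adj (cg T cl) u.1 v.1 := by
      constructor
      · rintro ⟨h1, h2⟩; exact ⟨fun h => h1 (Subtype.ext h), u.2, v.2, h2⟩
      · rintro ⟨h1, -, -, h2⟩; exact ⟨fun h => h1 (congrArg Subtype.val h), h2⟩
    rw [hadj, adj_cg]
    constructor
    · rintro ⟨h1, t, ht, hu, hv⟩
      refine ⟨fun h => h1 (congrArg Subtype.val h), (t : ℝ), ?_, ?_⟩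
      · have := (key u t ht).1 hu
        exact ⟨Nat.cast_le.2 this.1, Nat.cast_le.2 this.2⟩
      · have := (key v t ht).1 hv
        exact ⟨Nat.cast_le.2 this.1, Nat.cast_le.2 this.2⟩
    · rintro ⟨h1, x, ⟨hx1, hx2⟩, hx3, hx4⟩
      refine ⟨fun h => h1 (Subtype.ext h), ?_⟩
      have a1 := Nat.cast_le.1 (hx1.trans hx4)
      have a2 := Nat.cast_le.1 (hx3.trans hx2)
      rcases le_total (((Finset.range T).filter (fun t => u.1 ∈ cl t)).min' (hne u))
        (((Finset.range T).filter (fun t => v.1 ∈ cl t)).min' (hne v)) with h3 | h3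
      · refine ⟨_, (hmin v).1, ?_, (hmin v).2⟩
        exact (key u _ (hmin v).1).2 ⟨h3, a2⟩
      · refine ⟨_, (hmin u).1, (hmin u).2, ?_⟩
        exact (key v _ (hmin u).1).2 ⟨h3, a1⟩

/-! ### The tokens -/

/-- The parameters: `K` tracks, `M` eras, the set `X (g + 1)` of tracks opened at the end of the
era `g`, and the eras in which the opened tracks are checked. -/
structure Par where
  /-- the number of tracks -/
  K : ℕ
  /-- the number of eras -/
  M : ℕ
  /-- the tracks opened at the end of the preceding era -/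
  X : ℕ → List ℕ
  /-- the eras with checks -/
  ck : ℕ → Bool

namespace Par

variable (P : Par)

/-- The number of eras with checks before the era `g`. -/
def ei (g : ℕ) : ℕ := ((List.range g).filter P.ck).length

/-- The key of the vertex of the track `a` (of the separator, for `a = K`) at the time `s` of the
era `g`. -/
def ky (g s a : ℕ) : ℕ :=
  if a = P.K then 2 * P.ei g + (if P.ck g = true ∧ P.K < s then 1 else 0)
  else if s ≤ a then 6 * g + (if a ∈ P.X g then 5 else 0)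
  else 6 * (g + 1) + (if a ∈ P.X (g + 1) ∧ P.K < s then s - P.K + 1 else 0)

/-- The vertex of the track `a` at the time `s` of the era `g`. -/
def N (g s a : ℕ) : ℕ := nm a (P.ky g s a) 0

/-- The tracks alive at the time `s` of the era `g`. -/
def al (g s : ℕ) : List ℕ := if P.ck g = true ∧ P.K < s then List.range P.K
  else List.range (P.K + 1)

/-- The clique at the time `t`. -/
def cl (t : ℕ) : List ℕ :=
  (P.al (t / (P.K + 4)) (t % (P.K + 4))).map (P.N (t / (P.K + 4)) (t % (P.K + 4)))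

/-- The graph. -/
def gr : Gr := cg (P.M * (P.K + 4)) P.cl

variable {P}

theorem ei_succ (g : ℕ) : P.ei (g + 1) = P.ei g + (if P.ck g = true then 1 else 0) := by
  unfold ei
  rw [List.range_succ, List.filter_append, List.length_append]
  congr 1
  by_cases h : P.ck g = true
  · simp [h]
  · simp [h]

theorem mem_al {g s a : ℕ} : a ∈ P.al g s ↔ a < P.K ∨ (a = P.K ∧ ¬ (P.ck g = true ∧ P.K < s)) := by
  unfold al
  split_ifs with h
  · simp [h]
  · rw [List.mem_range]
    simp only [h, not_false_eq_true, and_true]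
    omega

theorem mem_al_of_lt {g s a : ℕ} (h : a < P.K) : a ∈ P.al g s := mem_al.2 (Or.inl h)

theorem N_inj {g s a g' s' a' : ℕ} : P.N g s a = P.N g' s' a' ↔ a = a' ∧
    P.ky g s a = P.ky g' s' a' := by
  unfold N
  rw [nm_inj]
  simp

theorem exists_time {t : ℕ} (ht : t < P.M * (P.K + 4)) :
    ∃ g s, g < P.M ∧ s < P.K + 4 ∧ P.cl t = (P.al g s).map (P.N g s) ∧ t = g * (P.K + 4) + s := by
  refine ⟨t / (P.K + 4), t % (P.K + 4), ?_, Nat.mod_lt _ (by omega), rfl, ?_⟩
  · rw [Nat.div_lt_iff_lt_mul (by omega)]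
    exact ht
  · have := Nat.div_add_mod t (P.K + 4)
    rw [mul_comm] at this
    omega

theorem cl_of {g s : ℕ} (hs : s < P.K + 4) :
    P.cl (g * (P.K + 4) + s) = (P.al g s).map (P.N g s) := by
  unfold cl
  have h1 : (g * (P.K + 4) + s) / (P.K + 4) = g := by
    rw [mul_comm, Nat.mul_add_div (by omega), Nat.div_eq_of_lt hs, add_zero]
  have h2 : (g * (P.K + 4) + s) % (P.K + 4) = s := by
    rw [mul_comm, Nat.mul_add_mod, Nat.mod_eq_of_lt hs]
  rw [h1, h2]

theorem time_lt {g s : ℕ} (hg : g < P.M) (hs : s < P.K + 4) :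
    g * (P.K + 4) + s < P.M * (P.K + 4) := by
  calc g * (P.K + 4) + s < g * (P.K + 4) + (P.K + 4) := by omega
    _ = (g + 1) * (P.K + 4) := by ring
    _ ≤ P.M * (P.K + 4) := Nat.mul_le_mul_right _ hg

theorem mem_gr {v : ℕ} : v ∈ P.gr.1 ↔ ∃ g s a, g < P.M ∧ s < P.K + 4 ∧ a ∈ P.al g s ∧
    v = P.N g s a := by
  unfold gr
  rw [mem_cg]
  constructor
  · rintro ⟨t, ht, hv⟩
    obtain ⟨g, s, hg, hs, e, -⟩ := exists_time ht
    rw [e, List.mem_map] at hv
    obtain ⟨a, ha, rfl⟩ := hv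
    exact ⟨g, s, a, hg, hs, ha, rfl⟩
  · rintro ⟨g, s, a, hg, hs, ha, rfl⟩
    refine ⟨_, time_lt hg hs, ?_⟩
    rw [cl_of hs]
    exact List.mem_map_of_mem ha

theorem adj_gr {u v : ℕ} : Adj P.gr u v ↔ ∃ g s a b, g < P.M ∧ s < P.K + 4 ∧ a ∈ P.al g s ∧
    b ∈ P.al g s ∧ a ≠ b ∧ u = P.N g s a ∧ v = P.N g s b := by
  unfold gr
  rw [adj_cg]
  constructor
  · rintro ⟨hne, t, ht, hu, hv⟩
    obtain ⟨g, s, hg, hs, e, -⟩ := exists_time ht
    rw [e, List.mem_map] at hu hv
    obtain ⟨a, ha, rfl⟩ := hu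
    obtain ⟨b, hb, rfl⟩ := hv
    exact ⟨g, s, a, b, hg, hs, ha, hb, fun h => hne (by rw [h]), rfl, rfl⟩
  · rintro ⟨g, s, a, b, hg, hs, ha, hb, hab, rfl, rfl⟩
    refine ⟨fun h => hab (N_inj.1 h).1, _, time_lt hg hs, ?_, ?_⟩
    · rw [cl_of hs]; exact List.mem_map_of_mem ha
    · rw [cl_of hs]; exact List.mem_map_of_mem hb

theorem ky_lt {g s a : ℕ} (ha : a < P.K) : P.ky g s a =
    if s ≤ a then 6 * g + (if a ∈ P.X g then 5 else 0)
    else 6 * (g + 1) + (if a ∈ P.X (g + 1) ∧ P.K < s then s - P.K + 1 else 0) := by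
  unfold ky
  rw [if_neg (show ¬ a = P.K by omega)]

theorem ky_K {g s : ℕ} : P.ky g s P.K = 2 * P.ei g + (if P.ck g = true ∧ P.K < s then 1 else 0) :=
  by
  unfold ky
  rw [if_pos rfl]

theorem mono_ky {a : ℕ} (ha : a ≤ P.K) : Monotone (fun t => P.ky (t / (P.K + 4)) (t % (P.K + 4)) a)
    := by
  refine monotone_nat_of_le_succ fun t => ?_
  have h0 := Nat.div_add_mod t (P.K + 4)
  have h1 := Nat.mod_lt t (show 0 < P.K + 4 by omega)
  set g := t / (P.K + 4) with hg
  set s := t % (P.K + 4) with hs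
  rcases Nat.lt_or_ge (s + 1) (P.K + 4) with h | h
  · have e1 : (t + 1) / (P.K + 4) = g := by
      rw [← h0, add_assoc, Nat.mul_add_div (by omega), Nat.div_eq_of_lt h, add_zero]
    have e2 : (t + 1) % (P.K + 4) = s + 1 := by
      rw [← h0, add_assoc, Nat.mul_add_mod, Nat.mod_eq_of_lt h]
    simp only [e1, e2]
    rcases Nat.lt_or_ge a P.K with haK | haK
    · rw [ky_lt haK, ky_lt haK]
      by_cases hx : a ∈ P.X (g + 1)
      · simp only [hx, true_and]
        split_ifs <;> omega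
      · simp only [hx, false_and, if_false]
        split_ifs <;> omega
    · obtain rfl : a = P.K := by omega
      rw [ky_K, ky_K]
      by_cases hc : P.ck g = true
      · simp only [hc, true_and]
        split_ifs <;> omega
      · simp only [hc, Bool.false_eq_true, false_and, if_false]
        omega
  · have e0 : t + 1 = (P.K + 4) * (g + 1) := by
      rw [← h0, mul_add, mul_one]; omega
    have e1 : (t + 1) / (P.K + 4) = g + 1 := by
      rw [e0, Nat.mul_div_cancel_left _ (by omega)]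
    have e2 : (t + 1) % (P.K + 4) = 0 := by
      rw [e0, Nat.mul_mod_right]
    simp only [e1, e2]
    rcases Nat.lt_or_ge a P.K with haK | haK
    · rw [ky_lt haK, ky_lt haK, if_pos (Nat.zero_le _)]
      by_cases hx : a ∈ P.X (g + 1)
      · simp only [hx, true_and, if_true]
        split_ifs <;> omega
      · simp only [hx, false_and, if_false]
        split_ifs <;> omega
    · obtain rfl : a = P.K := by omega
      rw [ky_K, ky_K, ei_succ]
      by_cases hc : P.ck g = true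
      · simp only [hc, true_and]
        split_ifs <;> omega
      · simp only [hc, Bool.false_eq_true, false_and, if_false]
        split_ifs <;> omega

theorem al_iff {g s : ℕ} : P.K ∈ P.al g s ↔ P.ky g s P.K = 2 * P.ei g := by
  rw [mem_al]
  unfold ky
  rw [if_pos rfl]
  split_ifs with h <;> simp [h]

theorem ky_K_odd {g s g' s' : ℕ} (h : P.ky g s P.K = P.ky g' s' P.K) (h' : P.K ∈ P.al g s) :
    P.K ∈ P.al g' s' := by
  rw [mem_al] at h' ⊢
  unfold ky at h
  simp only [lt_irrefl, true_and, false_or, if_true] at h h' ⊢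
  rw [if_neg h'] at h
  intro hc
  rw [if_pos hc] at h
  omega

theorem interval_gr : IsIntervalGraph (graph P.gr) := by
  refine interval_cg fun v t₁ t₂ t₃ h12 h23 h3 hv1 hv3 => ?_
  unfold cl at *
  rw [List.mem_map] at hv1 hv3 ⊢
  obtain ⟨a, ha, rfl⟩ := hv1
  obtain ⟨b, hb, e⟩ := hv3
  obtain ⟨rfl, e⟩ := N_inj.1 e
  have haK : b ≤ P.K := by
    rcases mem_al.1 ha with h | h
    · exact h.le
    · exact h.1.le
  have m1 := mono_ky haK h12
  have m2 := mono_ky haK h23
  simp only at m1 m2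
  have e2 : P.ky (t₂ / (P.K + 4)) (t₂ % (P.K + 4)) b = P.ky (t₁ / (P.K + 4)) (t₁ % (P.K + 4)) b := by
    omega
  refine ⟨b, ?_, N_inj.2 ⟨rfl, e2⟩⟩
  rcases Nat.lt_or_ge b P.K with h | h
  · exact mem_al_of_lt h
  · have : b = P.K := by omega
    subst this
    exact ky_K_odd e2.symm ha

/-! ### Runs of tokens -/

theorem N_step {g s a : ℕ} (ha : a < P.K) (h1 : s ≠ a) (h2 : ¬ (P.K ≤ s ∧ a ∈ P.X (g + 1))) :
    P.N g (s + 1) a = P.N g s a := by
  rw [N_inj]
  refine ⟨rfl, ?_⟩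
  rw [ky_lt ha, ky_lt ha]
  by_cases h : s ≤ a
  · rw [if_pos h, if_pos (show s + 1 ≤ a by omega)]
  · rw [if_neg h, if_neg (show ¬ s + 1 ≤ a by omega)]
    by_cases hx : a ∈ P.X (g + 1)
    · have : s < P.K := by by_contra hc; exact h2 ⟨by omega, hx⟩
      rw [if_neg (by omega), if_neg (by omega)]
    · rw [if_neg (by tauto), if_neg (by tauto)]

theorem N_next {g a : ℕ} (ha : a < P.K) (h2 : a ∉ P.X (g + 1)) :
    P.N (g + 1) 0 a = P.N g (P.K + 3) a := by
  rw [N_inj]
  refine ⟨rfl, ?_⟩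
  rw [ky_lt ha, ky_lt ha, if_pos (Nat.zero_le _), if_neg h2,
    if_neg (show ¬ P.K + 3 ≤ a by omega), if_neg (by tauto)]

theorem N_era {g s a g' s' a' : ℕ} (ha : a < P.K) (hs : s < P.K + 4) (hs' : s' < P.K + 4)
    (h : P.N g s a = P.N g' s' a') : g ≤ g' + 1 ∧ g' ≤ g + 1 := by
  obtain ⟨rfl, h⟩ := N_inj.1 h
  rw [ky_lt ha, ky_lt ha] at h
  constructor <;> (split_ifs at h <;> omega)

theorem N_piece {g s a g' s' a' : ℕ} (ha : a < P.K) (hx : a ∈ P.X (g + 1)) (hs : P.K < s)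
    (hs4 : s < P.K + 4) (hs' : s' < P.K + 4) (h : P.N g s a = P.N g' s' a') :
    a' = a ∧ g' = g ∧ s' = s := by
  obtain ⟨rfl, h⟩ := N_inj.1 h
  rw [ky_lt ha, ky_lt ha, if_neg (show ¬ s ≤ a by omega), if_pos ⟨hx, hs⟩] at h
  refine ⟨rfl, ?_⟩
  split_ifs at h <;> omega

/-- The separator in the era `g`. -/
def E (P : Par) (e : ℕ) : ℕ := nm P.K (2 * e) 0

theorem N_K {g s : ℕ} (h : P.K ∈ P.al g s) : P.N g s P.K = P.E (P.ei g) := by
  unfold N E
  rw [al_iff.1 h]

theorem E_inj {e e' : ℕ} : P.E e = P.E e' ↔ e = e' := by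
  unfold E
  rw [nm_inj]
  omega

theorem N_ne_E {g s a e : ℕ} (ha : a < P.K) : P.N g s a ≠ P.E e := by
  unfold N E
  rw [Ne, nm_inj]
  omega

theorem K_mem_al {g s : ℕ} (h : s ≤ P.K) : P.K ∈ P.al g s := mem_al.2 (Or.inr ⟨rfl, by omega⟩)

end Par

end Pool.Agent.NPC.R536UD
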