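import Pool.Agent.R536.UD.Route2

/-!
# From assignments of truth values to routings
-/

set_option autoImplicit false

namespace Pool.Agent.NPC.R536UD

section

variable (m : ℕ) (vi : ℕ → ℕ) (sg τ : ℕ → Bool) (ch : ℕ → ℕ)

/-- The tracks exchanged in the step `o` of the lobe `i`. -/
def opb (i o : ℕ) : ℕ × ℕ :=
  if o = 0 then (tv m i, tl m i (!τ i))
  else if o = 9 * m + 1 then (tl m i (!τ i), tv m (i + 1))
  else if vi ((o - 1) / 3) = i ∧ ch ((o - 1) / 3 / 3) = (o - 1) / 3 then
    if (o - 1) % 3 = 0 then (tc ((o - 1) / 3 / 3), tq m ((o - 1) / 3))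
    else if (o - 1) % 3 = 1 then (tl m i (sg ((o - 1) / 3)), tq m ((o - 1) / 3))
    else (tl m i (sg ((o - 1) / 3)), td m ((o - 1) / 3))
  else (0, 0)

/-- The tracks exchanged in the step `k`. -/
def op (k : ℕ) : ℕ × ℕ :=
  if k < 3 * m * bl m then opb m vi sg τ ch (k / bl m) (k % bl m)
  else (td m (3 * (k - 3 * m * bl m)), td m (ch (k - 3 * m * bl m)))

/-- The arrangements. -/
def F : ℕ → Equiv.Perm ℕ
  | 0 => 1
  | k + 1 => F k * Equiv.swap (op m vi sg τ ch k).1 (op m vi sg τ ch k).2

variable {m vi sg τ ch}

theorem opb_cases (i o : ℕ) : (o = 0 ∧ opb m vi sg τ ch i o = (tv m i, tl m i (!τ i))) ∨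
    (o = 9 * m + 1 ∧ opb m vi sg τ ch i o = (tl m i (!τ i), tv m (i + 1))) ∨
    (∃ r, (o = 3 * r + 1 ∧ r ≠ 3 * m ∧ ch (r / 3) = r) ∧ vi r = i ∧
      opb m vi sg τ ch i o = (tc (r / 3), tq m r)) ∨
    (∃ r, (o = 3 * r + 2 ∧ ch (r / 3) = r) ∧ vi r = i ∧
      opb m vi sg τ ch i o = (tl m i (sg r), tq m r)) ∨
    (∃ r, (o = 3 * r + 3 ∧ ch (r / 3) = r) ∧ vi r = i ∧
      opb m vi sg τ ch i o = (tl m i (sg r), td m r)) ∨
    opb m vi sg τ ch i o = (0, 0) := by
  unfold opb
  split_ifs with h0 h1 h2 h3 h4
  · exact Or.inl ⟨h0, rfl⟩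
  · exact Or.inr (Or.inl ⟨h1, rfl⟩)
  · exact Or.inr (Or.inr (Or.inl ⟨(o - 1) / 3, ⟨by omega, by omega, h2.2⟩, h2.1, rfl⟩))
  · exact Or.inr (Or.inr (Or.inr (Or.inl ⟨(o - 1) / 3, ⟨by omega, h2.2⟩, h2.1, rfl⟩)))
  · exact Or.inr (Or.inr (Or.inr (Or.inr (Or.inl ⟨(o - 1) / 3, ⟨by omega, h2.2⟩, h2.1, rfl⟩))))
  · exact Or.inr (Or.inr (Or.inr (Or.inr (Or.inr rfl))))

theorem op_of {i o : ℕ} (hi : i < 3 * m) (ho : o < bl m) :
    op m vi sg τ ch (i * bl m + o) = opb m vi sg τ ch i o := by
  unfold op
  have hbl : 0 < bl m := by unfold bl; omega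
  have h1 : (i * bl m + o) / bl m = i := by
    rw [mul_comm, Nat.mul_add_div hbl, Nat.div_eq_of_lt ho, add_zero]
  have h2 : (i * bl m + o) % bl m = o := by
    rw [mul_comm, Nat.mul_add_mod, Nat.mod_eq_of_lt ho]
  rw [if_pos, h1, h2]
  calc i * bl m + o < i * bl m + bl m := by omega
    _ = (i + 1) * bl m := by ring
    _ ≤ 3 * m * bl m := Nat.mul_le_mul_right _ hi

theorem op_end (j : ℕ) : op m vi sg τ ch (3 * m * bl m + j) = (td m (3 * j), td m (ch j)) := by
  unfold op
  rw [if_neg (by omega), Nat.add_sub_cancel_left]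

theorem time_cases {k : ℕ} (hk : k < SS m) : (∃ i o, i < 3 * m ∧ o < bl m ∧ k = i * bl m + o) ∨
    ∃ j < m, k = 3 * m * bl m + j := by
  rcases Xs_cases (vi := fun _ => 0) (sg := fun _ => true) hk with
    ⟨i, o, hi, ho, e, -⟩ | ⟨j, hj, e, -⟩
  · exact Or.inl ⟨i, o, hi, ho, e⟩
  · exact Or.inr ⟨j, hj, e⟩

theorem op_mem (hch : ∀ j < m, ch j / 3 = j) {k : ℕ} (hk : k < SS m) :
    op m vi sg τ ch k = (0, 0) ∨
      ((op m vi sg τ ch k).1 ∈ Xs m vi sg k ∧ (op m vi sg τ ch k).2 ∈ Xs m vi sg k) := by
  rcases time_cases hk with ⟨i, o, hi, ho, rfl⟩ | ⟨j, hj, rfl⟩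
  · rw [op_of hi ho, Xs_of hi ho]
    have ho' := ho
    unfold bl at ho'
    rcases opb_cases (m := m) (vi := vi) (sg := sg) (τ := τ) (ch := ch) i o with ⟨h, e⟩ | ⟨h, e⟩ |
      ⟨r, h, hv, e⟩ | ⟨r, h, hv, e⟩ | ⟨r, h, hv, e⟩ | e
    · right
      rw [e]
      unfold Xb
      rw [if_pos h]
      cases τ i <;> simp
    · right
      rw [e]
      unfold Xb
      rw [if_neg (by omega), if_pos h]
      cases τ i <;> simp
    · right
      rw [e]
      unfold Xb
      rw [if_neg (by omega), if_neg (by omega), show (o - 1) / 3 = r by omega, if_pos hv,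
        if_pos (by omega)]
      simp
    · right
      rw [e]
      unfold Xb
      rw [if_neg (by omega), if_neg (by omega), show (o - 1) / 3 = r by omega, if_pos hv,
        if_neg (by omega), if_pos (by omega)]
      simp
    · right
      rw [e]
      unfold Xb
      rw [if_neg (by omega), if_neg (by omega), show (o - 1) / 3 = r by omega, if_pos hv,
        if_neg (by omega), if_neg (by omega)]
      simp
    · exact Or.inl e
  · right
    rw [op_end]
    unfold Xs
    rw [if_neg (by omega), Nat.add_sub_cancel_left]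
    have := hch j hj
    simp only [List.mem_cons, List.not_mem_nil, or_false, true_or, td_eq, true_and]
    omega

theorem F_keep (hch : ∀ j < m, ch j / 3 = j) {k a : ℕ} (hk : k < SS m) (ha : a ∉ Xs m vi sg k) :
    F m vi sg τ ch (k + 1) a = F m vi sg τ ch k a := by
  show F m vi sg τ ch k (Equiv.swap _ _ a) = _
  rcases op_mem (vi := vi) (sg := sg) (τ := τ) hch hk with h | ⟨h1, h2⟩
  · rw [h, Equiv.swap_self]
    rfl
  · rw [Equiv.swap_apply_of_ne_of_ne]
    · rintro rfl; exact ha h1
    · rintro rfl; exact ha h2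

theorem F_track {pos : ℕ → ℕ} (h : ∀ k < SS m, Equiv.swap (op m vi sg τ ch k).1
    (op m vi sg τ ch k).2 (pos (k + 1)) = pos k) : ∀ k ≤ SS m, F m vi sg τ ch k (pos k) = pos 0 := by
  intro k
  induction k with
  | zero => intro _; rfl
  | succ k ih =>
    intro hk
    show F m vi sg τ ch k (Equiv.swap _ _ (pos (k + 1))) = _
    rw [h k (by omega), ih (by omega)]

theorem F_lt (hch : ∀ j < m, ch j / 3 = j) : ∀ k ≤ SS m, ∀ a < KK m, F m vi sg τ ch k a < KK m := by
  intro k
  induction k with
  | zero => intro _ a ha; exact ha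
  | succ k ih =>
    intro hk a ha
    show F m vi sg τ ch k (Equiv.swap _ _ a) < _
    refine ih (by omega) _ ?_
    have h0 : 0 < KK m := by unfold KK; omega
    have h12 : (op m vi sg τ ch k).1 < KK m ∧ (op m vi sg τ ch k).2 < KK m := by
      rcases op_mem (vi := vi) (sg := sg) (τ := τ) hch (show k < SS m by omega) with h | ⟨h1, h2⟩
      · rw [h]; exact ⟨h0, h0⟩
      · exact ⟨Xs_lt (by omega) _ h1, Xs_lt (by omega) _ h2⟩
    rw [Equiv.swap_apply_def]
    split_ifs
    · exact h12.2
    · exact h12.1
    · exact ha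

/-- The way of the variable token. -/
def posV (m : ℕ) (τ : ℕ → Bool) (k : ℕ) : ℕ :=
  if k < 3 * m * bl m then
    (if k % bl m = 0 then tv m (k / bl m) else tl m (k / bl m) (!τ (k / bl m)))
  else tv m (3 * m)

theorem posV_of {i o : ℕ} (hi : i < 3 * m) (ho : o < bl m) :
    posV m τ (i * bl m + o) = if o = 0 then tv m i else tl m i (!τ i) := by
  unfold posV
  have hbl : 0 < bl m := by unfold bl; omega
  have h1 : (i * bl m + o) / bl m = i := by
    rw [mul_comm, Nat.mul_add_div hbl, Nat.div_eq_of_lt ho, add_zero]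
  have h2 : (i * bl m + o) % bl m = o := by
    rw [mul_comm, Nat.mul_add_mod, Nat.mod_eq_of_lt ho]
  rw [if_pos, h1, h2]
  calc i * bl m + o < i * bl m + bl m := by omega
    _ = (i + 1) * bl m := by ring
    _ ≤ 3 * m * bl m := Nat.mul_le_mul_right _ hi

theorem posV_next {i : ℕ} (hi : i < 3 * m) : posV m τ ((i + 1) * bl m) = tv m (i + 1) := by
  rcases Nat.lt_or_ge (i + 1) (3 * m) with h | h
  · have := posV_of (m := m) (τ := τ) h (o := 0) (by unfold bl; omega)
    rw [add_zero, if_pos rfl] at this
    exact this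
  · have h' : i + 1 = 3 * m := by omega
    rw [h']
    unfold posV
    rw [if_neg (by omega)]

theorem track_V (hsg : ∀ j < m, τ (vi (ch j)) = sg (ch j)) (hch : ∀ j < m, ch j / 3 = j)
    {k : ℕ} (hk : k < SS m) : Equiv.swap (op m vi sg τ ch k).1
    (op m vi sg τ ch k).2 (posV m τ (k + 1)) = posV m τ k := by
  have hbl : bl m = 9 * m + 2 := rfl
  rcases time_cases hk with ⟨i, o, hi, ho, rfl⟩ | ⟨j, hj, rfl⟩
  · rw [op_of hi ho, posV_of hi ho]
    have h0 := tl_eq (m := m) i (!τ i)
    rcases opb_cases (m := m) (vi := vi) (sg := sg) (τ := τ) (ch := ch) i o with ⟨h, e⟩ | ⟨h, e⟩ |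
      ⟨r, h, hv, e⟩ | ⟨r, h, hv, e⟩ | ⟨r, h, hv, e⟩ | e
    · rw [e, add_assoc, posV_of hi (by omega), if_neg (by omega), if_pos h]
      exact Equiv.swap_apply_right _ _
    · rw [e, if_neg (by omega), show i * bl m + o + 1 = (i + 1) * bl m by
        rw [add_mul, one_mul]; omega, posV_next hi]
      exact Equiv.swap_apply_right _ _
    · rw [e, add_assoc, posV_of hi (by omega), if_neg (by omega), if_neg (by omega)]
      apply Equiv.swap_apply_of_ne_of_ne
      · simp only [tc_eq]; omega
      · simp only [tq_eq]; omega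
    · rw [e, add_assoc, posV_of hi (by omega), if_neg (by omega), if_neg (by omega)]
      apply Equiv.swap_apply_of_ne_of_ne
      · intro h'
        have h1 := hsg (r / 3) (by omega)
        rw [h.2, hv] at h1
        have h2 := tl_inj h'
        rw [h1] at h2
        cases hs : sg r <;> rw [hs] at h2 <;> simp at h2
      · simp only [tq_eq]; omega
    · rw [e, add_assoc, posV_of hi (by omega), if_neg (by omega), if_neg (by omega)]
      apply Equiv.swap_apply_of_ne_of_ne
      · intro h'
        have h1 := hsg (r / 3) (by omega)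
        rw [h.2, hv] at h1
        have h2 := tl_inj h'
        rw [h1] at h2
        cases hs : sg r <;> rw [hs] at h2 <;> simp at h2
      · simp only [td_eq]; omega
    · have hno : o ≠ 0 ∧ o ≠ 9 * m + 1 := by
        constructor
        · rintro rfl
          unfold opb at e
          rw [if_pos rfl, Prod.mk.injEq] at e
          omega
        · rintro rfl
          unfold opb at e
          rw [if_neg (by omega), if_pos rfl, Prod.mk.injEq] at e
          omega
      rw [e, add_assoc, posV_of hi (by omega), if_neg (by omega), if_neg hno.1, Equiv.swap_self]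
      rfl
  · rw [op_end]
    unfold posV
    have := hch j hj
    have := tv_eq (m := m) (3 * m)
    rw [if_neg (by omega), if_neg (by omega)]
    apply Equiv.swap_apply_of_ne_of_ne
    · simp only [td_eq]; omega
    · simp only [td_eq]; omega

/-- The way of the token of the clause `j`. -/
def posC (m : ℕ) (vi : ℕ → ℕ) (sg : ℕ → Bool) (ch : ℕ → ℕ) (j k : ℕ) : ℕ :=
  if k ≤ vi (ch j) * bl m + (3 * ch j + 1) then tc j
  else if k = vi (ch j) * bl m + (3 * ch j + 2) then tq m (ch j)
  else if k = vi (ch j) * bl m + (3 * ch j + 3) then tl m (vi (ch j)) (sg (ch j))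
  else if k ≤ 3 * m * bl m + j then td m (ch j)
  else td m (3 * j)

theorem track_C (hvi : ∀ r < 3 * m, vi r < 3 * m) (hch : ∀ j < m, ch j / 3 = j) {j : ℕ} (hj : j < m)
    {k : ℕ} (hk : k < SS m) : Equiv.swap (op m vi sg τ ch k).1
    (op m vi sg τ ch k).2 (posC m vi sg ch j (k + 1)) = posC m vi sg ch j k := by
  have hbl : bl m = 9 * m + 2 := rfl
  have hcj := hch j hj
  have hvj := hvi (ch j) (by omega)
  have hle := mul_lt (m := m) hvj (o := 3 * ch j + 4) (by omega)
  have hcc : ∀ j' < m, ch j' = ch j → j' = j := by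
    intro j' hj' e
    have := hch j' hj'
    rw [e] at this
    omega
  rcases Nat.lt_trichotomy k (vi (ch j) * bl m + (3 * ch j + 1)) with hlt | heq | hgt
  · -- before
    have e1 : posC m vi sg ch j (k + 1) = tc j := by unfold posC; rw [if_pos (by omega)]
    have e2 : posC m vi sg ch j k = tc j := by unfold posC; rw [if_pos (by omega)]
    rw [e1, e2]
    rcases time_cases hk with ⟨i, o, hi, ho, rfl⟩ | ⟨j', hj', rfl⟩
    · rw [op_of hi ho]
      have h0 := tl_eq (m := m) i (!τ i)
      have h1 := tv_eq (m := m) i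
      have h2 := tv_eq (m := m) (i + 1)
      rcases opb_cases (m := m) (vi := vi) (sg := sg) (τ := τ) (ch := ch) i o with ⟨h, e⟩ |
        ⟨h, e⟩ | ⟨r, h, hv, e⟩ | ⟨r, h, hv, e⟩ | ⟨r, h, hv, e⟩ | e
      · rw [e]
        apply Equiv.swap_apply_of_ne_of_ne <;> simp only [tc_eq] <;> omega
      · rw [e]
        apply Equiv.swap_apply_of_ne_of_ne <;> simp only [tc_eq] <;> omega
      · rw [e]
        apply Equiv.swap_apply_of_ne_of_ne
        · simp only [tc_eq]
          intro h'
          have h3 : r / 3 = j := by omega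
          have h4 := h.2.2
          rw [h3] at h4
          subst h4
          rw [hv] at hlt
          omega
        · simp only [tc_eq, tq_eq]; omega
      · rw [e]
        have h3 := tl_eq (m := m) i (sg r)
        apply Equiv.swap_apply_of_ne_of_ne <;> simp only [tc_eq, tq_eq] <;> omega
      · rw [e]
        have h3 := tl_eq (m := m) i (sg r)
        apply Equiv.swap_apply_of_ne_of_ne <;> simp only [tc_eq, td_eq] <;> omega
      · rw [e, Equiv.swap_self]
        rfl
    · omega
  · have e1 : posC m vi sg ch j (k + 1) = tq m (ch j) := by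
      unfold posC; rw [if_neg (by omega), if_pos (by omega)]
    have e2 : posC m vi sg ch j k = tc j := by unfold posC; rw [if_pos (by omega)]
    have e3 : opb m vi sg τ ch (vi (ch j)) (3 * ch j + 1) = (tc j, tq m (ch j)) := by
      unfold opb
      rw [if_neg (by omega), if_neg (by omega), show (3 * ch j + 1 - 1) / 3 = ch j by omega, hcj,
        if_pos ⟨rfl, rfl⟩, if_pos (by omega)]
    rw [e1, e2, heq, op_of hvj (by omega), e3]
    exact Equiv.swap_apply_right _ _
  · rcases Nat.lt_trichotomy k (vi (ch j) * bl m + (3 * ch j + 2)) with hlt | heq | hgt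
    · omega
    · have e1 : posC m vi sg ch j (k + 1) = tl m (vi (ch j)) (sg (ch j)) := by
        unfold posC; rw [if_neg (by omega), if_neg (by omega), if_pos (by omega)]
      have e2 : posC m vi sg ch j k = tq m (ch j) := by
        unfold posC; rw [if_neg (by omega), if_pos (by omega)]
      have e3 : opb m vi sg τ ch (vi (ch j)) (3 * ch j + 2) =
          (tl m (vi (ch j)) (sg (ch j)), tq m (ch j)) := by
        unfold opb
        rw [if_neg (by omega), if_neg (by omega), show (3 * ch j + 2 - 1) / 3 = ch j by omega, hcj,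
          if_pos ⟨rfl, rfl⟩, if_neg (by omega), if_pos (by omega)]
      rw [e1, e2, heq, op_of hvj (by omega), e3]
      exact Equiv.swap_apply_left _ _
    · rcases Nat.lt_trichotomy k (vi (ch j) * bl m + (3 * ch j + 3)) with hlt | heq | hgt
      · omega
      · have e1 : posC m vi sg ch j (k + 1) = td m (ch j) := by
          unfold posC
          rw [if_neg (by omega), if_neg (by omega), if_neg (by omega), if_pos (by omega)]
        have e2 : posC m vi sg ch j k = tl m (vi (ch j)) (sg (ch j)) := by
          unfold posC; rw [if_neg (by omega), if_neg (by omega), if_pos (by omega)]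
        have e3 : opb m vi sg τ ch (vi (ch j)) (3 * ch j + 3) =
            (tl m (vi (ch j)) (sg (ch j)), td m (ch j)) := by
          unfold opb
          rw [if_neg (by omega), if_neg (by omega), show (3 * ch j + 3 - 1) / 3 = ch j by omega,
            hcj, if_pos ⟨rfl, rfl⟩, if_neg (by omega), if_neg (by omega)]
        rw [e1, e2, heq, op_of hvj (by omega), e3]
        exact Equiv.swap_apply_right _ _
      · rcases Nat.lt_trichotomy k (3 * m * bl m + j) with hlt | heq | hgt
        · have e1 : posC m vi sg ch j (k + 1) = td m (ch j) := by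
            unfold posC
            rw [if_neg (by omega), if_neg (by omega), if_neg (by omega), if_pos (by omega)]
          have e2 : posC m vi sg ch j k = td m (ch j) := by
            unfold posC
            rw [if_neg (by omega), if_neg (by omega), if_neg (by omega), if_pos (by omega)]
          rw [e1, e2]
          rcases time_cases hk with ⟨i, o, hi, ho, rfl⟩ | ⟨j', hj', rfl⟩
          · rw [op_of hi ho]
            have h0 := tl_eq (m := m) i (!τ i)
            have h1 := tv_eq (m := m) i
            have h2 := tv_eq (m := m) (i + 1)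
            rcases opb_cases (m := m) (vi := vi) (sg := sg) (τ := τ) (ch := ch) i o with ⟨h, e⟩ |
              ⟨h, e⟩ | ⟨r, h, hv, e⟩ | ⟨r, h, hv, e⟩ | ⟨r, h, hv, e⟩ | e
            · rw [e]
              apply Equiv.swap_apply_of_ne_of_ne <;> simp only [td_eq] <;> omega
            · rw [e]
              apply Equiv.swap_apply_of_ne_of_ne <;> simp only [td_eq] <;> omega
            · rw [e]
              apply Equiv.swap_apply_of_ne_of_ne <;> simp only [td_eq, tc_eq, tq_eq] <;> omega
            · rw [e]
              have h3 := tl_eq (m := m) i (sg r)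
              apply Equiv.swap_apply_of_ne_of_ne <;> simp only [td_eq, tq_eq] <;> omega
            · rw [e]
              have h3 := tl_eq (m := m) i (sg r)
              apply Equiv.swap_apply_of_ne_of_ne
              · simp only [td_eq]; omega
              · simp only [td_eq]
                intro h'
                have h4 : ch j = r := by omega
                rw [h4, hv] at hgt
                omega
            · rw [e, Equiv.swap_self]
              rfl
          · rw [op_end]
            have h3 := hch j' hj'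
            have h4 := hcc j' hj'
            apply Equiv.swap_apply_of_ne_of_ne <;> simp only [td_eq] <;> omega
        · have e1 : posC m vi sg ch j (k + 1) = td m (3 * j) := by
            unfold posC
            rw [if_neg (by omega), if_neg (by omega), if_neg (by omega), if_neg (by omega)]
          have e2 : posC m vi sg ch j k = td m (ch j) := by
            unfold posC
            rw [if_neg (by omega), if_neg (by omega), if_neg (by omega), if_pos (by omega)]
          rw [e1, e2, heq, op_end]
          exact Equiv.swap_apply_left _ _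
        · have e1 : posC m vi sg ch j (k + 1) = td m (3 * j) := by
            unfold posC
            rw [if_neg (by omega), if_neg (by omega), if_neg (by omega), if_neg (by omega)]
          have e2 : posC m vi sg ch j k = td m (3 * j) := by
            unfold posC
            rw [if_neg (by omega), if_neg (by omega), if_neg (by omega), if_neg (by omega)]
          rw [e1, e2]
          rcases time_cases hk with ⟨i, o, hi, ho, rfl⟩ | ⟨j', hj', rfl⟩
          · have := mul_lt (m := m) hi (o := o) ho.le
            omega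
          · rw [op_end]
            have h3 := hch j' hj'
            apply Equiv.swap_apply_of_ne_of_ne <;> simp only [td_eq] <;> omega

/-- From assignments to routings. -/
theorem routing_of_sat (hvi : ∀ r < 3 * m, vi r < 3 * m) (hch : ∀ j < m, ch j / 3 = j)
    (hsg : ∀ j < m, τ (vi (ch j)) = sg (ch j)) :
    Routing m vi sg (fun k a => F m vi sg τ ch k a) ∧
      (∀ k ≤ SS m, F m vi sg τ ch k 1 = 1) ∧ ∀ k ≤ SS m, F m vi sg τ ch k (m + 2) = m + 2 := by
  have h1 : ∀ k ≤ SS m, F m vi sg τ ch k 1 = 1 := by
    intro k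
    induction k with
    | zero => intro _; rfl
    | succ k ih =>
      intro hk
      rw [F_keep hch (by omega) (z1_notMem (by omega)), ih (by omega)]
  have hbl : bl m = 9 * m + 2 := rfl
  have hz2 : ∀ k < SS m, m + 2 ∉ Xs m vi sg k := by
    intro k hk h
    rcases Xs_cases (vi := vi) (sg := sg) hk with ⟨i, o, hi, ho, e, eX⟩ | ⟨j, hj, e, eX⟩
    · rw [eX] at h
      have h1 := tl_eq (m := m) i true
      have h2 := tl_eq (m := m) i false
      have h3 := tv_eq (m := m) i
      have h4 := tv_eq (m := m) (i + 1)
      rcases Xb_cases (m := m) (vi := vi) (sg := sg) i o with ⟨hz, e⟩ | ⟨hz, e⟩ |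
        ⟨r', hr', hv, e⟩ | ⟨r', hr', hv, e⟩ | ⟨r', hr', hv, e⟩ | e <;> rw [e] at h <;>
        simp only [List.mem_cons, List.not_mem_nil, or_false] at h
      · omega
      · omega
      · rw [tc_eq, tq_eq] at h; omega
      · rw [tq_eq] at h
        have := tl_eq (m := m) i (sg r')
        omega
      · rw [td_eq] at h
        have := tl_eq (m := m) i (sg r')
        omega
    · rw [eX] at h
      simp only [List.mem_cons, List.not_mem_nil, or_false] at h
      simp only [td_eq] at h
      omega
  have h2 : ∀ k ≤ SS m, F m vi sg τ ch k (m + 2) = m + 2 := by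
    intro k
    induction k with
    | zero => intro _; rfl
    | succ k ih =>
      intro hk
      rw [F_keep hch (by omega) (hz2 k (by omega)), ih (by omega)]
  have hV := F_track (m := m) (vi := vi) (sg := sg) (τ := τ) (ch := ch) (pos := posV m τ)
    (fun k hk => track_V hsg hch hk) (SS m) le_rfl
  have hV0 : posV m τ 0 = 0 := by
    unfold posV
    split_ifs with h1 h2
    · rw [Nat.zero_div]; rfl
    · exact absurd (Nat.zero_mod _) h2
    · have : 3 * m * bl m = 0 := by omega
      have hm : m = 0 := by
        rw [hbl] at this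
        rcases Nat.mul_eq_zero.1 this with h | h <;> omega
      subst hm
      rfl
  have hVe : posV m τ (SS m) = tv m (3 * m) := by
    unfold posV SS
    rw [if_neg (by omega)]
  rw [hV0, hVe] at hV
  refine ⟨⟨F_lt hch, fun k _ a _ b _ e => (F m vi sg τ ch k).injective e,
    fun k hk a _ ha => F_keep hch hk ha, rfl, ?_, hV, ?_⟩, h1, h2⟩
  · intro a ha
    show a < m + 2
    unfold Ast at ha
    simp only [List.cons_append, List.nil_append, List.mem_cons, List.mem_map,
      List.mem_range] at ha
    have := tv_eq (m := m) 0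
    rcases ha with ha | ha | ⟨j, hj, rfl⟩
    · omega
    · omega
    · rw [tc_eq]; omega
  · intro a ha
    rcases mem_Aend.1 ha with rfl | rfl | ⟨j, hj, rfl⟩
    · show F m vi sg τ ch (SS m) (tv m (3 * m)) < m + 2
      rw [hV]; omega
    · show F m vi sg τ ch (SS m) 1 < m + 2
      rw [h1 _ le_rfl]; omega
    · have hC := F_track (m := m) (vi := vi) (sg := sg) (τ := τ) (ch := ch)
        (pos := posC m vi sg ch j) (fun k hk => track_C hvi hch hj hk) (SS m) le_rfl
      have hcj := hch j hj
      have hvj := hvi (ch j) (by omega)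
      have hle := mul_lt (m := m) hvj (o := 3 * ch j + 4) (by omega)
      have e1 : posC m vi sg ch j 0 = tc j := by unfold posC; rw [if_pos (Nat.zero_le _)]
      have e2 : posC m vi sg ch j (SS m) = td m (3 * j) := by
        unfold posC SS
        rw [if_neg (by omega), if_neg (by omega), if_neg (by omega), if_neg (by omega)]
      rw [e1, e2] at hC
      show F m vi sg τ ch (SS m) (td m (3 * j)) < m + 2
      rw [hC, tc_eq]
      omega

end

end Pool.Agent.NPC.R536UD
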