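import Pool.Agent.R536.UD.Comp
import Pool.Agent.R536.UD.Route3

/-!
# The interval graph of a formula
-/

set_option autoImplicit false

namespace Pool.Agent.NPC.R536UD

open Pool.Agent.NPC.R536CS

section

variable (m : ℕ) (vi : ℕ → ℕ) (sg : ℕ → Bool)

/-- The tracks opened at the end of the era `g`. -/
def Xe (g : ℕ) : List ℕ :=
  if g = 32 then Ast m
  else if g = 65 then [tv m 0]
  else if 98 ≤ g ∧ g < 98 + SS m then Xs m vi sg (g - 98)
  else if g = 98 + SS m then [tv m (3 * m)]
  else if g = 131 + SS m then Aend m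
  else []

/-- The parameters. -/
def pr : Par where
  K := KK m
  M := 164 + SS m
  X := fun g => if g = 0 then [] else Xe m vi sg (g - 1)
  ck := fun g => decide (g = 32 ∨ g = 65 ∨ g = 98 + SS m ∨ g = 131 + SS m)

/-- The eras with checks. -/
def Ck : Finset ℕ := {32, 65, 98 + SS m, 131 + SS m}

/-- The beginnings of the windows. -/
def base (e : ℕ) : ℕ :=
  if e = 0 then 0 else if e = 1 then 33 else if e = 2 then 66 else if e = 3 then 99 + SS m
  else 132 + SS m

/-- The windows. -/
def Wd (e : ℕ) : Finset ℕ := (Finset.range 8).image (fun k => base m e + 2 + 4 * k)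

variable {m vi sg}

theorem pr_X (g : ℕ) : (pr m vi sg).X (g + 1) = Xe m vi sg g := by
  show (if g + 1 = 0 then [] else Xe m vi sg (g + 1 - 1)) = _
  rw [if_neg (by omega), Nat.add_sub_cancel]

theorem Xe32 : Xe m vi sg 32 = Ast m := by unfold Xe; rw [if_pos rfl]

theorem Xe65 : Xe m vi sg 65 = [tv m 0] := by unfold Xe; rw [if_neg (by omega), if_pos rfl]

theorem XeV : Xe m vi sg (98 + SS m) = [tv m (3 * m)] := by
  unfold Xe
  rw [if_neg (by omega), if_neg (by omega), if_neg (by omega), if_pos rfl]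

theorem XeC : Xe m vi sg (131 + SS m) = Aend m := by
  unfold Xe
  rw [if_neg (by omega), if_neg (by omega), if_neg (by omega), if_neg (by omega), if_pos rfl]

theorem XeS {k : ℕ} (hk : k < SS m) : Xe m vi sg (98 + k) = Xs m vi sg k := by
  unfold Xe
  rw [if_neg (by omega), if_neg (by omega), if_pos (by omega), Nat.add_sub_cancel_left]

theorem Xe_nil {g : ℕ} (h1 : g ≠ 32) (h2 : g ≠ 65) (h3 : g < 98 ∨ 98 + SS m < g)
    (h4 : g ≠ 131 + SS m) : Xe m vi sg g = [] := by
  unfold Xe
  rw [if_neg h1, if_neg h2, if_neg (by omega), if_neg (by omega), if_neg h4]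

theorem mem_Ast {a : ℕ} : a ∈ Ast m ↔ a < m + 2 := by
  unfold Ast
  have := tv_eq (m := m) 0
  simp only [List.cons_append, List.nil_append, List.mem_cons, List.mem_map, List.mem_range]
  constructor
  · rintro (h | h | ⟨j, hj, rfl⟩)
    · omega
    · omega
    · rw [tc_eq]; omega
  · intro h
    rcases Nat.lt_or_ge a 2 with h1 | h1
    · omega
    · exact Or.inr (Or.inr ⟨a - 2, by omega, by rw [tc_eq]; omega⟩)

theorem length_Ast : (Ast m).length = m + 2 := by
  unfold Ast
  simp

theorem nodup_Ast : (Ast m).Nodup := by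
  have h0 := tv_eq (m := m) 0
  unfold Ast
  simp only [List.cons_append, List.nil_append, List.nodup_cons, List.mem_cons, List.mem_map,
    List.mem_range, not_or, not_exists, not_and]
  refine ⟨⟨by omega, fun j hj => ?_⟩, fun j hj => ?_, ?_⟩
  · rw [tc_eq]; omega
  · rw [tc_eq]; omega
  · refine List.nodup_range.map fun x y e => ?_
    simp only [tc_eq] at e
    omega

theorem Xe_lt (g : ℕ) : ∀ a ∈ Xe m vi sg g, a < KK m := by
  intro a ha
  have hK : KK m = 16 * m + 8 := rfl
  have h0 := tv_eq (m := m) 0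
  have hN := tv_eq (m := m) (3 * m)
  unfold Xe at ha
  split_ifs at ha with h1 h2 h3 h4 h5
  · rw [mem_Ast] at ha; omega
  · rw [List.mem_singleton] at ha; omega
  · exact Xs_lt (by omega) _ ha
  · rw [List.mem_singleton] at ha; omega
  · rcases mem_Aend.1 ha with rfl | rfl | ⟨j, hj, rfl⟩
    · omega
    · omega
    · rw [td_eq]; omega
  · simp at ha

theorem pr_ei (g : ℕ) : (pr m vi sg).ei g = (if 32 < g then 1 else 0) + (if 65 < g then 1 else 0) +
    (if 98 + SS m < g then 1 else 0) + (if 131 + SS m < g then 1 else 0) := by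
  induction g with
  | zero => simp [Par.ei]
  | succ g ih =>
    rw [Par.ei_succ, ih]
    have : (pr m vi sg).ck g = true ↔ (g = 32 ∨ g = 65 ∨ g = 98 + SS m ∨ g = 131 + SS m) := by
      show decide _ = true ↔ _
      rw [decide_eq_true_iff]
    by_cases h : (pr m vi sg).ck g = true
    · rw [if_pos h]
      rw [this] at h
      split_ifs <;> omega
    · rw [if_neg h]
      rw [this] at h
      split_ifs <;> omega

theorem sum_Ck (f : ℕ → ℕ) : ∑ g ∈ Ck m, f g =
    f 32 + f 65 + f (98 + SS m) + f (131 + SS m) := by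
  unfold Ck
  rw [Finset.sum_insert (by simp; omega), Finset.sum_insert (by simp; omega),
    Finset.sum_insert (by simp), Finset.sum_singleton]
  ring

theorem mem_Ck {g : ℕ} : g ∈ Ck m ↔ g = 32 ∨ g = 65 ∨ g = 98 + SS m ∨ g = 131 + SS m := by
  unfold Ck
  simp

theorem sum_len : ∑ g ∈ Ck m, ((pr m vi sg).X (g + 1)).length = 2 * m + 6 := by
  rw [sum_Ck]
  simp only [pr_X]
  rw [Xe32, Xe65, XeV, XeC, length_Ast, length_Aend]
  simp
  ring

theorem mem_Wd {e g : ℕ} : g ∈ Wd m e ↔ ∃ k < 8, g = base m e + 2 + 4 * k := by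
  unfold Wd
  simp only [Finset.mem_image, Finset.mem_range]
  constructor
  · rintro ⟨k, hk, rfl⟩; exact ⟨k, hk, rfl⟩
  · rintro ⟨k, hk, rfl⟩; exact ⟨k, hk, rfl⟩

theorem base_cases {e : ℕ} (he : e < 5) : (e = 0 ∧ base m e = 0) ∨ (e = 1 ∧ base m e = 33) ∨
    (e = 2 ∧ base m e = 66) ∨ (e = 3 ∧ base m e = 99 + SS m) ∨ (e = 4 ∧ base m e = 132 + SS m) := by
  unfold base
  split_ifs <;> omega

theorem good : (pr m vi sg).Good (Ck m) 5 (Wd m) where
  K_pos := by show 0 < KK m; unfold KK; omega
  mem_C := by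
    intro g
    rw [mem_Ck]
    show _ ↔ decide _ = true
    rw [decide_eq_true_iff]
  C_lt := by
    intro g hg
    rw [mem_Ck] at hg
    show g < 164 + SS m
    omega
  ne_nil := by
    intro g hg
    rw [pr_X]
    rcases mem_Ck.1 hg with rfl | rfl | rfl | rfl
    · rw [Xe32]; unfold Ast; simp
    · rw [Xe65]; simp
    · rw [XeV]; simp
    · rw [XeC]; unfold Aend; simp
  nodup := by
    intro g hg
    rw [pr_X]
    rcases mem_Ck.1 hg with rfl | rfl | rfl | rfl
    · rw [Xe32]; exact nodup_Ast
    · rw [Xe65]; simp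
    · rw [XeV]; simp
    · rw [XeC]; exact nodup_Aend
  len_lt := by
    intro g hg
    rw [pr_X]
    show _ < KK m
    unfold KK
    rcases mem_Ck.1 hg with rfl | rfl | rfl | rfl
    · rw [Xe32, length_Ast]; omega
    · rw [Xe65]; simp
    · rw [XeV]; simp
    · rw [XeC, length_Aend]; omega
  X_lt := by
    intro g a ha
    rcases Nat.eq_zero_or_pos g with rfl | hg
    · change a ∈ (if 0 = 0 then [] else Xe m vi sg (0 - 1)) at ha
      simp at ha
    · obtain ⟨g', rfl⟩ := Nat.exists_eq_succ_of_ne_zero (Nat.pos_iff_ne_zero.1 hg)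
      rw [Nat.succ_eq_add_one, pr_X] at ha
      exact Xe_lt _ _ ha
  ei_lt := by
    intro g _
    rw [pr_ei]
    split_ifs <;> omega
  W_lt := by
    intro e he g hg
    obtain ⟨k, hk, rfl⟩ := mem_Wd.1 hg
    show _ < 164 + SS m
    rcases base_cases (m := m) he with ⟨-, h⟩ | ⟨-, h⟩ | ⟨-, h⟩ | ⟨-, h⟩ | ⟨-, h⟩ <;> omega
  W_ei := by
    intro e he g hg
    obtain ⟨k, hk, rfl⟩ := mem_Wd.1 hg
    rw [pr_ei]
    rcases base_cases (m := m) he with ⟨h', h⟩ | ⟨h', h⟩ | ⟨h', h⟩ | ⟨h', h⟩ | ⟨h', h⟩ <;>
      rw [h] <;> split_ifs <;> omega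
  W_card := by
    intro e _
    unfold Wd
    rw [Finset.card_image_of_injective _ (fun x y e => by
      have e' : base m _ + 2 + 4 * x = base m _ + 2 + 4 * y := e
      omega),
      Finset.card_range]
  W_ck := by
    intro e he g hg g' hg'
    obtain ⟨k, hk, rfl⟩ := mem_Wd.1 hg
    rw [mem_Ck] at hg'
    rcases base_cases (m := m) he with ⟨h', h⟩ | ⟨h', h⟩ | ⟨h', h⟩ | ⟨h', h⟩ | ⟨h', h⟩ <;> omega
  W_sp := by
    intro e _ g hg g' hg' hne
    obtain ⟨k, hk, rfl⟩ := mem_Wd.1 hg
    obtain ⟨k', hk', rfl⟩ := mem_Wd.1 hg'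
    omega
  C_sp := by
    intro g hg g' hg' hne
    rw [mem_Ck] at hg hg'
    omega
  small := by
    rw [sum_len]
    show 5 * KK m + (2 * m + 6) + 8 < 8 * KK m
    unfold KK
    omega

/-- From cheap solutions to routings. -/
theorem routing_of_sol {c : ℕ → ℕ} {D : Finset ℕ} (h : Sol (pr m vi sg).gr c D)
    (hw : ∑ d ∈ D, c d ≤ 5 * KK m + (2 * m + 6)) : ∃ f, Routing m vi sg f := by
  obtain ⟨arr, h1, h2, h3, h4⟩ := Par.arrangement (good (m := m) (vi := vi) (sg := sg)) h
    (by rw [sum_len]; exact hw)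
  change ∀ g < 164 + SS m, ∀ a < KK m, arr g a < KK m at h1
  change ∀ g < 164 + SS m, ∀ a < KK m, ∀ b < KK m, arr g a = arr g b → a = b at h2
  change ∀ g, g + 1 < 164 + SS m → ∀ a < KK m, a ∉ (pr m vi sg).X (g + 1) →
    arr (g + 1) a = arr g a at h3
  change ∀ g ∈ Ck m, g + 1 < 164 + SS m → _ at h4
  simp only [pr_X] at h3 h4
  have c32 := h4 32 (mem_Ck.2 (Or.inl rfl)) (by omega)
  have c65 := h4 65 (mem_Ck.2 (Or.inr (Or.inl rfl))) (by omega)
  have cV := h4 (98 + SS m) (mem_Ck.2 (Or.inr (Or.inr (Or.inl rfl)))) (by omega)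
  have cC := h4 (131 + SS m) (mem_Ck.2 (Or.inr (Or.inr (Or.inr rfl)))) (by omega)
  rw [Xe32, length_Ast] at c32
  rw [Xe65] at c65
  rw [XeV] at cV
  rw [XeC, length_Aend] at cC
  simp only [List.mem_singleton, forall_eq, List.length_singleton] at c65 cV
  have s1 : ∀ g, 33 ≤ g → g ≤ 98 → ∀ a < KK m, arr g a = arr 33 a := by
    intro g hg
    induction g, hg using Nat.le_induction with
    | base => intro _ a _; rfl
    | succ g hg ih =>
      intro hg' a ha
      rw [← ih (by omega) a ha]
      by_cases h65 : g = 65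
      · subst h65
        by_cases hv : a = tv m 0
        · rw [hv]
          have e1 := c65.1
          have e2 := c65.2
          omega
        · exact h3 65 (by omega) a ha (by rw [Xe65]; simpa using hv)
      · exact h3 g (by omega) a ha (by
          rw [Xe_nil (by omega) h65 (by omega) (by omega)]; simp)
  have s2 : ∀ g, 98 + SS m ≤ g → g ≤ 131 + SS m → ∀ a < KK m, arr g a = arr (98 + SS m) a := by
    intro g hg
    induction g, hg using Nat.le_induction with
    | base => intro _ a _; rfl
    | succ g hg ih =>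
      intro hg' a ha
      rw [← ih (by omega) a ha]
      by_cases hgV : g = 98 + SS m
      · subst hgV
        by_cases hv : a = tv m (3 * m)
        · rw [hv]
          have e1 := cV.1
          have e2 := cV.2
          omega
        · exact h3 _ (by omega) a ha (by rw [XeV]; simpa using hv)
      · exact h3 g (by omega) a ha (by
          rw [Xe_nil (by omega) (by omega) (by omega) (by omega)]; simp)
  have hK : KK m = 16 * m + 8 := rfl
  have hAe : ∀ a ∈ Aend m, a < KK m := fun a ha => by
    have := Xe_lt (m := m) (vi := vi) (sg := sg) (131 + SS m) a (by rw [XeC]; exact ha)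
    exact this
  refine ⟨fun k a => arr (98 + k) a, fun k hk => h1 _ (by omega), fun k hk => h2 _ (by omega),
    fun k hk a ha hX => h3 (98 + k) (by omega) a ha (by rw [XeS hk]; exact hX), ?_, ?_, ?_, ?_⟩
  · show arr 98 (tv m 0) = 0
    have h0 := tv_eq (m := m) 0
    rw [s1 98 (by omega) le_rfl _ (by omega), ← s1 65 (by omega) (by omega) _ (by omega)]
    have e2 := c65.2
    omega
  · intro a ha
    show arr 98 a < m + 2
    have ha' := mem_Ast.1 ha
    rw [s1 98 (by omega) le_rfl _ (by omega)]
    exact (c32 a ha).1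
  · show arr (98 + SS m) (tv m (3 * m)) = 0
    have e2 := cV.2
    omega
  · intro a ha
    show arr (98 + SS m) a < m + 2
    rw [← s2 (131 + SS m) (by omega) le_rfl a (hAe a ha)]
    exact (cC a ha).2

/-- From routings to cheap solutions. -/
theorem sol_of_routing {f : ℕ → ℕ → ℕ} (R : Routing m vi sg f) (hf1 : ∀ k ≤ SS m, f k 1 = 1)
    (hf2 : ∀ k ≤ SS m, f k (m + 2) = m + 2) :
    ∃ c D, Sol (pr m vi sg).gr c D ∧ ∑ d ∈ D, c d ≤ 5 * KK m + (2 * m + 6) := by
  have hK : KK m = 16 * m + 8 := rfl
  have hA : (pr m vi sg).Arr (Ck m) (fun g a => f (min (g - 98) (SS m)) a)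
      (fun g => if g = 65 ∨ g = 98 + SS m then 1 else m + 2) := by
    have hN := tv_eq (m := m) (3 * m)
    refine ⟨fun g _ a ha => R.lt _ (by omega) a ha, fun g _ => R.inj _ (by omega), ?_, ?_, ?_, ?_,
      ?_⟩
    · intro g hg a ha hX
      rw [pr_X] at hX
      show f (min (g + 1 - 98) (SS m)) a = f (min (g - 98) (SS m)) a
      rcases Nat.lt_or_ge g 98 with h | h
      · rw [show g + 1 - 98 = 0 by omega, show g - 98 = 0 by omega]
      · rcases Nat.lt_or_ge g (98 + SS m) with h' | h'
        · rw [show min (g + 1 - 98) (SS m) = (g - 98) + 1 by omega,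
            show min (g - 98) (SS m) = g - 98 by omega]
          refine R.keep (g - 98) (by omega) a ha ?_
          rw [← XeS (by omega), show 98 + (g - 98) = g by omega]
          exact hX
        · rw [show min (g + 1 - 98) (SS m) = SS m by omega,
            show min (g - 98) (SS m) = SS m by omega]
    · intro g hg a ha
      rw [pr_X] at ha ⊢
      show f (min (g + 1 - 98) (SS m)) a < _
      rcases mem_Ck.1 hg with rfl | rfl | rfl | rfl
      · rw [Xe32] at ha ⊢
        rw [length_Ast, show 32 + 1 - 98 = 0 by omega, Nat.zero_min]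
        exact R.start a ha
      · rw [Xe65] at ha ⊢
        rw [List.mem_singleton] at ha
        rw [ha, show 65 + 1 - 98 = 0 by omega, Nat.zero_min, R.startV]
        simp
      · rw [XeV] at ha ⊢
        rw [List.mem_singleton] at ha
        rw [ha, show min (98 + SS m + 1 - 98) (SS m) = SS m by omega, R.endV]
        simp
      · rw [XeC] at ha ⊢
        rw [length_Aend, show min (131 + SS m + 1 - 98) (SS m) = SS m by omega]
        exact R.last a ha
    · intro g _
      show (if g = 65 ∨ g = 98 + SS m then 1 else m + 2) < KK m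
      split_ifs <;> omega
    · intro g hg
      rw [pr_X]
      show (if g = 65 ∨ g = 98 + SS m then 1 else m + 2) ∉ _
      rcases mem_Ck.1 hg with rfl | rfl | rfl | rfl
      · rw [if_neg (by omega), Xe32, mem_Ast]
        omega
      · rw [if_pos (by omega), Xe65, List.mem_singleton]
        have := tv_eq (m := m) 0
        omega
      · rw [if_pos (by omega), XeV, List.mem_singleton]
        omega
      · rw [if_neg (by omega), XeC, mem_Aend]
        simp only [td_eq]
        rintro (h | h | ⟨j, hj, h⟩) <;> omega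
    · intro g hg
      rw [pr_X]
      show f (min (g - 98) (SS m)) (if g = 65 ∨ g = 98 + SS m then 1 else m + 2) = _
      rcases mem_Ck.1 hg with rfl | rfl | rfl | rfl
      · rw [if_neg (by omega), Xe32, length_Ast, hf2 _ (by omega)]
      · rw [if_pos (by omega), Xe65, hf1 _ (by omega)]
        rfl
      · rw [if_pos (by omega), XeV, hf1 _ (by omega)]
        rfl
      · rw [if_neg (by omega), XeC, length_Aend, hf2 _ (by omega)]
  obtain ⟨c, D, h1, h2⟩ := Par.sol_of_arr (good (m := m) (vi := vi) (sg := sg)) hA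
  refine ⟨c, D, h1, ?_⟩
  rw [sum_len] at h2
  exact h2

end

/-! ### Formulas -/

section

variable (φ : List (Lit ℕ × Lit ℕ × Lit ℕ))

/-- The index of a variable. -/
def ix (v : ℕ) : ℕ := ((lits φ).map Prod.snd).idxOf v

/-- The index of the variable of the occurrence `r`. -/
def vi (r : ℕ) : ℕ := ix φ (vr φ r)

/-- The graph of a formula. -/
def fgr : Gr := (pr φ.length (vi φ) (sg φ)).gr

variable {φ}

theorem vi_lt {r : ℕ} (hr : r < 3 * φ.length) : vi φ r < 3 * φ.length := by
  unfold vi ix
  have h1 : ((lits φ).map Prod.snd).length = 3 * φ.length := by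
    rw [List.length_map, length_lits]
  rw [← h1]
  apply List.idxOf_lt_length_of_mem
  have := vr_mem hr
  unfold vars at this
  rwa [List.mem_dedup] at this

theorem red_interval : SAT3 φ ↔ UCW IsIntervalGraph
    (fgr φ, 5 * KK φ.length + (2 * φ.length + 6)) := by
  unfold UCW
  simp only
  rw [omega_le_iff]
  constructor
  · rintro ⟨τ, hτ⟩
    refine ⟨Par.interval_gr, by omega, ?_⟩
    have h := slots_of_sat hτ
    have h' : ∀ j, ∃ s, j < φ.length → s / 3 = j ∧ τ (vr φ s) = sg φ s := by
      intro j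
      by_cases hj : j < φ.length
      · obtain ⟨s, hs⟩ := h j hj
        exact ⟨s, fun _ => hs⟩
      · exact ⟨0, fun h => absurd h hj⟩
    choose ch hch using h'
    -- the value of the variable with index `i`
    have hτ' : ∀ r < 3 * φ.length, τ ((((lits φ).map Prod.snd).getD (vi φ r) 0)) = τ (vr φ r) := by
      intro r hr
      have h1 := vr_mem hr
      unfold vars at h1
      rw [List.mem_dedup] at h1
      have h2 := List.idxOf_lt_length_of_mem h1
      rw [List.getD_eq_getElem _ _ (by unfold vi ix; exact h2)]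
      unfold vi ix
      rw [List.getElem_idxOf]
    have R := routing_of_sat (m := φ.length) (vi := vi φ) (sg := sg φ)
      (τ := fun i => τ (((lits φ).map Prod.snd).getD i 0)) (ch := ch) (fun r hr => vi_lt hr)
      (fun j hj => (hch j hj).1) (fun j hj => by
        have h1 := (hch j hj).1
        rw [hτ' (ch j) (by omega)]
        exact (hch j hj).2)
    exact sol_of_routing R.1 R.2.1 R.2.2
  · rintro ⟨-, -, c, D, h, hw⟩
    obtain ⟨f, R⟩ := routing_of_sol h hw
    obtain ⟨τ, hτ⟩ := sat_of_routing (fun r hr => vi_lt hr) R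
    refine sat_of_slots (fun v => τ (ix φ v)) fun r hr => ?_
    obtain ⟨s, hs, hsr, hs'⟩ := hτ (r / 3) (by omega)
    exact ⟨s, slot_cases (by omega), hs'⟩

end

end Pool.Agent.NPC.R536UD
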