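import Pool.Agent.R536.UD.Inst

/-!
# The reduction to interval graphs is computed in polynomial time
-/

set_option autoImplicit false

namespace Pool.Agent.NPC.R536UD

open Pool.Agent.NPC.R536CS

section

variable {α : Type} [TEnc α]

theorem pTv {m i : α → ℕ} (hm : Poly m) (hi : Poly i) : Poly (fun a => tv (m a) (i a)) := by
  unfold tv; fun_prop

theorem pTl {m i : α → ℕ} {b : α → Bool} (hm : Poly m) (hi : Poly i) (hb : Poly b) :
    Poly (fun a => tl (m a) (i a) (b a)) := by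
  unfold tl; fun_prop

theorem pTq {m i : α → ℕ} (hm : Poly m) (hi : Poly i) : Poly (fun a => tq (m a) (i a)) := by
  unfold tq; fun_prop

theorem pTd {m i : α → ℕ} (hm : Poly m) (hi : Poly i) : Poly (fun a => td (m a) (i a)) := by
  unfold td; fun_prop

theorem pTc {i : α → ℕ} (hi : Poly i) : Poly (fun a => tc (i a)) := by
  unfold tc; fun_prop

theorem pBl {m : α → ℕ} (hm : Poly m) : Poly (fun a => bl (m a)) := by
  unfold bl; fun_prop

theorem pKK {m : α → ℕ} (hm : Poly m) : Poly (fun a => KK (m a)) := by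
  unfold KK; fun_prop

attribute [fun_prop] pTv pTl pTq pTd pTc pBl pKK

theorem pSS {m : α → ℕ} (hm : Poly m) : Poly (fun a => SS (m a)) := by
  unfold SS; fun_prop

attribute [fun_prop] pSS poly_idxOf

theorem pVi {φ : α → List (Lit ℕ × Lit ℕ × Lit ℕ)} {r : α → ℕ} (hφ : Poly φ) (hr : Poly r) :
    Poly (fun a => vi (φ a) (r a)) := by
  unfold vi ix; fun_prop

attribute [fun_prop] pVi

theorem pXb {φ : α → List (Lit ℕ × Lit ℕ × Lit ℕ)} {i o : α → ℕ} (hφ : Poly φ) (hi : Poly i)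
    (ho : Poly o) : Poly (fun a => Xb (φ a).length (vi (φ a)) (sg (φ a)) (i a) (o a)) := by
  unfold Xb; fun_prop

attribute [fun_prop] pXb

theorem pXs {φ : α → List (Lit ℕ × Lit ℕ × Lit ℕ)} {k : α → ℕ} (hφ : Poly φ) (hk : Poly k) :
    Poly (fun a => Xs (φ a).length (vi (φ a)) (sg (φ a)) (k a)) := by
  unfold Xs; fun_prop

attribute [fun_prop] pXs

theorem pAst {φ : α → List (Lit ℕ × Lit ℕ × Lit ℕ)} (hφ : Poly φ) :
    Poly (fun a => Ast (φ a).length) := by
  unfold Ast
  have h : Poly (fun a => List.range (φ a).length) := (UPoly.length hφ).range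
  fun_prop

theorem pAend {φ : α → List (Lit ℕ × Lit ℕ × Lit ℕ)} (hφ : Poly φ) :
    Poly (fun a => Aend (φ a).length) := by
  unfold Aend
  have h : Poly (fun a => List.range (φ a).length) := (UPoly.length hφ).range
  refine Poly.append (by fun_prop) ?_
  exact Poly.map (F := fun a j => td (φ a).length (3 * j)) h (by fun_prop)

attribute [fun_prop] pAst pAend

theorem pXe {φ : α → List (Lit ℕ × Lit ℕ × Lit ℕ)} {g : α → ℕ} (hφ : Poly φ) (hg : Poly g) :
    Poly (fun a => Xe (φ a).length (vi (φ a)) (sg (φ a)) (g a)) := by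
  unfold Xe; fun_prop

attribute [fun_prop] pXe

theorem pX {φ : α → List (Lit ℕ × Lit ℕ × Lit ℕ)} {g : α → ℕ} (hφ : Poly φ) (hg : Poly g) :
    Poly (fun a => (pr (φ a).length (vi (φ a)) (sg (φ a))).X (g a)) := by
  unfold pr; fun_prop

theorem pck {φ : α → List (Lit ℕ × Lit ℕ × Lit ℕ)} {g : α → ℕ} (hφ : Poly φ) (hg : Poly g) :
    Poly (fun a => (pr (φ a).length (vi (φ a)) (sg (φ a))).ck (g a)) := by
  unfold pr; fun_prop

theorem pei {φ : α → List (Lit ℕ × Lit ℕ × Lit ℕ)} {g : α → ℕ} (hφ : Poly φ) (hg : Poly g) :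
    Poly (fun a => (pr (φ a).length (vi (φ a)) (sg (φ a))).ei (g a)) := by
  refine Poly.congr (f := fun a => (if 32 < g a then 1 else 0) + (if 65 < g a then 1 else 0) +
    (if 98 + SS (φ a).length < g a then 1 else 0) +
    (if 131 + SS (φ a).length < g a then 1 else 0)) (by fun_prop) fun a => ?_
  rw [pr_ei]

attribute [fun_prop] pX pck pei

theorem pky {φ : α → List (Lit ℕ × Lit ℕ × Lit ℕ)} {g s i : α → ℕ} (hφ : Poly φ) (hg : Poly g)
    (hs : Poly s) (hi : Poly i) :
    Poly (fun a => (pr (φ a).length (vi (φ a)) (sg (φ a))).ky (g a) (s a) (i a)) := by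
  unfold Par.ky
  show Poly (fun a => if i a = KK (φ a).length then _ else _)
  have h1 : Poly (fun a => KK (φ a).length) := by fun_prop
  refine Poly.ite (by fun_prop) (Poly.add (by fun_prop) (Poly.ite ?_ (by fun_prop) (by fun_prop)))
    (Poly.ite (by fun_prop) (by fun_prop) (Poly.add (by fun_prop) (Poly.ite ?_ ?_ (by fun_prop))))
  · show Poly (fun a => decide (_ ∧ KK (φ a).length < s a))
    fun_prop
  · show Poly (fun a => decide (_ ∧ KK (φ a).length < s a))
    fun_prop
  · show Poly (fun a => s a - KK (φ a).length + 1)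
    fun_prop

attribute [fun_prop] pky pNm

theorem pN {φ : α → List (Lit ℕ × Lit ℕ × Lit ℕ)} {g s i : α → ℕ} (hφ : Poly φ) (hg : Poly g)
    (hs : Poly s) (hi : Poly i) :
    Poly (fun a => (pr (φ a).length (vi (φ a)) (sg (φ a))).N (g a) (s a) (i a)) := by
  unfold Par.N
  exact pNm hi (pky hφ hg hs hi) (Poly.const 0)

theorem uK {φ : α → List (Lit ℕ × Lit ℕ × Lit ℕ)} (hφ : Poly φ) :
    UPoly (fun a => KK (φ a).length) :=
  UPoly.add (UPoly.mul (UPoly.const 16) (UPoly.length hφ)) (UPoly.const 8)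

theorem uS {φ : α → List (Lit ℕ × Lit ℕ × Lit ℕ)} (hφ : Poly φ) :
    UPoly (fun a => SS (φ a).length) :=
  UPoly.add (UPoly.mul (UPoly.mul (UPoly.const 3) (UPoly.length hφ))
    (UPoly.add (UPoly.mul (UPoly.const 9) (UPoly.length hφ)) (UPoly.const 2))) (UPoly.length hφ)

theorem pAl {φ : α → List (Lit ℕ × Lit ℕ × Lit ℕ)} {g s : α → ℕ} (hφ : Poly φ) (hg : Poly g)
    (hs : Poly s) :
    Poly (fun a => (pr (φ a).length (vi (φ a)) (sg (φ a))).al (g a) (s a)) := by
  unfold Par.al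
  have h1 : Poly (fun a => List.range (KK (φ a).length)) := (uK hφ).range
  have h2 : Poly (fun a => List.range (KK (φ a).length + 1)) :=
    (UPoly.add (uK hφ) (UPoly.const 1)).range
  refine Poly.ite ?_ h1 h2
  show Poly (fun a => decide (_ ∧ KK (φ a).length < s a))
  fun_prop

theorem pCl {φ : α → List (Lit ℕ × Lit ℕ × Lit ℕ)} {t : α → ℕ} (hφ : Poly φ) (ht : Poly t) :
    Poly (fun a => (pr (φ a).length (vi (φ a)) (sg (φ a))).cl (t a)) := by
  unfold Par.cl
  have h1 : Poly (fun a => KK (φ a).length + 4) := by fun_prop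
  have h2 : Poly (fun a => t a / (KK (φ a).length + 4)) := by fun_prop
  have h3 : Poly (fun a => t a % (KK (φ a).length + 4)) := by fun_prop
  refine Poly.map (F := fun a i => (pr (φ a).length (vi (φ a)) (sg (φ a))).N
    (t a / (KK (φ a).length + 4)) (t a % (KK (φ a).length + 4)) i) (pAl hφ h2 h3) ?_
  exact pN (hφ.comp (Poly.fst Poly.id)) (h2.comp (Poly.fst Poly.id)) (h3.comp (Poly.fst Poly.id))
    (Poly.snd Poly.id)

end

theorem fgr_poly : Poly fgr := by
  have hT : Poly (fun φ : List (Lit ℕ × Lit ℕ × Lit ℕ) =>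
      List.range ((164 + SS φ.length) * (KK φ.length + 4))) :=
    (UPoly.mul (UPoly.add (UPoly.const 164) (uS Poly.id))
      (UPoly.add (uK Poly.id) (UPoly.const 4))).range
  have hC : Poly (fun x : List (Lit ℕ × Lit ℕ × Lit ℕ) × ℕ =>
      (pr x.1.length (vi x.1) (sg x.1)).cl x.2) := pCl (Poly.fst Poly.id) (Poly.snd Poly.id)
  unfold fgr Par.gr cg
  refine Poly.pair ?_ ?_
  · exact Poly.flatMap (F := fun (φ : List (Lit ℕ × Lit ℕ × Lit ℕ)) t =>
      (pr φ.length (vi φ) (sg φ)).cl t) hT hC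
  · refine Poly.flatMap (F := fun (φ : List (Lit ℕ × Lit ℕ × Lit ℕ)) t =>
      ((pr φ.length (vi φ) (sg φ)).cl t).flatMap (fun u =>
        ((pr φ.length (vi φ) (sg φ)).cl t).map (fun v => (u, v)))) hT ?_
    refine Poly.flatMap (F := fun (x : List (Lit ℕ × Lit ℕ × Lit ℕ) × ℕ) u =>
      ((pr x.1.length (vi x.1) (sg x.1)).cl x.2).map (fun v => (u, v))) hC ?_
    refine Poly.map (F := fun (x : (List (Lit ℕ × Lit ℕ × Lit ℕ) × ℕ) × ℕ) v => (x.2, v))
      (hC.comp (Poly.fst Poly.id)) (by fun_prop)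

theorem hard_interval : NPHardP (UCW IsIntervalGraph) := by
  refine (hardI_SAT3.trans (f := fun φ => (fgr φ, 5 * KK φ.length + (2 * φ.length + 6))) ?_
    fun _ => red_interval).toNPHardP
  exact Poly.pair fgr_poly (by fun_prop)

end Pool.Agent.NPC.R536UD
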