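import Pool.Agent.R536.UD.Sound

/-!
# Routing tokens
-/

set_option autoImplicit false

namespace Pool.Agent.NPC.R536UD

section

variable (m : ℕ) (vi : ℕ → ℕ) (sg : ℕ → Bool)

/-- The tracks of the variable token between the lobes. -/
def tv (i : ℕ) : ℕ := if i = 0 then 0 else m + 2 + i

/-- The two tracks of the lobe `i`. -/
def tl (i : ℕ) (b : Bool) : ℕ := 4 * m + 3 + 2 * i + (bif b then 0 else 1)

/-- The entry tracks of the occurrences. -/
def tq (r : ℕ) : ℕ := 10 * m + 3 + r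

/-- The exit tracks of the occurrences. -/
def td (r : ℕ) : ℕ := 13 * m + 3 + r

/-- The tracks of the clauses. -/
def tc (j : ℕ) : ℕ := 2 + j

/-- The number of tracks. -/
def KK : ℕ := 16 * m + 8

/-- The number of steps for a lobe. -/
def bl : ℕ := 9 * m + 2

/-- The tracks opened in the step `o` of the lobe `i`. -/
def Xb (i o : ℕ) : List ℕ :=
  if o = 0 then [tv m i, tl m i true, tl m i false]
  else if o = 9 * m + 1 then [tl m i true, tl m i false, tv m (i + 1)]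
  else if vi ((o - 1) / 3) = i then
    if (o - 1) % 3 = 0 then [tc ((o - 1) / 3 / 3), tq m ((o - 1) / 3)]
    else if (o - 1) % 3 = 1 then [tl m i (sg ((o - 1) / 3)), tq m ((o - 1) / 3)]
    else [tl m i (sg ((o - 1) / 3)), td m ((o - 1) / 3)]
  else []

/-- The tracks opened in the step `k`. -/
def Xs (k : ℕ) : List ℕ :=
  if k < 3 * m * bl m then Xb m vi sg (k / bl m) (k % bl m)
  else [td m (3 * (k - 3 * m * bl m)), td m (3 * (k - 3 * m * bl m) + 1),
    td m (3 * (k - 3 * m * bl m) + 2)]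

/-- The number of steps. -/
def SS : ℕ := 3 * m * bl m + m

/-- The tracks of the special tokens at the start. -/
def Ast : List ℕ := [tv m 0, 1] ++ (List.range m).map tc

/-- The tracks of the special tokens at the end. -/
def Aend : List ℕ := [tv m (3 * m), 1] ++ (List.range m).map (fun j => td m (3 * j))

/-- Routings. -/
structure Routing (f : ℕ → ℕ → ℕ) : Prop where
  lt : ∀ k ≤ SS m, ∀ a < KK m, f k a < KK m
  inj : ∀ k ≤ SS m, ∀ a < KK m, ∀ b < KK m, f k a = f k b → a = b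
  keep : ∀ k < SS m, ∀ a < KK m, a ∉ Xs m vi sg k → f (k + 1) a = f k a
  startV : f 0 (tv m 0) = 0
  start : ∀ a ∈ Ast m, f 0 a < m + 2
  endV : f (SS m) (tv m (3 * m)) = 0
  last : ∀ a ∈ Aend m, f (SS m) a < m + 2

variable {m vi sg}

theorem tl_eq (i : ℕ) (b : Bool) : 4 * m + 3 + 2 * i ≤ tl m i b ∧ tl m i b ≤ 4 * m + 3 + 2 * i + 1
    := by
  unfold tl
  cases b <;> simp

theorem tl_inj {i : ℕ} {b b' : Bool} (h : tl m i b = tl m i b') : b = b' := by
  unfold tl at h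
  cases b <;> cases b' <;> simp at h ⊢

theorem tv_eq (i : ℕ) : (i = 0 ∧ tv m i = 0) ∨ (i ≠ 0 ∧ tv m i = m + 2 + i) := by
  unfold tv
  split_ifs with h <;> omega

theorem tq_eq (r : ℕ) : tq m r = 10 * m + 3 + r := rfl

theorem td_eq (r : ℕ) : td m r = 13 * m + 3 + r := rfl

theorem tc_eq (j : ℕ) : tc j = 2 + j := rfl

theorem Xb_cases (i o : ℕ) : (o = 0 ∧ Xb m vi sg i o = [tv m i, tl m i true, tl m i false]) ∨
    (o = 9 * m + 1 ∧ Xb m vi sg i o = [tl m i true, tl m i false, tv m (i + 1)]) ∨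
    (∃ r, (o = 3 * r + 1 ∧ r ≠ 3 * m) ∧ vi r = i ∧ Xb m vi sg i o = [tc (r / 3), tq m r]) ∨
    (∃ r, o = 3 * r + 2 ∧ vi r = i ∧ Xb m vi sg i o = [tl m i (sg r), tq m r]) ∨
    (∃ r, o = 3 * r + 3 ∧ vi r = i ∧ Xb m vi sg i o = [tl m i (sg r), td m r]) ∨
    Xb m vi sg i o = [] := by
  unfold Xb
  split_ifs with h0 h1 h2 h3 h4
  · exact Or.inl ⟨h0, rfl⟩
  · exact Or.inr (Or.inl ⟨h1, rfl⟩)
  · exact Or.inr (Or.inr (Or.inl ⟨(o - 1) / 3, ⟨by omega, by omega⟩, h2, rfl⟩))
  · exact Or.inr (Or.inr (Or.inr (Or.inl ⟨(o - 1) / 3, by omega, h2, rfl⟩)))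
  · exact Or.inr (Or.inr (Or.inr (Or.inr (Or.inl ⟨(o - 1) / 3, by omega, h2, rfl⟩))))
  · exact Or.inr (Or.inr (Or.inr (Or.inr (Or.inr rfl))))

theorem Xb_lt {i o : ℕ} (hi : i < 3 * m) (ho : o < bl m) : ∀ a ∈ Xb m vi sg i o, a < KK m := by
  intro a ha
  unfold bl at ho
  unfold KK
  have h1 := tl_eq (m := m) i true
  have h2 := tl_eq (m := m) i false
  have h3 := tv_eq (m := m) i
  have h4 := tv_eq (m := m) (i + 1)
  rcases Xb_cases (m := m) (vi := vi) (sg := sg) i o with ⟨-, e⟩ | ⟨-, e⟩ | ⟨r, hr, -, e⟩ |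
    ⟨r, hr, -, e⟩ | ⟨r, hr, -, e⟩ | e
  · rw [e] at ha
    simp only [List.mem_cons, List.not_mem_nil, or_false] at ha
    rcases ha with rfl | rfl | rfl <;> omega
  · rw [e] at ha
    simp only [List.mem_cons, List.not_mem_nil, or_false] at ha
    rcases ha with rfl | rfl | rfl <;> omega
  · rw [e] at ha
    simp only [List.mem_cons, List.not_mem_nil, or_false] at ha
    rw [tc_eq, tq_eq] at ha
    omega
  · rw [e] at ha
    simp only [List.mem_cons, List.not_mem_nil, or_false] at ha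
    rw [tq_eq] at ha
    have := tl_eq (m := m) i (sg r)
    omega
  · rw [e] at ha
    simp only [List.mem_cons, List.not_mem_nil, or_false] at ha
    rw [td_eq] at ha
    have := tl_eq (m := m) i (sg r)
    omega
  · rw [e] at ha
    simp at ha

theorem Xs_cases {k : ℕ} (hk : k < SS m) : (∃ i o, i < 3 * m ∧ o < bl m ∧ k = i * bl m + o ∧
    Xs m vi sg k = Xb m vi sg i o) ∨ ∃ j < m, k = 3 * m * bl m + j ∧
    Xs m vi sg k = [td m (3 * j), td m (3 * j + 1), td m (3 * j + 2)] := by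
  unfold Xs
  have hbl : 0 < bl m := by unfold bl; omega
  by_cases h : k < 3 * m * bl m
  · left
    refine ⟨k / bl m, k % bl m, ?_, Nat.mod_lt _ hbl, ?_, by rw [if_pos h]⟩
    · rwa [Nat.div_lt_iff_lt_mul hbl]
    · have := Nat.div_add_mod k (bl m)
      rw [mul_comm] at this
      omega
  · right
    unfold SS at hk
    exact ⟨k - 3 * m * bl m, by omega, by omega, by rw [if_neg h]⟩

theorem Xs_of {i o : ℕ} (hi : i < 3 * m) (ho : o < bl m) :
    Xs m vi sg (i * bl m + o) = Xb m vi sg i o := by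
  unfold Xs
  have hbl : 0 < bl m := by unfold bl; omega
  have h1 : (i * bl m + o) / bl m = i := by
    rw [mul_comm, Nat.mul_add_div hbl, Nat.div_eq_of_lt ho, add_zero]
  have h2 : (i * bl m + o) % bl m = o := by
    rw [mul_comm, Nat.mul_add_mod, Nat.mod_eq_of_lt ho]
  rw [if_pos, h1, h2]
  calc i * bl m + o < i * bl m + bl m := by omega
    _ = (i + 1) * bl m := by ring
    _ ≤ 3 * m * bl m := Nat.mul_le_mul_right _ hi

theorem Xs_lt {k : ℕ} (hk : k < SS m) : ∀ a ∈ Xs m vi sg k, a < KK m := by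
  rcases Xs_cases (vi := vi) (sg := sg) hk with ⟨i, o, hi, ho, -, e⟩ | ⟨j, hj, -, e⟩
  · rw [e]; exact Xb_lt hi ho
  · rw [e]
    intro a ha
    simp only [List.mem_cons, List.not_mem_nil, or_false] at ha
    unfold KK
    unfold td at ha
    omega

theorem le_SS {i o : ℕ} (hi : i < 3 * m) (ho : o < bl m) : i * bl m + o < SS m := by
  unfold SS
  calc i * bl m + o < i * bl m + bl m := by omega
    _ = (i + 1) * bl m := by ring
    _ ≤ 3 * m * bl m := Nat.mul_le_mul_right _ hi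
    _ ≤ _ := by omega

/-! ### Where the tracks are opened -/

theorem tv_mem {i i' o : ℕ} (h : tv m i' ∈ Xb m vi sg i o) (hi' : i' ≤ 3 * m) (hi : i < 3 * m)
    (ho : o < bl m) : (i = i' ∧ o = 0) ∨ (i' = i + 1 ∧ o = 9 * m + 1) := by
  unfold bl at ho
  have h0 := tv_eq (m := m) i'
  have h1 := tl_eq (m := m) i true
  have h2 := tl_eq (m := m) i false
  have h3 := tv_eq (m := m) i
  have h4 := tv_eq (m := m) (i + 1)
  rcases Xb_cases (m := m) (vi := vi) (sg := sg) i o with ⟨hz, e⟩ | ⟨hz, e⟩ | ⟨r, hr, -, e⟩ |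
    ⟨r, hr, -, e⟩ | ⟨r, hr, -, e⟩ | e <;> rw [e] at h <;>
    simp only [List.mem_cons, List.not_mem_nil, or_false] at h
  · omega
  · omega
  · rw [tc_eq, tq_eq] at h; omega
  · rw [tq_eq] at h
    have := tl_eq (m := m) i (sg r)
    omega
  · rw [td_eq] at h
    have := tl_eq (m := m) i (sg r)
    omega

theorem tl_mem {i i' o : ℕ} {b : Bool} (h : tl m i' b ∈ Xb m vi sg i o) (hi' : i' < 3 * m)
    (hi : i < 3 * m) (ho : o < bl m) : i = i' := by
  unfold bl at ho
  have h0 := tl_eq (m := m) i' b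
  have h1 := tl_eq (m := m) i true
  have h2 := tl_eq (m := m) i false
  have h3 := tv_eq (m := m) i
  have h4 := tv_eq (m := m) (i + 1)
  rcases Xb_cases (m := m) (vi := vi) (sg := sg) i o with ⟨-, e⟩ | ⟨-, e⟩ | ⟨r, hr, -, e⟩ |
    ⟨r, hr, -, e⟩ | ⟨r, hr, -, e⟩ | e <;> rw [e] at h <;>
    simp only [List.mem_cons, List.not_mem_nil, or_false] at h
  · omega
  · omega
  · rw [tc_eq, tq_eq] at h; omega
  · rw [tq_eq] at h
    have := tl_eq (m := m) i (sg r)
    omega
  · rw [td_eq] at h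
    have := tl_eq (m := m) i (sg r)
    omega

theorem tl_mem' {i o : ℕ} {b : Bool} (h : tl m i b ∈ Xb m vi sg i o)
    (hi : i < 3 * m) (ho : o < bl m) (h0 : o ≠ 0) (h1 : o ≠ 9 * m + 1) :
    ∃ r < 3 * m, vi r = i ∧ sg r = b ∧ ((o = 3 * r + 2 ∧ Xb m vi sg i o = [tl m i b, tq m r]) ∨
      (o = 3 * r + 3 ∧ Xb m vi sg i o = [tl m i b, td m r])) := by
  unfold bl at ho
  have hb := tl_eq (m := m) i b
  rcases Xb_cases (m := m) (vi := vi) (sg := sg) i o with ⟨hz, -⟩ | ⟨hz, -⟩ | ⟨r, hr, hv, e⟩ |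
    ⟨r, hr, hv, e⟩ | ⟨r, hr, hv, e⟩ | e
  · exact absurd hz h0
  · exact absurd hz h1
  · rw [e] at h
    simp only [List.mem_cons, List.not_mem_nil, or_false] at h
    rw [tc_eq, tq_eq] at h; omega
  · have hs : sg r = b := by
      rw [e] at h
      simp only [List.mem_cons, List.not_mem_nil, or_false] at h
      rcases h with h | h
      · exact (tl_inj h).symm
      · exfalso
        rw [tq_eq] at h; omega
    exact ⟨r, by omega, hv, hs, Or.inl ⟨hr, by rw [e, hs]⟩⟩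
  · have hs : sg r = b := by
      rw [e] at h
      simp only [List.mem_cons, List.not_mem_nil, or_false] at h
      rcases h with h | h
      · exact (tl_inj h).symm
      · exfalso
        rw [td_eq] at h; omega
    exact ⟨r, by omega, hv, hs, Or.inr ⟨hr, by rw [e, hs]⟩⟩
  · rw [e] at h
    simp at h

theorem tq_mem {i r o : ℕ} (h : tq m r ∈ Xb m vi sg i o) (hr : r < 3 * m)
    (hi : i < 3 * m) (ho : o < bl m) : i = vi r ∧ (o = 3 * r + 1 ∨ o = 3 * r + 2) := by
  unfold bl at ho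
  rw [tq_eq] at h
  have h1 := tl_eq (m := m) i true
  have h2 := tl_eq (m := m) i false
  have h3 := tv_eq (m := m) i
  have h4 := tv_eq (m := m) (i + 1)
  rcases Xb_cases (m := m) (vi := vi) (sg := sg) i o with ⟨-, e⟩ | ⟨-, e⟩ | ⟨r', hr', hv, e⟩ |
    ⟨r', hr', hv, e⟩ | ⟨r', hr', hv, e⟩ | e <;> rw [e] at h <;>
    simp only [List.mem_cons, List.not_mem_nil, or_false] at h
  · omega
  · omega
  · rw [tc_eq, tq_eq] at h
    obtain rfl : r = r' := by omega
    exact ⟨hv.symm, Or.inl hr'.1⟩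
  · rw [tq_eq] at h
    have := tl_eq (m := m) i (sg r')
    obtain rfl : r = r' := by omega
    exact ⟨hv.symm, Or.inr hr'⟩
  · rw [td_eq] at h
    have := tl_eq (m := m) i (sg r')
    omega

theorem td_mem {i r o : ℕ} (h : td m r ∈ Xb m vi sg i o) (hr : r < 3 * m)
    (hi : i < 3 * m) (ho : o < bl m) : i = vi r ∧ o = 3 * r + 3 := by
  unfold bl at ho
  rw [td_eq] at h
  have h1 := tl_eq (m := m) i true
  have h2 := tl_eq (m := m) i false
  have h3 := tv_eq (m := m) i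
  have h4 := tv_eq (m := m) (i + 1)
  rcases Xb_cases (m := m) (vi := vi) (sg := sg) i o with ⟨-, e⟩ | ⟨-, e⟩ | ⟨r', hr', hv, e⟩ |
    ⟨r', hr', hv, e⟩ | ⟨r', hr', hv, e⟩ | e <;> rw [e] at h <;>
    simp only [List.mem_cons, List.not_mem_nil, or_false] at h
  · omega
  · omega
  · rw [tc_eq, tq_eq] at h
    omega
  · rw [tq_eq] at h
    have := tl_eq (m := m) i (sg r')
    omega
  · rw [td_eq] at h
    have := tl_eq (m := m) i (sg r')
    obtain rfl : r = r' := by omega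
    exact ⟨hv.symm, hr'⟩

theorem tc_mem {i j o : ℕ} (h : tc j ∈ Xb m vi sg i o) (hj : j < m)
    (hi : i < 3 * m) (ho : o < bl m) : ∃ r < 3 * m, r / 3 = j ∧ i = vi r ∧ o = 3 * r + 1 ∧
      Xb m vi sg i o = [tc j, tq m r] := by
  unfold bl at ho
  have h0 := tc_eq j
  have h1 := tl_eq (m := m) i true
  have h2 := tl_eq (m := m) i false
  have h3 := tv_eq (m := m) i
  have h4 := tv_eq (m := m) (i + 1)
  rcases Xb_cases (m := m) (vi := vi) (sg := sg) i o with ⟨-, e⟩ | ⟨-, e⟩ | ⟨r', hr', hv, e⟩ |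
    ⟨r', hr', hv, e⟩ | ⟨r', hr', hv, e⟩ | e <;> rw [e] at h <;>
    simp only [List.mem_cons, List.not_mem_nil, or_false] at h
  · omega
  · omega
  · rw [tc_eq, tc_eq, tq_eq] at h
    have hj' : r' / 3 = j := by omega
    exact ⟨r', by omega, hj', hv.symm, hr'.1, by rw [e, hj']⟩
  · rw [tq_eq] at h
    have := tl_eq (m := m) i (sg r')
    omega
  · rw [td_eq] at h
    have := tl_eq (m := m) i (sg r')
    omega

end

end Pool.Agent.NPC.R536UD
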