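import Pool.Agent.R536.UD.Route

/-!
# From routings to assignments of truth values
-/

set_option autoImplicit false

namespace Pool.Agent.NPC.R536UD

section

variable {m : ℕ} {vi : ℕ → ℕ} {sg : ℕ → Bool} {f : ℕ → ℕ → ℕ}

/-- Trajectories of tokens. -/
structure Traj (m : ℕ) (vi : ℕ → ℕ) (sg : ℕ → Bool) (f : ℕ → ℕ → ℕ) (κ : ℕ) (pos : ℕ → ℕ) :
    Prop where
  lt : ∀ k ≤ SS m, pos k < KK m
  col : ∀ k ≤ SS m, f k (pos k) = κ
  stay : ∀ k < SS m, pos k ∉ Xs m vi sg k → pos (k + 1) = pos k
  move : ∀ k < SS m, pos k ∈ Xs m vi sg k → pos (k + 1) ∈ Xs m vi sg k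

theorem exists_traj (R : Routing m vi sg f) {κ : ℕ} (hκ : κ < KK m) :
    ∃ pos, Traj m vi sg f κ pos := by
  have h : ∀ k, ∃ a, k ≤ SS m → a < KK m ∧ f k a = κ := by
    intro k
    by_cases hk : k ≤ SS m
    · obtain ⟨a, ha, e⟩ := surj_of_inj (R.lt k hk) (R.inj k hk) hκ
      exact ⟨a, fun _ => ⟨ha, e⟩⟩
    · exact ⟨0, fun h => absurd h hk⟩
  choose pos hpos using h
  refine ⟨pos, fun k hk => (hpos k hk).1, fun k hk => (hpos k hk).2, ?_, ?_⟩
  · intro k hk hX
    refine R.inj (k + 1) hk _ (hpos _ hk).1 _ (hpos k hk.le).1 ?_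
    rw [(hpos (k + 1) hk).2, R.keep k hk _ (hpos k hk.le).1 hX, (hpos k hk.le).2]
  · intro k hk hX
    by_contra hc
    have h1 := R.keep k hk _ (hpos (k + 1) hk).1 hc
    rw [(hpos (k + 1) hk).2, ← (hpos k hk.le).2] at h1
    have h2 := R.inj k hk.le _ (hpos k hk.le).1 _ (hpos (k + 1) hk).1 h1
    rw [h2] at hX
    exact hc hX

variable {κ : ℕ} {pos : ℕ → ℕ}

theorem Traj.stay_until (T : Traj m vi sg f κ pos) {x k k' : ℕ} (h : pos k = x) (hk : k ≤ k')
    (hk' : k' ≤ SS m) (hx : ∀ l, k ≤ l → l < k' → x ∉ Xs m vi sg l) : pos k' = x := by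
  induction k', hk using Nat.le_induction with
  | base => exact h
  | succ l hl ih =>
    have e := ih (by omega) (fun l' h1 h2 => hx l' h1 (by omega))
    rw [← e] at hx ⊢
    exact T.stay l (by omega) (hx l hl (by omega))

theorem dead_v {i k l : ℕ} (hi : i < 3 * m) (hk : i * bl m + 1 ≤ k) (hl : k ≤ l)
    (hl' : l < SS m) : tv m i ∉ Xs m vi sg l := by
  intro h
  have h0 := tv_eq (m := m) i
  rcases Xs_cases (vi := vi) (sg := sg) hl' with ⟨i', o, hi', ho, e, eX⟩ | ⟨j, hj, e, eX⟩
  · rw [eX] at h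
    rcases tv_mem h (by omega) hi' ho with ⟨rfl, h1⟩ | ⟨rfl, h1⟩
    · omega
    · rw [add_mul, one_mul] at hk
      unfold bl at *
      omega
  · rw [eX] at h
    simp only [List.mem_cons, List.not_mem_nil, or_false] at h
    simp only [td_eq] at h
    omega

theorem dead_q {r k l : ℕ} (hr : r < 3 * m) (hk : vi r * bl m + (3 * r + 3) ≤ k) (hl : k ≤ l)
    (hl' : l < SS m) : tq m r ∉ Xs m vi sg l := by
  intro h
  rcases Xs_cases (vi := vi) (sg := sg) hl' with ⟨i', o, hi', ho, e, eX⟩ | ⟨j, hj, e, eX⟩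
  · rw [eX] at h
    obtain ⟨rfl, h1⟩ := tq_mem h hr hi' ho
    omega
  · rw [eX] at h
    simp only [List.mem_cons, List.not_mem_nil, or_false] at h
    simp only [td_eq, tq_eq] at h
    omega

theorem dead_l {i k l : ℕ} {b : Bool} (hi : i < 3 * m) (hk : (i + 1) * bl m ≤ k) (hl : k ≤ l)
    (hl' : l < SS m) : tl m i b ∉ Xs m vi sg l := by
  intro h
  have h0 := tl_eq (m := m) i b
  rcases Xs_cases (vi := vi) (sg := sg) hl' with ⟨i', o, hi', ho, e, eX⟩ | ⟨j, hj, e, eX⟩
  · rw [eX] at h
    obtain rfl := tl_mem h hi hi' ho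
    rw [add_mul, one_mul] at hk
    omega
  · rw [eX] at h
    simp only [List.mem_cons, List.not_mem_nil, or_false] at h
    simp only [td_eq] at h
    omega

/-- A token on an exit track ends on an exit track. -/
theorem Traj.end_d (T : Traj m vi sg f κ pos) {r k : ℕ} (hr : r < 3 * m) (hvi : vi r < 3 * m)
    (h : pos k = td m r) (hk : vi r * bl m + (3 * r + 4) ≤ k) (hk' : k ≤ 3 * m * bl m) :
    ∃ r' < 3 * m, pos (SS m) = td m r' := by
  have h1 : pos (3 * m * bl m) = td m r := by
    refine T.stay_until h hk' (by unfold SS; omega) fun l hl hl' hX => ?_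
    rcases Xs_cases (vi := vi) (sg := sg) (show l < SS m by unfold SS; omega) with
      ⟨i', o, hi', ho, e, eX⟩ | ⟨j, hj, e, eX⟩
    · rw [eX] at hX
      obtain ⟨rfl, h1⟩ := td_mem hX hr hi' ho
      omega
    · omega
  have h2 : ∀ j ≤ m, ∃ r' < 3 * m, pos (3 * m * bl m + j) = td m r' := by
    intro j
    induction j with
    | zero => intro _; exact ⟨r, hr, h1⟩
    | succ j ih =>
      intro hj
      obtain ⟨r', hr', e⟩ := ih (by omega)
      have hlt : 3 * m * bl m + j < SS m := by unfold SS; omega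
      by_cases hX : pos (3 * m * bl m + j) ∈ Xs m vi sg (3 * m * bl m + j)
      · have := T.move _ hlt hX
        rcases Xs_cases (vi := vi) (sg := sg) hlt with ⟨i', o, hi', ho, e', eX⟩ | ⟨j', hj', e', eX⟩
        · exfalso
          have : i' * bl m + o < 3 * m * bl m := by
            calc i' * bl m + o < i' * bl m + bl m := by omega
              _ = (i' + 1) * bl m := by ring
              _ ≤ 3 * m * bl m := Nat.mul_le_mul_right _ hi'
          omega
        · rw [eX] at this
          simp only [List.mem_cons, List.not_mem_nil, or_false] at this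
          rw [← add_assoc]
          rcases this with h | h | h
          · exact ⟨_, by omega, h⟩
          · exact ⟨_, by omega, h⟩
          · exact ⟨_, by omega, h⟩
      · refine ⟨r', hr', ?_⟩
        rw [← add_assoc, T.stay _ hlt hX, e]
  exact h2 m le_rfl

theorem Traj.dead (T : Traj m vi sg f κ pos) {x k : ℕ} (h : pos k = x) (hk : k ≤ SS m)
    (hx : ∀ l, k ≤ l → l < SS m → x ∉ Xs m vi sg l) : pos (SS m) = x :=
  T.stay_until h hk le_rfl hx

theorem mul_lt {i o : ℕ} (hi : i < 3 * m) (ho : o ≤ bl m) : i * bl m + o ≤ 3 * m * bl m := by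
  calc i * bl m + o ≤ i * bl m + bl m := by omega
    _ = (i + 1) * bl m := by ring
    _ ≤ 3 * m * bl m := Nat.mul_le_mul_right _ hi

/-- The way of the variable token through a lobe. -/
theorem Traj.lobe (T : Traj m vi sg f κ pos)
    (hend : pos (SS m) = tv m (3 * m)) {i : ℕ} (hi : i < 3 * m) (h : pos (i * bl m) = tv m i) :
    (∃ b, ∀ o, 1 ≤ o → o ≤ 9 * m + 1 → pos (i * bl m + o) = tl m i b) ∧
      pos ((i + 1) * bl m) = tv m (i + 1) := by
  have hv0 := tv_eq (m := m) (3 * m)
  have hSS : 3 * m * bl m ≤ SS m := by unfold SS; omega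
  have hbl : bl m = 9 * m + 2 := rfl
  have s1 : ∃ b, pos (i * bl m + 1) = tl m i b := by
    have h1 := mul_lt (m := m) hi (o := 1) (by omega)
    have h2 := Xs_of (m := m) (vi := vi) (sg := sg) hi (o := 0) (by omega)
    have hX : pos (i * bl m) ∈ Xs m vi sg (i * bl m) := by
      rw [h, ← Nat.add_zero (i * bl m), h2]
      unfold Xb
      simp
    have h3 := T.move _ (by omega) hX
    rw [← Nat.add_zero (i * bl m), h2] at h3
    unfold Xb at h3
    simp only [if_true, List.mem_cons, List.not_mem_nil, or_false, Nat.add_zero] at h3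
    rcases h3 with h3 | h3 | h3
    · exfalso
      have h4 := T.dead h3 (by omega) (fun l hl hl' => dead_v hi le_rfl hl hl')
      rw [hend] at h4
      have := tv_eq (m := m) i
      omega
    · exact ⟨_, h3⟩
    · exact ⟨_, h3⟩
  obtain ⟨b, hb⟩ := s1
  have s2 : ∀ o, 1 ≤ o → o ≤ 9 * m + 1 → pos (i * bl m + o) = tl m i b := by
    intro o ho
    induction o, ho using Nat.le_induction with
    | base => intro _; exact hb
    | succ o ho ih =>
      intro ho'
      have e := ih (by omega)
      have h1 := mul_lt (m := m) hi (o := o + 1) (by omega)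
      by_cases hX : pos (i * bl m + o) ∈ Xs m vi sg (i * bl m + o)
      · have h3 := T.move _ (by omega) hX
        rw [Xs_of hi (by omega)] at hX h3
        rw [e] at hX
        obtain ⟨r, hr, rfl, -, h4⟩ := tl_mem' hX hi (by omega) (by omega) (by omega)
        rcases h4 with ⟨rfl, h4⟩ | ⟨rfl, h4⟩
        · rw [h4] at h3
          simp only [List.mem_cons, List.not_mem_nil, or_false] at h3
          rcases h3 with h3 | h3
          · exact h3
          · exfalso
            have h5 := T.dead h3 (by omega) (fun l hl hl' => dead_q hr (by omega) hl hl')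
            rw [hend, tq_eq] at h5
            omega
        · rw [h4] at h3
          simp only [List.mem_cons, List.not_mem_nil, or_false] at h3
          rcases h3 with h3 | h3
          · exact h3
          · exfalso
            obtain ⟨r', hr', h5⟩ := T.end_d hr hi h3 (by omega) (by omega)
            rw [hend, td_eq] at h5
            omega
      · rw [← add_assoc, T.stay _ (by omega) hX, e]
  refine ⟨⟨b, s2⟩, ?_⟩
  have e := s2 (9 * m + 1) (by omega) le_rfl
  have h1 := mul_lt (m := m) hi (o := bl m) le_rfl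
  have h2 := Xs_of (m := m) (vi := vi) (sg := sg) hi (o := 9 * m + 1) (by omega)
  have hX : pos (i * bl m + (9 * m + 1)) ∈ Xs m vi sg (i * bl m + (9 * m + 1)) := by
    rw [e, h2]
    unfold Xb
    cases b <;> simp
  have h3 := T.move _ (by omega) hX
  rw [h2] at h3
  have e4 : i * bl m + (9 * m + 1) + 1 = (i + 1) * bl m := by
    rw [add_mul, one_mul]; omega
  rw [e4] at h3
  unfold Xb at h3
  rw [if_neg (by omega), if_pos rfl] at h3
  simp only [List.mem_cons, List.not_mem_nil, or_false] at h3
  have hle : (i + 1) * bl m ≤ SS m := by rw [add_mul, one_mul]; omega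
  rcases h3 with h3 | h3 | h3
  · exfalso
    have h4 := T.dead h3 hle (fun l hl hl' => dead_l hi le_rfl hl hl')
    rw [hend] at h4
    have := tl_eq (m := m) i true
    omega
  · exfalso
    have h4 := T.dead h3 hle (fun l hl hl' => dead_l hi le_rfl hl hl')
    rw [hend] at h4
    have := tl_eq (m := m) i false
    omega
  · exact h3

theorem z1_notMem {k : ℕ} (hk : k < SS m) : 1 ∉ Xs m vi sg k := by
  intro h
  rcases Xs_cases (vi := vi) (sg := sg) hk with ⟨i, o, hi, ho, e, eX⟩ | ⟨j, hj, e, eX⟩
  · rw [eX] at h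
    have h1 := tl_eq (m := m) i true
    have h2 := tl_eq (m := m) i false
    have h3 := tv_eq (m := m) i
    have h4 := tv_eq (m := m) (i + 1)
    rcases Xb_cases (m := m) (vi := vi) (sg := sg) i o with ⟨hz, e⟩ | ⟨hz, e⟩ | ⟨r', hr', hv, e⟩ |
      ⟨r', hr', hv, e⟩ | ⟨r', hr', hv, e⟩ | e <;> rw [e] at h <;>
      simp only [List.mem_cons, List.not_mem_nil, or_false] at h
    · omega
    · omega
    · rw [tc_eq, tq_eq] at h; omega
    · rw [tq_eq] at h
      have := tl_eq (m := m) i (sg r')
      omega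
    · rw [td_eq] at h
      have := tl_eq (m := m) i (sg r')
      omega
  · rw [eX] at h
    simp only [List.mem_cons, List.not_mem_nil, or_false] at h
    simp only [td_eq] at h
    omega

theorem mem_Aend {a : ℕ} : a ∈ Aend m ↔ a = tv m (3 * m) ∨ a = 1 ∨ ∃ j < m, a = td m (3 * j) := by
  unfold Aend
  simp only [List.cons_append, List.nil_append, List.mem_cons, List.mem_map, List.mem_range]
  constructor
  · rintro (h | h | ⟨j, hj, rfl⟩)
    · exact Or.inl h
    · exact Or.inr (Or.inl h)
    · exact Or.inr (Or.inr ⟨j, hj, rfl⟩)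
  · rintro (h | h | ⟨j, hj, rfl⟩)
    · exact Or.inl h
    · exact Or.inr (Or.inl h)
    · exact Or.inr (Or.inr ⟨j, hj, rfl⟩)

theorem nodup_Aend : (Aend m).Nodup := by
  have h0 := tv_eq (m := m) (3 * m)
  unfold Aend
  simp only [List.cons_append, List.nil_append, List.nodup_cons, List.mem_cons, List.mem_map,
    List.mem_range, not_or, not_exists, not_and]
  refine ⟨⟨by omega, fun j hj => ?_⟩, fun j hj => ?_, ?_⟩
  · rw [td_eq]; omega
  · rw [td_eq]; omega
  · refine List.nodup_range.map fun x y e => ?_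
    simp only [td_eq] at e
    omega

theorem length_Aend : (Aend m).length = m + 2 := by
  unfold Aend
  simp

/-- From routings to assignments. -/
theorem sat_of_routing (hvi : ∀ r < 3 * m, vi r < 3 * m) (R : Routing m vi sg f) :
    ∃ τ : ℕ → Bool, ∀ j < m, ∃ r < 3 * m, r / 3 = j ∧ τ (vi r) = sg r := by
  rcases Nat.eq_zero_or_pos m with hm | hm
  · subst hm
    exact ⟨fun _ => true, fun j hj => absurd hj (by omega)⟩
  have hbl : bl m = 9 * m + 2 := rfl
  have hSS : 3 * m * bl m ≤ SS m := by unfold SS; omega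
  have hKK : KK m = 16 * m + 8 := rfl
  obtain ⟨pos, T⟩ := exists_traj R (κ := 0) (by unfold KK; omega)
  have hv0 := tv_eq (m := m) 0
  have hvN := tv_eq (m := m) (3 * m)
  have p0 : pos 0 = tv m 0 := R.inj 0 (Nat.zero_le _) _ (T.lt 0 (Nat.zero_le _)) _ (by omega)
    (by rw [T.col 0 (Nat.zero_le _), R.startV])
  have pe : pos (SS m) = tv m (3 * m) := R.inj _ le_rfl _ (T.lt _ le_rfl) _ (by omega)
    (by rw [T.col _ le_rfl, R.endV])
  have pv : ∀ i ≤ 3 * m, pos (i * bl m) = tv m i := by
    intro i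
    induction i with
    | zero => intro _; rw [zero_mul]; exact p0
    | succ i ih => intro hi; exact (T.lobe pe (by omega) (ih (by omega))).2
  have pb : ∀ i, ∃ b, i < 3 * m → ∀ o, 1 ≤ o → o ≤ 9 * m + 1 → pos (i * bl m + o) = tl m i b := by
    intro i
    by_cases hi : i < 3 * m
    · obtain ⟨b, hb⟩ := (T.lobe pe hi (pv i hi.le)).1
      exact ⟨b, fun _ => hb⟩
    · exact ⟨true, fun h => absurd h hi⟩
  choose b hb using pb
  refine ⟨fun i => !(b i), fun j hj => ?_⟩
  -- the token of the clause
  have hcj : tc j ∈ Ast m := by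
    unfold Ast
    simp only [List.cons_append, List.nil_append, List.mem_cons, List.mem_map, List.mem_range]
    exact Or.inr (Or.inr ⟨j, hj, rfl⟩)
  have hκ := R.start _ hcj
  have hcK : tc j < KK m := by rw [tc_eq]; omega
  obtain ⟨ps, U⟩ := exists_traj R (κ := f 0 (tc j)) (by omega)
  have hκ0 : f 0 (tc j) ≠ 0 := by
    intro e
    have := R.inj 0 (Nat.zero_le _) _ hcK _ (show tv m 0 < KK m by omega) (by rw [e, R.startV])
    rw [tc_eq] at this
    omega
  have q0 : ps 0 = tc j := R.inj 0 (Nat.zero_le _) _ (U.lt 0 (Nat.zero_le _)) _ hcK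
    (U.col 0 (Nat.zero_le _))
  have hne : ∀ k ≤ SS m, ps k ≠ pos k := by
    intro k hk e
    have h1 := U.col k hk
    rw [e, T.col k hk] at h1
    exact hκ0 h1.symm
  have f1 : ∀ k ≤ SS m, f k 1 = f 0 1 := by
    intro k
    induction k with
    | zero => intro _; rfl
    | succ k ih =>
      intro hk
      rw [R.keep k (by omega) 1 (by omega) (z1_notMem (by omega)), ih (by omega)]
  -- its final position
  have qe : ∃ j' < m, ps (SS m) = td m (3 * j') := by
    have hsurj : ∃ a ∈ (Aend m).toFinset, f (SS m) a = f 0 (tc j) := by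
      have hAK : ∀ a ∈ Aend m, a < KK m := by
        intro a ha
        rcases mem_Aend.1 ha with rfl | rfl | ⟨j', hj', rfl⟩
        · omega
        · omega
        · rw [td_eq]; omega
      have him : (Aend m).toFinset.image (f (SS m)) = Finset.range (m + 2) := by
        apply Finset.eq_of_subset_of_card_le
        · intro x hx
          rw [Finset.mem_image] at hx
          obtain ⟨a, ha, rfl⟩ := hx
          exact Finset.mem_range.2 (R.last a (List.mem_toFinset.1 ha))
        · rw [Finset.card_image_of_injOn fun x hx y hy e => R.inj _ le_rfl x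
            (hAK x (List.mem_toFinset.1 hx)) y (hAK y (List.mem_toFinset.1 hy)) e,
            List.toFinset_card_of_nodup nodup_Aend, length_Aend, Finset.card_range]
      have : f 0 (tc j) ∈ (Aend m).toFinset.image (f (SS m)) := by
        rw [him]; exact Finset.mem_range.2 hκ
      rw [Finset.mem_image] at this
      exact this
    obtain ⟨a, ha, e⟩ := hsurj
    rw [List.mem_toFinset] at ha
    have hps : ps (SS m) = a := by
      refine R.inj _ le_rfl _ (U.lt _ le_rfl) _ ?_ (by rw [U.col _ le_rfl, e])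
      rcases mem_Aend.1 ha with rfl | rfl | ⟨j', hj', rfl⟩
      · omega
      · omega
      · rw [td_eq]; omega
    rcases mem_Aend.1 ha with rfl | rfl | ⟨j', hj', rfl⟩
    · exact absurd (e.symm.trans R.endV) hκ0
    · rw [f1 _ le_rfl] at e
      have := R.inj 0 (Nat.zero_le _) _ (show 1 < KK m by omega) _ hcK e
      rw [tc_eq] at this
      omega
    · exact ⟨j', hj', hps⟩
  obtain ⟨j', hj', qe⟩ := qe
  -- it leaves the track of the clause
  have hex : ∃ k, k ≤ SS m ∧ ps k ≠ tc j := ⟨SS m, le_rfl, by rw [qe, td_eq, tc_eq]; omega⟩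
  classical
  have hk1 := Nat.find_spec hex
  have hkmin := fun l => Nat.find_min hex (m := l)
  obtain ⟨k, hk⟩ : ∃ k, Nat.find hex = k + 1 := by
    refine Nat.exists_eq_succ_of_ne_zero fun h0 => ?_
    rw [h0] at hk1
    exact hk1.2 q0
  rw [hk] at hk1 hkmin
  have hpk : ps k = tc j := by
    by_contra hc
    exact hkmin k (by omega) ⟨by omega, hc⟩
  have hX : ps k ∈ Xs m vi sg k := by
    by_contra hc
    exact hk1.2 ((U.stay k (by omega) hc).trans hpk)
  have hm1 := U.move k (by omega) hX
  rcases Xs_cases (vi := vi) (sg := sg) (show k < SS m by omega) with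
    ⟨i, o, hi, ho, e, eX⟩ | ⟨j'', hj'', e, eX⟩
  · rw [eX, hpk] at hX
    obtain ⟨r, hr, hrj, rfl, rfl, eX'⟩ := tc_mem hX hj hi ho
    rw [eX, eX'] at hm1
    simp only [List.mem_cons, List.not_mem_nil, or_false] at hm1
    rcases hm1 with hm1 | hm1
    · exact absurd hm1 hk1.2
    have hle := mul_lt (m := m) hi (o := 3 * r + 3) (by omega)
    have ek : k + 1 = vi r * bl m + (3 * r + 2) := by omega
    rw [ek] at hm1
    have eX2 : Xs m vi sg (vi r * bl m + (3 * r + 2)) = [tl m (vi r) (sg r), tq m r] := by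
      rw [Xs_of hi (by omega)]
      unfold Xb
      rw [if_neg (by omega), if_neg (by omega), show (3 * r + 2 - 1) / 3 = r by omega, if_pos rfl,
        if_neg (by omega), if_pos (by omega)]
    have hm2 := U.move (vi r * bl m + (3 * r + 2)) (by omega) (by rw [eX2, hm1]; simp)
    rw [eX2] at hm2
    simp only [List.mem_cons, List.not_mem_nil, or_false] at hm2
    rcases hm2 with hm2 | hm2
    · have h5 := hb (vi r) hi (3 * r + 3) (by omega) (by omega)
      have h6 := hne (vi r * bl m + (3 * r + 2) + 1) (by omega)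
      rw [hm2, show vi r * bl m + (3 * r + 2) + 1 = vi r * bl m + (3 * r + 3) by ring, h5] at h6
      refine ⟨r, hr, hrj, ?_⟩
      show (!(b (vi r))) = sg r
      cases hbv : b (vi r) <;> cases hsr : sg r <;> rw [hbv, hsr] at h6 <;> simp at h6 ⊢
    · exfalso
      have h5 := U.dead hm2 (by omega) (fun l hl hl' => dead_q hr (by omega) hl hl')
      rw [qe, td_eq, tq_eq] at h5
      omega
  · exfalso
    rw [eX, hpk] at hX
    simp only [List.mem_cons, List.not_mem_nil, or_false] at hX
    simp only [td_eq, tc_eq] at hX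
    omega

end

end Pool.Agent.NPC.R536UD
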