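import Pool.Agent.R536.UD.Frame

/-!
# From cheap solutions to arrangements
-/

set_option autoImplicit false

namespace Pool.Agent.NPC.R536UD

open Pool.Agent.NPC.R536CS

/-! ### Counting lemmas -/

theorem exists_big {A : Finset ℕ} (hA : A.Nonempty) {f : ℕ → ℕ}
    (hf : ∀ a ∈ A, ∀ b ∈ A, a ≠ b → f a ≠ f b) :
    ∃ a ∈ A, A.card ≤ f a + 1 ∧ ∀ b ∈ A, f b ≤ f a := by
  obtain ⟨a, ha, h⟩ := Finset.exists_max_image A f hA
  refine ⟨a, ha, ?_, h⟩
  have h1 : (A.image f).card = A.card := Finset.card_image_of_injOn fun x hx y hy e => by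
    by_contra hne
    exact hf x hx y hy hne e
  rw [← h1]
  have h2 : A.image f ⊆ Finset.range (f a + 1) := by
    intro x hx
    rw [Finset.mem_image] at hx
    obtain ⟨b, hb, rfl⟩ := hx
    exact Finset.mem_range.2 (Nat.lt_succ_of_le (h b hb))
  exact (Finset.card_le_card h2).trans (by rw [Finset.card_range])

theorem surj_of_inj {K : ℕ} {f : ℕ → ℕ} (h1 : ∀ a < K, f a < K)
    (h2 : ∀ a < K, ∀ b < K, f a = f b → a = b) {y : ℕ} (hy : y < K) : ∃ a < K, f a = y := by
  have h3 : (Finset.range K).image f = Finset.range K := by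
    apply Finset.eq_of_subset_of_card_le
    · intro x hx
      rw [Finset.mem_image] at hx
      obtain ⟨a, ha, rfl⟩ := hx
      exact Finset.mem_range.2 (h1 a (Finset.mem_range.1 ha))
    · rw [Finset.card_image_of_injOn fun x hx y hy e => h2 x (by simpa using hx) y
        (by simpa using hy) e]
  have h4 : y ∈ (Finset.range K).image f := by rw [h3]; exact Finset.mem_range.2 hy
  rw [Finset.mem_image] at h4
  obtain ⟨a, ha, e⟩ := h4
  exact ⟨a, Finset.mem_range.1 ha, e⟩

theorem agree {K : ℕ} {f h : ℕ → ℕ} {A : ℕ → Prop} (f1 : ∀ a < K, f a < K)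
    (f2 : ∀ a < K, ∀ b < K, f a = f b → a = b) (h1 : ∀ a < K, h a < K)
    (h2 : ∀ a < K, ∀ b < K, h a = h b → a = b) (hA : ∀ a < K, ¬ A a → h a = f a) {a : ℕ}
    (ha : a < K) (haA : A a) : ∃ b < K, A b ∧ h a = f b := by
  obtain ⟨b, hb, e⟩ := surj_of_inj f1 f2 (h1 a ha)
  refine ⟨b, hb, ?_, e.symm⟩
  by_contra hc
  rw [← hA b hb hc] at e
  exact hc ((h2 b hb a ha e) ▸ haA)

namespace Par

variable (P : Par)

open Classical in
/-- The members of `D` near the era `g`. -/
noncomputable def B (D : Finset ℕ) (g : ℕ) : Finset ℕ :=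
  D.filter (fun d => ∃ g' s a, g' ≤ g + 1 ∧ g ≤ g' + 1 ∧ s < P.K + 4 ∧ a < P.K ∧
    d = P.N g' s a)

/-- The weight of `D` near the era `g`. -/
noncomputable def wt (c : ℕ → ℕ) (D : Finset ℕ) (g : ℕ) : ℕ := ∑ d ∈ P.B D g, c d

variable {P} {c : ℕ → ℕ} {D : Finset ℕ}

theorem mem_B {g d : ℕ} : d ∈ P.B D g ↔ d ∈ D ∧ ∃ g' s a, g' ≤ g + 1 ∧ g ≤ g' + 1 ∧
    s < P.K + 4 ∧ a < P.K ∧ d = P.N g' s a := by
  simp only [B, Finset.mem_filter]

theorem B_disj {g g' d : ℕ} (h : d ∈ P.B D g) (h' : d ∈ P.B D g') : g ≤ g' + 3 := by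
  obtain ⟨-, g₁, s₁, a₁, h1, h2, h3, h4, rfl⟩ := mem_B.1 h
  obtain ⟨-, g₂, s₂, a₂, h5, h6, h7, h8, e⟩ := mem_B.1 h'
  have := N_era h4 h3 h7 e
  omega

theorem le_wt {g d : ℕ} (h : d ∈ P.B D g) : c d ≤ P.wt c D g :=
  Finset.single_le_sum (fun _ _ => Nat.zero_le _) h

theorem two_le_wt {g d d' : ℕ} (h : d ∈ P.B D g) (h' : d' ∈ P.B D g) (hne : d ≠ d') :
    c d + c d' ≤ P.wt c D g := by
  unfold wt
  rw [← Finset.sum_pair hne]
  refine Finset.sum_le_sum_of_subset ?_
  intro x hx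
  rw [Finset.mem_insert, Finset.mem_singleton] at hx
  rcases hx with rfl | rfl
  · exact h
  · exact h'

theorem three_le_wt {g d d' d'' : ℕ} (h : d ∈ P.B D g) (h' : d' ∈ P.B D g) (h'' : d'' ∈ P.B D g)
    (hne : d ≠ d') (hne' : d ≠ d'') (hne'' : d' ≠ d'') :
    c d + c d' + c d'' ≤ P.wt c D g := by
  unfold wt
  have : c d + c d' + c d'' = ∑ x ∈ {d, d', d''}, c x := by
    rw [Finset.sum_insert (by simp [hne, hne']), Finset.sum_pair hne'']
    ring
  rw [this]
  refine Finset.sum_le_sum_of_subset ?_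
  intro x hx
  simp only [Finset.mem_insert, Finset.mem_singleton] at hx
  rcases hx with rfl | rfl | rfl
  · exact h
  · exact h'
  · exact h''

/-! ### Windows -/

section Win

variable (h : Sol P.gr c D)

include h

theorem inj_tok {g s a b : ℕ} (hg : g < P.M) (hs : s < P.K + 4) (ha : a ∈ P.al g s)
    (hb : b ∈ P.al g s) (hab : a ≠ b) : c (P.N g s a) ≠ c (P.N g s b) :=
  h.col _ _ (adj_gr.2 ⟨g, s, a, b, hg, hs, ha, hb, hab, rfl, rfl⟩)

/-- A window: if the separator is not an expensive member of `D` then some token near the window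
is. -/
theorem window {g : ℕ} (hK : 0 < P.K) (hg : g < P.M)
    (hn : ∀ g', g' ≤ g + 1 → g ≤ g' + 1 → P.ck g' = false ∧ P.ei g' = P.ei g)
    (hE : ¬ (P.E (P.ei g) ∈ D ∧ P.K ≤ c (P.E (P.ei g)))) : P.K ≤ P.wt c D g + 1 := by
  have hKal : P.K ∈ P.al g 0 := K_mem_al (by omega)
  -- a token of large color which is not dominated by the separator gives what we want
  have key : ∀ a < P.K, P.K ≤ c (P.N g 0 a) + 1 →
      (∀ e, P.E e ∈ D → c (P.N g 0 a) < c (P.E e) → e ≠ P.ei g) → P.K ≤ P.wt c D g + 1 := by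
    intro a ha hc hd
    by_cases hD : P.N g 0 a ∈ D
    · have : P.N g 0 a ∈ P.B D g := mem_B.2 ⟨hD, g, 0, a, by omega, by omega, by omega, ha, rfl⟩
      have := le_wt (c := c) this
      omega
    · obtain ⟨d, hdD, hadj, hlt⟩ := h.dom _ (mem_gr.2 ⟨g, 0, a, hg, by omega, mem_al_of_lt ha, rfl⟩)
        hD
      obtain ⟨g', s', a', b, hg', hs', ha', hb, hab, e1, rfl⟩ := adj_gr.1 hadj
      obtain ⟨rfl, -⟩ := N_inj.1 e1
      obtain ⟨h5, h6⟩ := N_era ha (by omega) hs' e1
      rcases mem_al.1 hb with hb' | ⟨rfl, hb'⟩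
      · have : P.N g' s' b ∈ P.B D g := mem_B.2 ⟨hdD, g', s', b, by omega, by omega, hs', hb', rfl⟩
        have := le_wt (c := c) this
        omega
      · exfalso
        rw [N_K hb] at hdD hlt
        exact hd _ hdD hlt (hn g' (by omega) (by omega)).2
  by_cases hED : P.E (P.ei g) ∈ D
  · -- the color of the separator is small
    have hEc : c (P.E (P.ei g)) < P.K := by
      by_contra hc
      exact hE ⟨hED, by omega⟩
    obtain ⟨a, ha, hc, -⟩ := exists_big (A := Finset.range (P.K + 1)) ⟨0, by simp⟩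
      (f := fun a => c (P.N g 0 a)) (by
        intro a ha b hb hab
        refine inj_tok h hg (by omega) ?_ ?_ hab
        · rw [mem_al]
          have := Finset.mem_range.1 ha
          omega
        · rw [mem_al]
          have := Finset.mem_range.1 hb
          omega)
    rw [Finset.card_range] at hc
    have haK : a < P.K := by
      have h1 := Finset.mem_range.1 ha
      rcases Nat.lt_or_ge a P.K with h2 | h2
      · exact h2
      · exfalso
        obtain rfl : a = P.K := by omega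
        rw [N_K hKal] at hc
        omega
    refine key a haK (by omega) ?_
    rintro e - hlt rfl
    omega
  · obtain ⟨a, ha, hc, -⟩ := exists_big (A := Finset.range P.K) ⟨0, by simpa using hK⟩
      (f := fun a => c (P.N g 0 a)) (by
        intro a ha b hb hab
        exact inj_tok h hg (by omega) (mem_al_of_lt (Finset.mem_range.1 ha))
          (mem_al_of_lt (Finset.mem_range.1 hb)) hab)
    rw [Finset.card_range] at hc
    refine key a (Finset.mem_range.1 ha) hc ?_
    rintro e he - rfl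
    exact hED he

/-! ### Checks -/

theorem piece_dom {g s a : ℕ} (hg : g < P.M) (hc : P.ck g = true) (ha : a ∈ P.X (g + 1))
    (haK : a < P.K) (hs : P.K < s) (hs' : s < P.K + 4) (hD : P.N g s a ∉ D) :
    ∃ b < P.K, P.N g s b ∈ D ∧ c (P.N g s a) < c (P.N g s b) := by
  obtain ⟨d, hdD, hadj, hlt⟩ := h.dom _ (mem_gr.2 ⟨g, s, a, hg, by omega, mem_al_of_lt haK, rfl⟩)
    hD
  obtain ⟨g', s', a', b, hg', hs'', ha', hb, hab, e1, rfl⟩ := adj_gr.1 hadj
  obtain ⟨rfl, rfl, rfl⟩ := N_piece haK ha hs hs' hs'' e1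
  rcases mem_al.1 hb with hb' | ⟨rfl, hb'⟩
  · exact ⟨b, hb', hdD, hlt⟩
  · exact absurd ⟨hc, hs⟩ hb'

theorem check {g : ℕ} (hg : g < P.M) (hc : P.ck g = true) (hne : P.X (g + 1) ≠ [])
    (hnd : (P.X (g + 1)).Nodup) (hXK : ∀ a ∈ P.X (g + 1), a < P.K) :
    (P.X (g + 1)).length ≤ P.wt c D g ∧ (P.wt c D g ≤ (P.X (g + 1)).length →
      ∀ a ∈ P.X (g + 1), c (P.N g (P.K + 1) a) < (P.X (g + 1)).length) := by
  have hcard : (P.X (g + 1)).toFinset.card = (P.X (g + 1)).length :=
    List.toFinset_card_of_nodup hnd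
  have hne' : (P.X (g + 1)).toFinset.Nonempty := by
    obtain ⟨x, hx⟩ := List.exists_mem_of_ne_nil _ hne
    exact ⟨x, List.mem_toFinset.2 hx⟩
  have hb1 : 1 ≤ (P.X (g + 1)).length := by
    rw [← hcard]; exact Finset.card_pos.2 hne'
  have inB : ∀ s b, s < P.K + 4 → b < P.K → P.N g s b ∈ D → P.N g s b ∈ P.B D g :=
    fun s b hs hb hD => mem_B.2 ⟨hD, g, s, b, by omega, by omega, hs, hb, rfl⟩
  have top : ∀ s, s < P.K + 4 → ∃ w ∈ P.X (g + 1), (P.X (g + 1)).length ≤ c (P.N g s w) + 1 ∧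
      ∀ b ∈ P.X (g + 1), c (P.N g s b) ≤ c (P.N g s w) := by
    intro s hs
    obtain ⟨w, hw, h1, h2⟩ := exists_big hne' (f := fun a => c (P.N g s a)) (by
      intro a ha b hb hab
      exact inj_tok h hg hs (mem_al_of_lt (hXK _ (List.mem_toFinset.1 ha)))
        (mem_al_of_lt (hXK _ (List.mem_toFinset.1 hb))) hab)
    rw [hcard] at h1
    exact ⟨w, List.mem_toFinset.1 hw, h1, fun b hb => h2 b (List.mem_toFinset.2 hb)⟩
  by_cases hcase : ∃ s, P.K < s ∧ s < P.K + 4 ∧ ∃ w ∈ P.X (g + 1),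
      (P.X (g + 1)).length ≤ c (P.N g s w) + 1 ∧
      (∀ b ∈ P.X (g + 1), c (P.N g s b) ≤ c (P.N g s w)) ∧ P.N g s w ∉ D
  · obtain ⟨s, hs, hs', w, hw, h1, h2, hD⟩ := hcase
    obtain ⟨b, hb, hbD, hlt⟩ := piece_dom h hg hc hw (hXK w hw) hs hs' hD
    have hbB := inB s b hs' hb hbD
    have hle := le_wt (c := c) hbB
    have hbX : b ∉ P.X (g + 1) := fun hbX => by
      have := h2 b hbX
      omega
    refine ⟨by omega, fun hwt a ha => ?_⟩
    have haK := hXK a ha
    have uniq : ∀ d ∈ P.B D g, d = P.N g s b := by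
      intro d hd
      by_contra hne
      have h3 := two_le_wt (c := c) hd hbB hne
      have h4 := h.pos d (mem_B.1 hd).1
      omega
    have haD : P.N g (P.K + 1) a ∉ D := by
      intro haD
      have := uniq _ (inB _ _ (by omega) haK haD)
      have := (N_inj.1 this).1
      subst this
      exact hbX ha
    obtain ⟨b', hb', hbD', hlt'⟩ := piece_dom h hg hc ha haK (by omega) (by omega) haD
    rw [uniq _ (inB _ _ (by omega) hb' hbD')] at hlt'
    omega
  · push Not at hcase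
    have hD : ∀ s, P.K < s → s < P.K + 4 → ∃ w ∈ P.X (g + 1),
        (P.X (g + 1)).length ≤ c (P.N g s w) + 1 ∧ P.N g s w ∈ D := by
      intro s hs hs'
      obtain ⟨w, hw, h1, h2⟩ := top s hs'
      exact ⟨w, hw, h1, hcase s hs hs' w hw h1 h2⟩
    obtain ⟨w₁, hw₁, h1, hD1⟩ := hD (P.K + 1) (by omega) (by omega)
    obtain ⟨w₂, hw₂, h2, hD2⟩ := hD (P.K + 2) (by omega) (by omega)
    obtain ⟨w₃, hw₃, h3, hD3⟩ := hD (P.K + 3) (by omega) (by omega)
    have p1 := h.pos _ hD1
    have p2 := h.pos _ hD2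
    have p3 := h.pos _ hD3
    have h4 := three_le_wt (c := c) (inB (P.K + 1) w₁ (by omega) (hXK _ hw₁) hD1)
      (inB (P.K + 2) w₂ (by omega) (hXK _ hw₂) hD2) (inB (P.K + 3) w₃ (by omega) (hXK _ hw₃) hD3)
      (fun e => by
        have := N_piece (hXK _ hw₁) hw₁ (by omega) (by omega) (by omega) e
        omega)
      (fun e => by
        have := N_piece (hXK _ hw₁) hw₁ (by omega) (by omega) (by omega) e
        omega)
      (fun e => by
        have := N_piece (hXK _ hw₂) hw₂ (by omega) (by omega) (by omega) e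
        omega)
    exact ⟨by omega, fun _ => by omega⟩

end Win

end Par

end Pool.Agent.NPC.R536UD
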