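import Pool.Agent.R536.UD.Sound

/-!
# From cheap solutions to arrangements: the colors of the tokens
-/

set_option autoImplicit false

namespace Pool.Agent.NPC.R536UD

open Pool.Agent.NPC.R536CS

namespace Par

variable {P : Par} {c : ℕ → ℕ} {D : Finset ℕ}

/-- The conditions on the parameters: `C` is the set of eras with checks, there are `q` separators,
and for each of them there are eight windows. Checks and windows are far from each other. -/
structure Good (P : Par) (C : Finset ℕ) (q : ℕ) (Wn : ℕ → Finset ℕ) : Prop where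
  K_pos : 0 < P.K
  mem_C : ∀ g, g ∈ C ↔ P.ck g = true
  C_lt : ∀ g ∈ C, g < P.M
  ne_nil : ∀ g ∈ C, P.X (g + 1) ≠ []
  nodup : ∀ g ∈ C, (P.X (g + 1)).Nodup
  len_lt : ∀ g ∈ C, (P.X (g + 1)).length < P.K
  X_lt : ∀ g, ∀ a ∈ P.X g, a < P.K
  ei_lt : ∀ g < P.M, P.ei g < q
  W_lt : ∀ e < q, ∀ g ∈ Wn e, g < P.M
  W_ei : ∀ e < q, ∀ g ∈ Wn e, P.ei g = e
  W_card : ∀ e < q, (Wn e).card = 8
  W_ck : ∀ e < q, ∀ g ∈ Wn e, ∀ g' ∈ C, g + 2 ≤ g' ∨ g' + 2 ≤ g
  W_sp : ∀ e < q, ∀ g ∈ Wn e, ∀ g' ∈ Wn e, g ≠ g' → g + 4 ≤ g' ∨ g' + 4 ≤ g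
  C_sp : ∀ g ∈ C, ∀ g' ∈ C, g ≠ g' → g + 4 ≤ g' ∨ g' + 4 ≤ g
  small : q * P.K + ∑ g ∈ C, (P.X (g + 1)).length + 8 < 8 * P.K

variable {C : Finset ℕ} {q : ℕ} {Wn : ℕ → Finset ℕ}

/-- The sum of the weights near different eras. -/
theorem sum_wt_le {S Q F : Finset ℕ} (hS : ∀ g ∈ S, ∀ g' ∈ S, g ≠ g' → g + 4 ≤ g' ∨ g' + 4 ≤ g)
    (hQ : ∀ e ∈ Q, P.E e ∈ D) (hF : F ⊆ D) (hF1 : ∀ d ∈ F, ∀ g ∈ S, d ∉ P.B D g)
    (hF2 : ∀ d ∈ F, ∀ e ∈ Q, d ≠ P.E e) :
    ∑ g ∈ S, P.wt c D g + ∑ e ∈ Q, c (P.E e) + ∑ d ∈ F, c d ≤ ∑ d ∈ D, c d := by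
  classical
  have h1 : ∑ g ∈ S, P.wt c D g = ∑ d ∈ S.biUnion (P.B D), c d := by
    rw [Finset.sum_biUnion]
    · rfl
    · intro g hg g' hg' hne
      rw [Function.onFun, Finset.disjoint_left]
      intro d hd hd'
      have a1 := B_disj hd hd'
      have a2 := B_disj hd' hd
      rcases hS g hg g' hg' hne with h | h <;> omega
  have h2 : ∑ e ∈ Q, c (P.E e) = ∑ d ∈ Q.image P.E, c d := by
    rw [Finset.sum_image]
    intro x _ y _ e
    exact E_inj.1 e
  have d1 : Disjoint (S.biUnion (P.B D)) (Q.image P.E) := by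
    rw [Finset.disjoint_left]
    intro d hd hd'
    rw [Finset.mem_biUnion] at hd
    rw [Finset.mem_image] at hd'
    obtain ⟨g, -, hd⟩ := hd
    obtain ⟨e, -, rfl⟩ := hd'
    obtain ⟨-, g', s, a, -, -, -, ha, e'⟩ := mem_B.1 hd
    exact N_ne_E ha e'.symm
  have d2 : Disjoint (S.biUnion (P.B D) ∪ Q.image P.E) F := by
    rw [Finset.disjoint_left]
    intro d hd hdF
    rw [Finset.mem_union, Finset.mem_biUnion, Finset.mem_image] at hd
    rcases hd with ⟨g, hg, hd⟩ | ⟨e, he, rfl⟩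
    · exact hF1 d hdF g hg hd
    · exact hF2 _ hdF e he rfl
  rw [h1, h2, ← Finset.sum_union d1, ← Finset.sum_union d2]
  refine Finset.sum_le_sum_of_subset ?_
  intro d hd
  rw [Finset.mem_union, Finset.mem_union, Finset.mem_biUnion, Finset.mem_image] at hd
  rcases hd with (⟨g, hg, hd⟩ | ⟨e, he, rfl⟩) | hd
  · exact (mem_B.1 hd).1
  · exact hQ e he
  · exact hF hd

theorem near (G : Good P C q Wn) {e g : ℕ} (he : e < q) (hg : g ∈ Wn e) (g' : ℕ)
    (h1 : g' ≤ g + 1) (h2 : g ≤ g' + 1) : P.ck g' = false ∧ P.ei g' = P.ei g := by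
  have nck : ∀ g'', g'' ≤ g + 1 → g ≤ g'' + 1 → P.ck g'' = false := by
    intro g'' a1 a2
    by_contra hc
    rw [Bool.not_eq_false] at hc
    rcases G.W_ck e he g hg g'' ((G.mem_C _).2 hc) with h | h <;> omega
  refine ⟨nck g' h1 h2, ?_⟩
  rcases Nat.lt_trichotomy g' g with h | h | h
  · obtain rfl : g = g' + 1 := by omega
    rw [ei_succ, nck g' h1 h2]
    simp
  · rw [h]
  · obtain rfl : g' = g + 1 := by omega
    rw [ei_succ, nck g (by omega) (by omega)]
    simp

section

variable (G : Good P C q Wn) (h : Sol P.gr c D)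
  (hw : ∑ d ∈ D, c d ≤ q * P.K + ∑ g ∈ C, (P.X (g + 1)).length)

include G h hw

theorem E_mem {e : ℕ} (he : e < q) : P.E e ∈ D ∧ P.K ≤ c (P.E e) := by
  by_contra hc
  have h1 : ∀ g ∈ Wn e, P.K - 1 ≤ P.wt c D g := by
    intro g hg
    have := window h G.K_pos (G.W_lt e he g hg) (near G he hg) (by rw [G.W_ei e he g hg]; exact hc)
    omega
  have h2 : (Wn e).card • (P.K - 1) ≤ ∑ g ∈ Wn e, P.wt c D g :=
    Finset.card_nsmul_le_sum (Wn e) (P.wt c D) (P.K - 1) h1
  rw [G.W_card e he, smul_eq_mul] at h2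
  have h3 := sum_wt_le (P := P) (c := c) (D := D) (S := Wn e) (Q := ∅) (F := ∅) (G.W_sp e he)
    (by simp) (by simp) (by simp) (by simp)
  simp only [Finset.sum_empty, add_zero] at h3
  have h4 := G.small
  have h5 := G.K_pos
  omega

theorem facts : (∀ g ∈ C, P.wt c D g ≤ (P.X (g + 1)).length) ∧
    (∀ e < q, c (P.E e) ≤ P.K) ∧
    ∀ d ∈ D, (∃ e < q, d = P.E e) ∨ ∃ g ∈ C, d ∈ P.B D g := by
  have hck : ∀ g ∈ C, (P.X (g + 1)).length ≤ P.wt c D g := fun g hg =>
    (check h (G.C_lt g hg) ((G.mem_C g).1 hg) (G.ne_nil g hg) (G.nodup g hg) (G.X_lt _)).1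
  have hE : ∀ e ∈ Finset.range q, P.K ≤ c (P.E e) := fun e he =>
    (E_mem G h hw (Finset.mem_range.1 he)).2
  have hED : ∀ e ∈ Finset.range q, P.E e ∈ D := fun e he =>
    (E_mem G h hw (Finset.mem_range.1 he)).1
  have s1 := Finset.sum_le_sum hck
  have s2 := Finset.sum_le_sum hE
  rw [Finset.sum_const, Finset.card_range, smul_eq_mul] at s2
  have base := sum_wt_le (P := P) (c := c) (D := D) (S := C) (Q := Finset.range q) (F := ∅)
    G.C_sp hED (by simp) (by simp) (by simp)
  rw [Finset.sum_empty, add_zero] at base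
  refine ⟨?_, ?_, ?_⟩
  · intro g hg
    by_contra hc
    have := Finset.sum_lt_sum hck ⟨g, hg, by omega⟩
    omega
  · intro e he
    by_contra hc
    have := Finset.sum_lt_sum hE ⟨e, Finset.mem_range.2 he, by omega⟩
    rw [Finset.sum_const, Finset.card_range, smul_eq_mul] at this
    omega
  · intro d hd
    by_contra hc
    push Not at hc
    have := sum_wt_le (P := P) (c := c) (D := D) (S := C) (Q := Finset.range q) (F := {d})
      G.C_sp hED (by simpa using hd) (by simpa using hc.2) (by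
        simp only [Finset.mem_singleton, Finset.mem_range]
        rintro _ rfl e he
        exact hc.1 e he)
    rw [Finset.sum_singleton] at this
    have := h.pos d hd
    omega

theorem tok_lt {g s a : ℕ} (hg : g < P.M) (hs : s < P.K + 4) (ha : a < P.K) :
    c (P.N g s a) < P.K := by
  obtain ⟨h1, h2, h3⟩ := facts G h hw
  have hB : ∀ d, (∃ g ∈ C, d ∈ P.B D g) → c d < P.K := by
    rintro d ⟨g, hg, hd⟩
    have := le_wt (c := c) hd
    have := h1 g hg
    have := G.len_lt g hg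
    omega
  by_cases hD : P.N g s a ∈ D
  · rcases h3 _ hD with ⟨e, -, he⟩ | hd
    · exact absurd he (N_ne_E ha)
    · exact hB _ hd
  · obtain ⟨d, hd, -, hlt⟩ := h.dom _ (mem_gr.2 ⟨g, s, a, hg, hs, mem_al_of_lt ha, rfl⟩) hD
    rcases h3 _ hd with ⟨e, he, rfl⟩ | hd
    · have := h2 e he
      omega
    · have := hB _ hd
      omega

theorem inj_c {g s a b : ℕ} (hg : g < P.M) (hs : s < P.K + 4) (ha : a < P.K) (hb : b < P.K)
    (e : c (P.N g s a) = c (P.N g s b)) : a = b := by
  by_contra hne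
  exact inj_tok h hg hs (mem_al_of_lt ha) (mem_al_of_lt hb) hne e

/-- Until the end of the era the tracks keep their colors. -/
theorem col_eq {g : ℕ} (hg : g < P.M) : ∀ s, s ≤ P.K → ∀ a < P.K,
    c (P.N g s a) = c (P.N g 0 a) := by
  intro s
  induction s with
  | zero => intro _ a _; rfl
  | succ s ih =>
    intro hs a ha
    have hne : ∀ b < P.K, ¬ b = s → c (P.N g (s + 1) b) = c (P.N g s b) := by
      intro b hb hbs
      rw [N_step hb (fun e => hbs e.symm) (by omega)]
    by_cases has : a = s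
    · obtain ⟨b, -, rfl, e⟩ := agree (K := P.K) (f := fun b => c (P.N g s b))
        (h := fun b => c (P.N g (s + 1) b)) (A := fun b => b = s)
        (fun b hb => tok_lt G h hw hg (by omega) hb)
        (fun b hb b' hb' e => inj_c G h hw hg (by omega) hb hb' e)
        (fun b hb => tok_lt G h hw hg (by omega) hb)
        (fun b hb b' hb' e => inj_c G h hw hg (by omega) hb hb' e) hne ha has
      subst has
      rw [e, ih (by omega) a ha]
    · rw [hne a ha has, ih (by omega) a ha]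

/-- After the end of the era the tracks which are not opened keep their colors. -/
theorem col_after {g : ℕ} {s a : ℕ} (hs : s < 4) (ha : a < P.K) (hx : a ∉ P.X (g + 1)) :
    c (P.N g (P.K + s) a) = c (P.N g P.K a) := by
  induction s with
  | zero => rfl
  | succ s ih =>
    have e := N_step (P := P) (g := g) (s := P.K + s) ha (by omega) (by tauto)
    rw [show P.K + (s + 1) = P.K + s + 1 from rfl, e, ih (by omega)]

/-- The arrangement of the colors in the eras. -/
theorem arrangement : ∃ arr : ℕ → ℕ → ℕ, (∀ g < P.M, ∀ a < P.K, arr g a < P.K) ∧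
    (∀ g < P.M, ∀ a < P.K, ∀ b < P.K, arr g a = arr g b → a = b) ∧
    (∀ g, g + 1 < P.M → ∀ a < P.K, a ∉ P.X (g + 1) → arr (g + 1) a = arr g a) ∧
    ∀ g ∈ C, g + 1 < P.M → ∀ a ∈ P.X (g + 1), arr (g + 1) a < (P.X (g + 1)).length ∧
      arr g a < (P.X (g + 1)).length := by
  have hstep : ∀ g, g + 1 < P.M → ∀ s < 4, ∀ a < P.K, a ∉ P.X (g + 1) →
      c (P.N (g + 1) 0 a) = c (P.N g (P.K + s) a) := by
    intro g hg s hs a ha hx
    rw [N_next ha hx]
    have h1 := col_after G h hw (g := g) hs ha hx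
    have h2 := col_after G h hw (g := g) (s := 3) (by omega) ha hx
    rw [h1, h2]
  refine ⟨fun g a => c (P.N g 0 a), fun g hg a ha => tok_lt G h hw hg (by omega) ha,
    fun g hg a ha b hb e => inj_c G h hw hg (by omega) ha hb e, ?_, ?_⟩
  · intro g hg a ha hx
    have h1 := hstep g hg 0 (by omega) a ha hx
    have h2 := col_eq G h hw (g := g) (by omega) P.K le_rfl a ha
    rw [add_zero] at h1
    simp only [h1, h2]
  · intro g hgC hg a hx
    have haK := G.X_lt _ a hx
    obtain ⟨h1, -, -⟩ := facts G h hw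
    have hp := (check h (G.C_lt g hgC) ((G.mem_C g).1 hgC) (G.ne_nil g hgC) (G.nodup g hgC)
      (G.X_lt _)).2 (h1 g hgC)
    constructor
    · obtain ⟨b, -, hb, e⟩ := agree (K := P.K) (f := fun b => c (P.N g (P.K + 1) b))
        (h := fun b => c (P.N (g + 1) 0 b)) (A := fun b => b ∈ P.X (g + 1))
        (fun b hb => tok_lt G h hw (by omega) (by omega) hb)
        (fun b hb b' hb' e => inj_c G h hw (by omega) (by omega) hb hb' e)
        (fun b hb => tok_lt G h hw hg (by omega) hb)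
        (fun b hb b' hb' e => inj_c G h hw hg (by omega) hb hb' e)
        (fun b hb hx' => hstep g hg 1 (by omega) b hb hx') haK hx
      exact lt_of_eq_of_lt e (hp b hb)
    · obtain ⟨b, -, hb, e⟩ := agree (K := P.K) (f := fun b => c (P.N g (P.K + 1) b))
        (h := fun b => c (P.N g 0 b)) (A := fun b => b ∈ P.X (g + 1))
        (fun b hb => tok_lt G h hw (by omega) (by omega) hb)
        (fun b hb b' hb' e => inj_c G h hw (by omega) (by omega) hb hb' e)
        (fun b hb => tok_lt G h hw (by omega) (by omega) hb)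
        (fun b hb b' hb' e => inj_c G h hw (by omega) (by omega) hb hb' e)
        (fun b hb hx' => by
          have h1 := col_after G h hw (g := g) (s := 1) (by omega) hb hx'
          have h2 := col_eq G h hw (g := g) (by omega) P.K le_rfl b hb
          simp only [h1, h2]) haK hx
      exact lt_of_eq_of_lt e (hp b hb)

end

end Par

end Pool.Agent.NPC.R536UD
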