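import Pool.Agent.R536.UD.Mem

/-!
# Trees
-/

set_option autoImplicit false

namespace Pool.Agent.NPC.R536UD.Tree

open Pool.Agent.NPC.R536CS

instance (G : Gr) (u v : ℕ) : Decidable (Adj G u v) := by unfold Adj; infer_instance

/-! ### Leaves -/

theorem exists_leaf {W : Type} [Fintype W] [Nonempty W] (H : SimpleGraph W) (h : H.IsAcyclic) :
    ∃ v, ∀ a b, H.Adj v a → H.Adj v b → a = b := by
  classical
  have hb : ∀ n, (∃ u v, ∃ p : H.Walk u v, p.IsPath ∧ p.length = n) → n ≤ Fintype.card W := by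
    rintro n ⟨u, v, p, hp, rfl⟩
    exact hp.length_lt.le
  have h0 : ∃ u v, ∃ p : H.Walk u v, p.IsPath ∧ p.length = 0 := by
    obtain ⟨w⟩ := ‹Nonempty W›
    exact ⟨w, w, SimpleGraph.Walk.nil, SimpleGraph.Walk.IsPath.nil, rfl⟩
  have hs := Nat.findGreatest_spec (P := fun n => ∃ u v, ∃ p : H.Walk u v, p.IsPath ∧
    p.length = n) (Nat.zero_le (Fintype.card W)) h0
  set n := Nat.findGreatest (fun n => ∃ u v, ∃ p : H.Walk u v, p.IsPath ∧ p.length = n)
    (Fintype.card W) with hn
  obtain ⟨u, v, p, hp, hl⟩ := hs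
  have hmem : ∀ a, H.Adj v a → a ∈ p.support := by
    intro a ha
    by_contra hc
    have h1 : (p.concat ha).IsPath := hp.concat hc ha
    have h2 := Nat.le_findGreatest (P := fun n => ∃ u v, ∃ p : H.Walk u v, p.IsPath ∧
      p.length = n) (hb _ ⟨u, a, p.concat ha, h1, rfl⟩) ⟨u, a, p.concat ha, h1, rfl⟩
    rw [← hn, SimpleGraph.Walk.length_concat, hl] at h2
    omega
  refine ⟨v, fun a b ha hb' => ?_⟩
  rw [h.eq_penultimate_of_adj_end hp ha (hmem a ha), h.eq_penultimate_of_adj_end hp hb' (hmem b hb')]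

/-- In a nonempty set of vertices of a forest there is one with at most one neighbour in it. -/
theorem leaf_in {G : Gr} (h : (graph G).IsAcyclic) {S : List ℕ} (hS : ∀ v ∈ S, v ∈ G.1)
    (hne : S ≠ []) : ∃ v ∈ S, ∀ a ∈ S, ∀ b ∈ S, Adj G v a → Adj G v b → a = b := by
  let H : SimpleGraph {v : ℕ // v ∈ S} :=
    { Adj := fun u v => Adj G u.1 v.1
      symm := ⟨fun u v h => ⟨h.1.symm, h.2.2.1, h.2.1, h.2.2.2.symm⟩⟩
      loopless := ⟨fun u h => h.1 rfl⟩ }
  have hH : H.IsAcyclic := by
    refine SimpleGraph.IsAcyclic.comap (G' := graph G)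
      ⟨fun v => ⟨v.1, hS v.1 v.2⟩, ?_⟩ ?_ h
    · intro u v huv
      exact adj_iff.2 huv
    · intro u v e
      have e' : (⟨u.1, hS u.1 u.2⟩ : {v // v ∈ G.1}) = ⟨v.1, hS v.1 v.2⟩ := e
      exact Subtype.ext (Subtype.mk.inj e')
  have : Nonempty {v : ℕ // v ∈ S} := by
    obtain ⟨v, hv⟩ := List.exists_mem_of_ne_nil S hne
    exact ⟨⟨v, hv⟩⟩
  obtain ⟨v, hv⟩ := exists_leaf H hH
  exact ⟨v.1, v.2, fun a ha b hb h1 h2 => congrArg Subtype.val (hv ⟨a, ha⟩ ⟨b, hb⟩ h1 h2)⟩

/-! ### Minima -/

/-- The minimum of a nonempty list. -/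
def mn (l : List ℕ) : ℕ := (l.filter (fun m => l.all (fun x => decide (m ≤ x)))).headD 0

theorem mn_spec {l : List ℕ} (h : l ≠ []) : mn l ∈ l ∧ ∀ x ∈ l, mn l ≤ x := by
  have hne : l.toFinset.Nonempty := by
    obtain ⟨x, hx⟩ := List.exists_mem_of_ne_nil l h
    exact ⟨x, List.mem_toFinset.2 hx⟩
  obtain ⟨m, hm, hm'⟩ := Finset.exists_min_image l.toFinset id hne
  have h1 : m ∈ l.filter (fun m => l.all (fun x => decide (m ≤ x))) := by
    rw [List.mem_filter, List.all_eq_true]
    exact ⟨List.mem_toFinset.1 hm, fun x hx => decide_eq_true (hm' x (List.mem_toFinset.2 hx))⟩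
  have h2 : mn l ∈ l.filter (fun m => l.all (fun x => decide (m ≤ x))) := by
    unfold mn
    cases hL : l.filter (fun m => l.all (fun x => decide (m ≤ x))) with
    | nil => rw [hL] at h1; simp at h1
    | cons a L => simp
  rw [List.mem_filter, List.all_eq_true] at h2
  exact ⟨h2.1, fun x hx => of_decide_eq_true (h2.2 x hx)⟩

/-! ### The algorithm -/

section

variable (G : Gr)

/-- The vertices. -/
def Vd : List ℕ := G.1.dedup

/-- The number of vertices. -/
def nn : ℕ := (Vd G).length

/-- A bound for the weight. -/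
def MM : ℕ := nn G * (nn G + 1)

/-- The penalty. -/
def pen : ℕ := MM G + 1

/-- The number of states of a vertex. -/
def QQ : ℕ := (MM G + 1) * nn G

/-- The color in a state. -/
def sa (s : ℕ) : ℕ := s / nn G

/-- The pointer in a state. -/
def sp (s : ℕ) : ℕ := (Vd G).getD (s % nn G) 0

/-- The cost of a state. -/
def f0 (v s : ℕ) : ℕ :=
  if sp G s = v then (if sa G s = 0 then pen G else sa G s)
  else (if Adj G v (sp G s) then 0 else pen G)

/-- The cost of a pair of states. -/
def ps (u s t : ℕ) : ℕ :=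
  if sa G s = sa G t then pen G
  else if sp G s = u ∧ ¬ (sp G t = u ∧ sa G s < sa G t) then pen G else 0

/-- The costs after elimination of some vertices. -/
def phi (msgs : List (ℕ × List ℕ)) (v s : ℕ) : ℕ :=
  f0 G v s + ((msgs.filter (fun t => decide (t.1 = v))).map (fun t => t.2.getD s 0)).sum

/-- The vertex to be eliminated. -/
def lf (S : List ℕ) : ℕ :=
  (S.filter (fun v => decide ((S.filter (fun u => decide (Adj G v u))).length ≤ 1))).headD 0

/-- The message of the vertex `v` to its neighbour `u`. -/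
def tab (msgs : List (ℕ × List ℕ)) (v u : ℕ) : List ℕ :=
  (List.range (QQ G)).map (fun t => min (mn ((List.range (QQ G)).map (fun s =>
    phi G msgs v s + (ps G u s t + ps G v t s)))) (pen G))

/-- Elimination of a vertex. -/
def step (st : List ℕ × (List (ℕ × List ℕ) × ℕ)) : List ℕ × (List (ℕ × List ℕ) × ℕ) :=
  if st.1.filter (fun u => decide (Adj G (lf G st.1) u)) = [] then
    (st.1.filter (fun u => decide (u ≠ lf G st.1)),
      (st.2.1, min (st.2.2 + mn ((List.range (QQ G)).map (phi G st.2.1 (lf G st.1)))) (pen G)))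
  else
    (st.1.filter (fun u => decide (u ≠ lf G st.1)),
      (((st.1.filter (fun u => decide (Adj G (lf G st.1) u))).headD 0,
        tab G st.2.1 (lf G st.1)
          ((st.1.filter (fun u => decide (Adj G (lf G st.1) u))).headD 0)) :: st.2.1, st.2.2))

/-- The algorithm. -/
def alg : ℕ := ((step G)^[(Vd G).length] (Vd G, ([], 0))).2.2

/-! ### Correctness -/

/-- The total cost. -/
def tot (S : Finset ℕ) (msgs : List (ℕ × List ℕ)) (x : ℕ → ℕ) : ℕ :=
  ∑ v ∈ S, phi G msgs v (x v) + ∑ v ∈ S, ∑ u ∈ S, (if Adj G v u then ps G u (x v) (x u) else 0)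

/-- There is an assignment of cost at most `k`. -/
def Fe (S : Finset ℕ) (msgs : List (ℕ × List ℕ)) (acc k : ℕ) : Prop :=
  ∃ x : ℕ → ℕ, (∀ v ∈ S, x v < QQ G) ∧ tot G S msgs x + acc ≤ k

variable {G}

theorem tot_insert {S : Finset ℕ} {v : ℕ} (hv : v ∉ S) (msgs : List (ℕ × List ℕ)) (x : ℕ → ℕ) :
    tot G (insert v S) msgs x = tot G S msgs x + phi G msgs v (x v) +
      (∑ u ∈ S, ((if Adj G v u then ps G u (x v) (x u) else 0) +
        (if Adj G u v then ps G v (x u) (x v) else 0))) := by
  have hvv : ¬ Adj G v v := fun h => h.1 rfl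
  unfold tot
  rw [Finset.sum_insert hv, Finset.sum_insert hv, Finset.sum_insert hv, if_neg hvv]
  have h1 : ∀ w ∈ S, ∑ u ∈ insert v S, (if Adj G w u then ps G u (x w) (x u) else 0) =
      (if Adj G w v then ps G v (x w) (x v) else 0) +
      ∑ u ∈ S, (if Adj G w u then ps G u (x w) (x u) else 0) := fun w _ => Finset.sum_insert hv
  rw [Finset.sum_congr rfl h1, Finset.sum_add_distrib, Finset.sum_add_distrib]
  ring

theorem adj_symm {u v : ℕ} (h : Adj G u v) : Adj G v u := ⟨h.1.symm, h.2.2.1, h.2.1, h.2.2.2.symm⟩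

theorem mn_map {Q : ℕ} (hQ : 0 < Q) (f : ℕ → ℕ) : (∃ s < Q, mn ((List.range Q).map f) = f s) ∧
    ∀ s < Q, mn ((List.range Q).map f) ≤ f s := by
  have hne : (List.range Q).map f ≠ [] := by
    intro h
    have := congrArg List.length h
    simp at this
    omega
  obtain ⟨h1, h2⟩ := mn_spec hne
  constructor
  · rw [List.mem_map] at h1
    obtain ⟨s, hs, e⟩ := h1
    exact ⟨s, List.mem_range.1 hs, e.symm⟩
  · intro s hs
    exact h2 _ (List.mem_map_of_mem (List.mem_range.2 hs))

theorem sum_congr_update {S : Finset ℕ} {v : ℕ} (hv : v ∉ S) (msgs : List (ℕ × List ℕ))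
    (x : ℕ → ℕ) (s : ℕ) : tot G S msgs (Function.update x v s) = tot G S msgs x := by
  unfold tot
  have h1 : ∀ w ∈ S, Function.update x v s w = x w := fun w hw =>
    Function.update_of_ne (by rintro rfl; exact hv hw) _ _
  congr 1
  · exact Finset.sum_congr rfl fun w hw => by rw [h1 w hw]
  · exact Finset.sum_congr rfl fun w hw => Finset.sum_congr rfl fun u hu => by
      rw [h1 w hw, h1 u hu]

/-- Elimination of a vertex without neighbours. -/
theorem elim_none {S : Finset ℕ} {v : ℕ} (hv : v ∉ S) (hQ : 0 < QQ G)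
    (hn : ∀ u ∈ S, ¬ Adj G v u) (msgs : List (ℕ × List ℕ)) (acc : ℕ) {k : ℕ} (hk : k < pen G) :
    Fe G (insert v S) msgs acc k ↔
      Fe G S msgs (min (acc + mn ((List.range (QQ G)).map (phi G msgs v))) (pen G)) k := by
  have hz : ∀ x : ℕ → ℕ, (∑ u ∈ S, ((if Adj G v u then ps G u (x v) (x u) else 0) +
        (if Adj G u v then ps G v (x u) (x v) else 0))) = 0 := by
    intro x
    refine Finset.sum_eq_zero fun u hu => ?_
    rw [if_neg (hn u hu), if_neg (fun h => hn u hu (adj_symm h)), add_zero]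
  obtain ⟨⟨s, hs, e⟩, hmin⟩ := mn_map hQ (phi G msgs v)
  constructor
  · rintro ⟨x, hx, hle⟩
    rw [tot_insert hv, hz, add_zero] at hle
    have := hmin (x v) (hx v (Finset.mem_insert_self _ _))
    exact ⟨x, fun w hw => hx w (Finset.mem_insert_of_mem hw), by omega⟩
  · rintro ⟨x, hx, hle⟩
    refine ⟨Function.update x v s, ?_, ?_⟩
    · intro w hw
      by_cases hwv : w = v
      · subst hwv; rw [Function.update_self]; exact hs
      · rw [Function.update_of_ne hwv]
        exact hx w ((Finset.mem_insert.1 hw).resolve_left hwv)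
    · rw [tot_insert hv, hz, add_zero, sum_congr_update hv, Function.update_self]
      omega

theorem phi_cons {msgs : List (ℕ × List ℕ)} {u w s : ℕ} {t : List ℕ} :
    phi G ((u, t) :: msgs) w s = phi G msgs w s + (if w = u then t.getD s 0 else 0) := by
  unfold phi
  by_cases h : w = u
  · subst h
    rw [List.filter_cons_of_pos (by simp), List.map_cons, List.sum_cons, if_pos rfl]
    ring
  · rw [List.filter_cons_of_neg (by simpa using fun e => h e.symm), if_neg h, add_zero]

/-- Elimination of a vertex with one neighbour. -/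
theorem elim_some {S : Finset ℕ} {v u : ℕ} (hv : v ∉ S) (hQ : 0 < QQ G) (hu : u ∈ S)
    (hadj : Adj G v u) (hn : ∀ w ∈ S, Adj G v w → w = u) (msgs : List (ℕ × List ℕ)) (acc : ℕ)
    {k : ℕ} (hk : k < pen G) : Fe G (insert v S) msgs acc k ↔
      Fe G S ((u, tab G msgs v u) :: msgs) acc k := by
  have hz : ∀ x : ℕ → ℕ, (∑ w ∈ S, ((if Adj G v w then ps G w (x v) (x w) else 0) +
        (if Adj G w v then ps G v (x w) (x v) else 0))) =
        ps G u (x v) (x u) + ps G v (x u) (x v) := by
    intro x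
    rw [Finset.sum_eq_single_of_mem u hu]
    · rw [if_pos hadj, if_pos (adj_symm hadj)]
    · intro w hw hwu
      rw [if_neg (fun h => hwu (hn w hw h)), if_neg (fun h => hwu (hn w hw (adj_symm h))),
        add_zero]
  have htot : ∀ x : ℕ → ℕ, tot G S ((u, tab G msgs v u) :: msgs) x =
      tot G S msgs x + (tab G msgs v u).getD (x u) 0 := by
    intro x
    unfold tot
    have h1 : ∀ w ∈ S, phi G ((u, tab G msgs v u) :: msgs) w (x w) =
        phi G msgs w (x w) + (if w = u then (tab G msgs v u).getD (x w) 0 else 0) :=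
      fun w _ => phi_cons
    rw [Finset.sum_congr rfl h1, Finset.sum_add_distrib, Finset.sum_ite_eq' S u, if_pos hu]
    ring
  have htab : ∀ t < QQ G, (tab G msgs v u).getD t 0 =
      min (mn ((List.range (QQ G)).map (fun s =>
        phi G msgs v s + (ps G u s t + ps G v t s)))) (pen G) := by
    intro t ht
    unfold tab
    rw [List.getD_eq_getElem _ _ (by simpa using ht)]
    simp
  constructor
  · rintro ⟨x, hx, hle⟩
    rw [tot_insert hv, hz] at hle
    have hxu := hx u (Finset.mem_insert_of_mem hu)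
    obtain ⟨-, hmin⟩ := mn_map hQ (fun s => phi G msgs v s + (ps G u s (x u) + ps G v (x u) s))
    have := hmin (x v) (hx v (Finset.mem_insert_self _ _))
    refine ⟨x, fun w hw => hx w (Finset.mem_insert_of_mem hw), ?_⟩
    rw [htot, htab _ hxu]
    omega
  · rintro ⟨x, hx, hle⟩
    rw [htot, htab _ (hx u hu)] at hle
    obtain ⟨⟨s, hs, e⟩, -⟩ := mn_map hQ
      (fun s => phi G msgs v s + (ps G u s (x u) + ps G v (x u) s))
    refine ⟨Function.update x v s, ?_, ?_⟩
    · intro w hw
      by_cases hwv : w = v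
      · subst hwv; rw [Function.update_self]; exact hs
      · rw [Function.update_of_ne hwv]
        exact hx w ((Finset.mem_insert.1 hw).resolve_left hwv)
    · rw [tot_insert hv, hz, sum_congr_update hv, Function.update_self,
        Function.update_of_ne (show u ≠ v by rintro rfl; exact hv hu)]
      rw [e] at hle
      omega

/-- One step of the algorithm. -/
theorem step_spec (hG : (graph G).IsAcyclic) {S : List ℕ} (hS : S.Nodup) (hSV : ∀ v ∈ S, v ∈ G.1)
    (hne : S ≠ []) (msgs : List (ℕ × List ℕ)) (acc : ℕ) :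
    ∃ S' msgs' acc', step G (S, (msgs, acc)) = (S', (msgs', acc')) ∧ S'.Nodup ∧
      (∀ v ∈ S', v ∈ G.1) ∧ S'.length + 1 = S.length ∧
      ∀ k < pen G, (Fe G S.toFinset msgs acc k ↔ Fe G S'.toFinset msgs' acc' k) := by
  -- the leaf
  have hlf : lf G S ∈ S ∧ (S.filter (fun u => decide (Adj G (lf G S) u))).length ≤ 1 := by
    obtain ⟨v, hv, huniq⟩ := leaf_in hG hSV hne
    have h1 : v ∈ S.filter (fun v => decide ((S.filter (fun u => decide (Adj G v u))).length ≤ 1))
        := by
      rw [List.mem_filter, decide_eq_true_iff]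
      refine ⟨hv, ?_⟩
      have hnd : (S.filter (fun u => decide (Adj G v u))).Nodup := hS.filter _
      rw [← List.toFinset_card_of_nodup hnd, Finset.card_le_one]
      intro a ha b hb
      rw [List.mem_toFinset, List.mem_filter, decide_eq_true_iff] at ha hb
      exact huniq a ha.1 b hb.1 ha.2 hb.2
    have h2 : lf G S ∈ S.filter
        (fun v => decide ((S.filter (fun u => decide (Adj G v u))).length ≤ 1)) := by
      unfold lf
      cases hL : S.filter
          (fun v => decide ((S.filter (fun u => decide (Adj G v u))).length ≤ 1)) with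
      | nil => rw [hL] at h1; simp at h1
      | cons a L => simp
    rw [List.mem_filter, decide_eq_true_iff] at h2
    exact h2
  obtain ⟨hmem, hlen⟩ := hlf
  have hQ : 0 < QQ G := by
    unfold QQ nn
    have : 0 < (Vd G).length := List.length_pos_of_mem (List.mem_dedup.2 (hSV _ hmem))
    positivity
  set v := lf G S with hvdef
  have hS'nd : (S.filter (fun u => decide (u ≠ v))).Nodup := hS.filter _
  have hS'V : ∀ w ∈ S.filter (fun u => decide (u ≠ v)), w ∈ G.1 := fun w hw =>
    hSV w (List.mem_filter.1 hw).1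
  have hins : S.toFinset = insert v (S.filter (fun u => decide (u ≠ v))).toFinset := by
    ext w
    rw [Finset.mem_insert, List.mem_toFinset, List.mem_toFinset, List.mem_filter,
      decide_eq_true_iff]
    constructor
    · intro hw
      by_cases hwv : w = v
      · exact Or.inl hwv
      · exact Or.inr ⟨hw, hwv⟩
    · rintro (rfl | h)
      · exact hmem
      · exact h.1
  have hv' : v ∉ (S.filter (fun u => decide (u ≠ v))).toFinset := by
    rw [List.mem_toFinset, List.mem_filter, decide_eq_true_iff]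
    exact fun h => h.2 rfl
  have hS'len : (S.filter (fun u => decide (u ≠ v))).length + 1 = S.length := by
    rw [← List.toFinset_card_of_nodup hS, hins, Finset.card_insert_of_notMem hv',
      List.toFinset_card_of_nodup hS'nd]
  by_cases hN : S.filter (fun u => decide (Adj G v u)) = []
  · refine ⟨S.filter (fun u => decide (u ≠ v)), msgs,
      min (acc + mn ((List.range (QQ G)).map (phi G msgs v))) (pen G), ?_, hS'nd, hS'V, hS'len, ?_⟩
    · unfold step
      simp only
      rw [← hvdef, if_pos hN]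
    · intro k hk
      rw [hins]
      refine elim_none hv' hQ ?_ msgs acc hk
      intro u hu hadj
      have : u ∈ S.filter (fun u => decide (Adj G v u)) :=
        List.mem_filter.2 ⟨(List.mem_filter.1 (List.mem_toFinset.1 hu)).1, decide_eq_true hadj⟩
      rw [hN] at this
      simp at this
  · obtain ⟨u, hu⟩ : ∃ u, S.filter (fun u => decide (Adj G v u)) = [u] := by
      cases hL : S.filter (fun u => decide (Adj G v u)) with
      | nil => exact absurd hL hN
      | cons a L =>
        rw [hL] at hlen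
        simp only [List.length_cons] at hlen
        have : L = [] := List.length_eq_zero_iff.1 (by omega)
        exact ⟨a, by rw [this]⟩
    have hum : u ∈ S ∧ Adj G v u := by
      have : u ∈ S.filter (fun u => decide (Adj G v u)) := by rw [hu]; simp
      rw [List.mem_filter, decide_eq_true_iff] at this
      exact this
    refine ⟨S.filter (fun u => decide (u ≠ v)), (u, tab G msgs v u) :: msgs, acc, ?_, hS'nd, hS'V,
      hS'len, ?_⟩
    · unfold step
      simp only
      rw [← hvdef, if_neg hN, hu]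
      rfl
    · intro k hk
      rw [hins]
      refine elim_some hv' hQ ?_ hum.2 ?_ msgs acc hk
      · rw [List.mem_toFinset, List.mem_filter, decide_eq_true_iff]
        exact ⟨hum.1, hum.2.1.symm⟩
      · intro w hw hadj
        have : w ∈ S.filter (fun u => decide (Adj G v u)) :=
          List.mem_filter.2 ⟨(List.mem_filter.1 (List.mem_toFinset.1 hw)).1, decide_eq_true hadj⟩
        rw [hu] at this
        simpa using this

theorem alg_spec (hG : (graph G).IsAcyclic) : ∀ k < pen G,
    (Fe G (Vd G).toFinset [] 0 k ↔ alg G ≤ k) := by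
  have key : ∀ (n : ℕ) (S : List ℕ) (msgs : List (ℕ × List ℕ)) (acc : ℕ), S.length = n →
      S.Nodup → (∀ v ∈ S, v ∈ G.1) → ∀ k < pen G,
      (Fe G S.toFinset msgs acc k ↔ ((step G)^[n] (S, (msgs, acc))).2.2 ≤ k) := by
    intro n
    induction n with
    | zero =>
      intro S msgs acc hS _ _ k _
      have hS' : S = [] := List.length_eq_zero_iff.1 hS
      subst hS'
      show Fe G ∅ msgs acc k ↔ acc ≤ k
      unfold Fe tot
      simp
    | succ n ih =>
      intro S msgs acc hS hnd hV k hk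
      obtain ⟨S', msgs', acc', e, h1, h2, h3, h4⟩ := step_spec hG hnd hV
        (fun h => by rw [h] at hS; simp at hS) msgs acc
      rw [h4 k hk, Function.iterate_succ_apply, e]
      exact ih S' msgs' acc' (by omega) h1 h2 k hk
  intro k hk
  exact key _ (Vd G) [] 0 rfl (List.nodup_dedup _) (fun v hv => List.mem_dedup.1 hv) k hk

/-! ### The cost and the weight -/

theorem nn_pos {v : ℕ} (hv : v ∈ G.1) : 0 < nn G :=
  List.length_pos_of_mem (List.mem_dedup.2 hv)

theorem mem_Vd {v : ℕ} : v ∈ (Vd G).toFinset ↔ v ∈ G.1 := by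
  unfold Vd
  rw [List.mem_toFinset, List.mem_dedup]

theorem code {c p : ℕ} (hp : p ∈ G.1) : sa G (c * nn G + (Vd G).idxOf p) = c ∧
    sp G (c * nn G + (Vd G).idxOf p) = p := by
  have h1 : (Vd G).idxOf p < nn G := List.idxOf_lt_length_of_mem (List.mem_dedup.2 hp)
  have h2 := nn_pos hp
  constructor
  · unfold sa
    rw [mul_comm, Nat.mul_add_div h2, Nat.div_eq_of_lt h1, add_zero]
  · unfold sp
    rw [mul_comm, Nat.mul_add_mod, Nat.mod_eq_of_lt h1,
      List.getD_eq_getElem _ _ (show (Vd G).idxOf p < (Vd G).length from h1)]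
    exact List.getElem_idxOf _

theorem fe_of_omega {k : ℕ} (hk : k ≤ MM G) (h : OmegaUC (graph G) ≤ k) :
    Fe G (Vd G).toFinset [] 0 k := by
  obtain ⟨c, D, h, hw⟩ := (omega_le_iff G k).1 h
  have hp : ∀ v, ∃ p, v ∈ G.1 → p ∈ G.1 ∧ ((v ∈ D ∧ p = v) ∨ (v ∉ D ∧ p ∈ D ∧ Adj G v p ∧
      c v < c p)) := by
    intro v
    by_cases hv : v ∈ G.1
    · by_cases hD : v ∈ D
      · exact ⟨v, fun _ => ⟨hv, Or.inl ⟨hD, rfl⟩⟩⟩
      · obtain ⟨d, hd, hadj, hlt⟩ := h.dom v hv hD
        exact ⟨d, fun _ => ⟨hadj.2.2.1, Or.inr ⟨hD, hd, hadj, hlt⟩⟩⟩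
    · exact ⟨0, fun h => absurd h hv⟩
  choose p hp using hp
  refine ⟨fun v => c v * nn G + (Vd G).idxOf (p v), ?_, ?_⟩
  · intro v hv
    have hv' := mem_Vd.1 hv
    have h1 : (Vd G).idxOf (p v) < nn G :=
      List.idxOf_lt_length_of_mem (List.mem_dedup.2 (hp v hv').1)
    have h2 := c_le h hw hv'
    show c v * nn G + (Vd G).idxOf (p v) < QQ G
    unfold QQ
    calc c v * nn G + (Vd G).idxOf (p v) < c v * nn G + nn G := by omega
      _ = (c v + 1) * nn G := by ring
      _ ≤ (MM G + 1) * nn G := Nat.mul_le_mul_right _ (by omega)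
  · rw [add_zero]
    refine le_trans (le_of_eq ?_) hw
    unfold tot
    have e1 : ∀ v ∈ (Vd G).toFinset, phi G [] v (c v * nn G + (Vd G).idxOf (p v)) =
        if v ∈ D then c v else 0 := by
      intro v hv
      have hv' := mem_Vd.1 hv
      obtain ⟨hpG, hpc⟩ := hp v hv'
      obtain ⟨h1, h2⟩ := code (c := c v) hpG
      unfold phi f0
      rw [h1, h2]
      simp only [List.filter_nil, List.map_nil, List.sum_nil, add_zero]
      rcases hpc with ⟨hD, e⟩ | ⟨hD, hpD, hadj, hlt⟩
      · rw [if_pos e, if_neg (h.pos v hD), if_pos hD]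
      · rw [if_neg hadj.1.symm, if_pos hadj, if_neg hD]
    have e2 : ∀ v ∈ (Vd G).toFinset, ∑ u ∈ (Vd G).toFinset, (if Adj G v u then
        ps G u (c v * nn G + (Vd G).idxOf (p v)) (c u * nn G + (Vd G).idxOf (p u)) else 0) = 0 := by
      intro v hv
      refine Finset.sum_eq_zero fun u hu => ?_
      by_cases hadj : Adj G v u
      · rw [if_pos hadj]
        obtain ⟨hpG, hpc⟩ := hp v (mem_Vd.1 hv)
        obtain ⟨hpG', hpc'⟩ := hp u (mem_Vd.1 hu)
        obtain ⟨h1, h2⟩ := code (c := c v) hpG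
        obtain ⟨h3, h4⟩ := code (c := c u) hpG'
        unfold ps
        rw [h1, h2, h3, h4, if_neg (h.col v u hadj), if_neg]
        rintro ⟨e, hc⟩
        rcases hpc with ⟨hD, e'⟩ | ⟨hD, hpD, hadj', hlt⟩
        · exact hadj.1 (e'.symm.trans e)
        · rw [e] at hpD hlt
          apply hc
          rcases hpc' with ⟨-, e''⟩ | ⟨hD'', -⟩
          · exact ⟨e'', hlt⟩
          · exact absurd hpD hD''
      · rw [if_neg hadj]
    rw [Finset.sum_congr rfl e1, Finset.sum_congr rfl e2, Finset.sum_const_zero, add_zero,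
      ← Finset.sum_filter]
    refine Finset.sum_congr ?_ fun _ _ => rfl
    ext v
    rw [Finset.mem_filter, mem_Vd]
    exact ⟨fun h => h.2, fun hv => ⟨h.sub v hv, hv⟩⟩

theorem omega_of_fe {k : ℕ} (hk : k ≤ MM G) (h : Fe G (Vd G).toFinset [] 0 k) :
    OmegaUC (graph G) ≤ k := by
  obtain ⟨x, -, hle⟩ := h
  rw [add_zero] at hle
  have hpen : pen G = MM G + 1 := rfl
  have h1 : ∀ v ∈ G.1, f0 G v (x v) ≤ k := by
    intro v hv
    have := Finset.single_le_sum (f := fun v => phi G [] v (x v)) (fun _ _ => Nat.zero_le _)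
      (mem_Vd.2 hv)
    have e : phi G [] v (x v) = f0 G v (x v) := by unfold phi; simp
    unfold tot at hle
    simp only [e] at this
    omega
  have h2 : ∀ v u, Adj G v u → ps G u (x v) (x u) ≤ k := by
    intro v u hadj
    have a1 := Finset.single_le_sum (f := fun v => ∑ u ∈ (Vd G).toFinset,
      (if Adj G v u then ps G u (x v) (x u) else 0)) (fun _ _ => Nat.zero_le _)
      (mem_Vd.2 hadj.2.1)
    have a2 := Finset.single_le_sum (f := fun u =>
      (if Adj G v u then ps G u (x v) (x u) else 0)) (fun _ _ => Nat.zero_le _)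
      (mem_Vd.2 hadj.2.2.1)
    simp only [if_pos hadj] at a2
    unfold tot at hle
    omega
  rw [omega_le_iff]
  have hf : ∀ v ∈ G.1, sp G (x v) = v → sa G (x v) ≠ 0 ∧ f0 G v (x v) = sa G (x v) := by
    intro v hv e
    have := h1 v hv
    unfold f0 at this ⊢
    rw [if_pos e] at this ⊢
    by_cases h0 : sa G (x v) = 0
    · rw [if_pos h0] at this; omega
    · rw [if_neg h0]; exact ⟨h0, rfl⟩
  refine ⟨fun v => sa G (x v), (Vd G).toFinset.filter (fun v => sp G (x v) = v), ⟨?_, ?_, ?_, ?_⟩,
    ?_⟩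
  · intro d hd
    exact mem_Vd.1 (Finset.mem_filter.1 hd).1
  · intro d hd
    rw [Finset.mem_filter, mem_Vd] at hd
    exact (hf d hd.1 hd.2).1
  · intro u v hadj e
    have := h2 u v hadj
    unfold ps at this
    rw [if_pos e] at this
    omega
  · intro v hv hD
    rw [Finset.mem_filter, mem_Vd, not_and] at hD
    have hne := hD hv
    have a1 := h1 v hv
    unfold f0 at a1
    rw [if_neg hne] at a1
    have hadj : Adj G v (sp G (x v)) := by
      by_contra hc
      rw [if_neg hc] at a1
      omega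
    have a2 := h2 _ _ hadj
    unfold ps at a2
    have hc : sp G (x (sp G (x v))) = sp G (x v) ∧ sa G (x v) < sa G (x (sp G (x v))) := by
      by_contra hc
      split_ifs at a2 with b1 b2
      · omega
      · omega
      · exact b2 ⟨rfl, hc⟩
    exact ⟨_, Finset.mem_filter.2 ⟨mem_Vd.2 hadj.2.2.1, hc.1⟩, hadj, hc.2⟩
  · have a1 : ∑ d ∈ (Vd G).toFinset.filter (fun v => sp G (x v) = v), sa G (x d) ≤
        ∑ d ∈ (Vd G).toFinset, phi G [] d (x d) := by
      refine le_trans (Finset.sum_le_sum fun d hd => ?_)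
        (Finset.sum_le_sum_of_subset (Finset.filter_subset (fun v => sp G (x v) = v) _))
      rw [Finset.mem_filter, mem_Vd] at hd
      have e : phi G [] d (x d) = f0 G d (x d) := by unfold phi; simp
      rw [e, (hf d hd.1 hd.2).2]
    unfold tot at hle
    exact a1.trans (by omega)

theorem omega_le_MM : OmegaUC (graph G) ≤ MM G := by
  rw [omega_le_iff]
  refine ⟨fun v => (Vd G).idxOf v + 1, (Vd G).toFinset, ⟨fun d hd => mem_Vd.1 hd, fun _ _ =>
    Nat.succ_ne_zero _, ?_, fun v hv hD => absurd (mem_Vd.2 hv) hD⟩, ?_⟩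
  · intro u v hadj e
    have h1 : u ∈ Vd G := List.mem_dedup.2 hadj.2.1
    apply hadj.1
    have e' : (Vd G).idxOf u = (Vd G).idxOf v := by
      have : (Vd G).idxOf u + 1 = (Vd G).idxOf v + 1 := e
      omega
    exact (List.idxOf_inj h1).1 e'
  · unfold MM
    refine (Finset.sum_le_card_nsmul _ _ (nn G + 1) ?_).trans ?_
    · intro v hv
      have : (Vd G).idxOf v < nn G := List.idxOf_lt_length_of_mem (List.mem_toFinset.1 hv)
      show (Vd G).idxOf v + 1 ≤ nn G + 1
      omega
    · rw [smul_eq_mul, List.toFinset_card_of_nodup (show (Vd G).Nodup from List.nodup_dedup _)]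
      exact le_refl _

theorem omega_eq (hG : (graph G).IsAcyclic) : OmegaUC (graph G) = (alg G : ℕ) := by
  have hpen : pen G = MM G + 1 := rfl
  have h1 : ∀ k ≤ MM G, (OmegaUC (graph G) ≤ k ↔ alg G ≤ k) := fun k hk => by
    rw [← alg_spec hG k (by omega)]
    exact ⟨fe_of_omega hk, omega_of_fe hk⟩
  have h2 : alg G ≤ MM G := (h1 _ le_rfl).1 omega_le_MM
  apply le_antisymm ((h1 _ h2).2 le_rfl)
  by_contra hc
  push Not at hc
  have h3 : OmegaUC (graph G) ≠ ⊤ := ne_top_of_lt hc
  obtain ⟨w, hw⟩ := ENat.ne_top_iff_exists.1 h3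
  rw [← hw, Nat.cast_lt] at hc
  have := (h1 w (by omega)).1 hw.symm.le
  omega

end

end Pool.Agent.NPC.R536UD.Tree
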