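import Pool.Agent.R536.UD.Tree

/-!
# The algorithm for trees runs in polynomial time
-/

set_option autoImplicit false

namespace Pool.Agent.NPC.R536UD.Tree

open Pool.Agent.NPC.R536CS

section

variable {α : Type} [TEnc α]

theorem pHd {l : α → List ℕ} (hl : Poly l) : Poly (fun a => (l a).headD 0) :=
  (Poly.head?_getD hl 0).congr fun a => by cases l a <;> rfl

attribute [fun_prop] pHd

theorem pMn {l : α → List ℕ} (hl : Poly l) : Poly (fun a => mn (l a)) := by
  unfold mn
  refine pHd (Poly.filter (p := fun a m => (l a).all (fun x => decide (m ≤ x))) hl ?_)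
  fun_prop

theorem pVd {G : α → Gr} (hG : Poly G) : Poly (fun a => Vd (G a)) := R544.poly_dedup (Poly.fst hG)

theorem uNn {G : α → Gr} (hG : Poly G) : UPoly (fun a => nn (G a)) := UPoly.length (pVd hG)

theorem uMM {G : α → Gr} (hG : Poly G) : UPoly (fun a => MM (G a)) :=
  UPoly.mul (uNn hG) (UPoly.add (uNn hG) (UPoly.const 1))

theorem uQQ {G : α → Gr} (hG : Poly G) : UPoly (fun a => QQ (G a)) :=
  UPoly.mul (UPoly.add (uMM hG) (UPoly.const 1)) (uNn hG)

theorem pNn {G : α → Gr} (hG : Poly G) : Poly (fun a => nn (G a)) := (uNn hG).toPoly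

theorem pPen {G : α → Gr} (hG : Poly G) : Poly (fun a => pen (G a)) :=
  (UPoly.add (uMM hG) (UPoly.const 1)).toPoly

attribute [fun_prop] pMn pVd pNn pPen

theorem pSa {G : α → Gr} {s : α → ℕ} (hG : Poly G) (hs : Poly s) :
    Poly (fun a => sa (G a) (s a)) := by
  unfold sa; fun_prop

theorem pSp {G : α → Gr} {s : α → ℕ} (hG : Poly G) (hs : Poly s) :
    Poly (fun a => sp (G a) (s a)) := by
  unfold sp; fun_prop

attribute [fun_prop] pSa pSp

theorem pF0 {G : α → Gr} {v s : α → ℕ} (hG : Poly G) (hv : Poly v) (hs : Poly s) :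
    Poly (fun a => f0 (G a) (v a) (s a)) := by
  unfold f0
  exact PP.ite (PP.eq (by fun_prop) hv) (PP.ite (PP.eq (by fun_prop) (Poly.const 0))
    (by fun_prop) (by fun_prop)) (PP.ite (pp_adj hG hv (by fun_prop)) (Poly.const 0)
    (by fun_prop))

theorem pPs {G : α → Gr} {u s t : α → ℕ} (hG : Poly G) (hu : Poly u) (hs : Poly s)
    (ht : Poly t) : Poly (fun a => ps (G a) (u a) (s a) (t a)) := by
  unfold ps
  exact PP.ite (PP.eq (by fun_prop) (by fun_prop)) (by fun_prop)
    (PP.ite (PP.and (PP.eq (by fun_prop) hu) (PP.not (PP.and (PP.eq (by fun_prop) hu)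
      (PP.lt (by fun_prop) (by fun_prop))))) (by fun_prop) (Poly.const 0))

attribute [fun_prop] pF0 pPs

theorem pPhi {G : α → Gr} {ms : α → List (ℕ × List ℕ)} {v s : α → ℕ} (hG : Poly G)
    (hm : Poly ms) (hv : Poly v) (hs : Poly s) :
    Poly (fun a => phi (G a) (ms a) (v a) (s a)) := by
  unfold phi
  refine Poly.add (by fun_prop) (Poly.sum ?_)
  refine Poly.map (F := fun a (t : ℕ × List ℕ) => t.2.getD (s a) 0)
    (Poly.filter (p := fun a (t : ℕ × List ℕ) => decide (t.1 = v a)) hm ?_) ?_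
  · fun_prop
  · fun_prop

attribute [fun_prop] pPhi

theorem pNb {G : α → Gr} {S : α → List ℕ} {v : α → ℕ} (hG : Poly G) (hS : Poly S)
    (hv : Poly v) : Poly (fun a => (S a).filter (fun u => decide (Adj (G a) (v a) u))) :=
  Poly.filter (p := fun a u => decide (Adj (G a) (v a) u)) hS
    (PP.dec (pp_adj (hG.comp (Poly.fst Poly.id)) (hv.comp (Poly.fst Poly.id)) (Poly.snd Poly.id)))

attribute [fun_prop] pNb

theorem pLf {G : α → Gr} {S : α → List ℕ} (hG : Poly G) (hS : Poly S) :
    Poly (fun a => lf (G a) (S a)) := by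
  unfold lf
  refine pHd (Poly.filter (p := fun a v =>
    decide (((S a).filter (fun u => decide (Adj (G a) v u))).length ≤ 1)) hS ?_)
  have h : Poly (fun x : α × ℕ => (S x.1).filter (fun u => decide (Adj (G x.1) x.2 u))) :=
    pNb (hG.comp (Poly.fst Poly.id)) (hS.comp (Poly.fst Poly.id)) (Poly.snd Poly.id)
  exact Poly.decide_le (Poly.length h) (Poly.const 1)

attribute [fun_prop] pLf

theorem pTab {G : α → Gr} {ms : α → List (ℕ × List ℕ)} {v u : α → ℕ} (hG : Poly G)
    (hm : Poly ms) (hv : Poly v) (hu : Poly u) :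
    Poly (fun a => tab (G a) (ms a) (v a) (u a)) := by
  unfold tab
  refine Poly.map (F := fun a t => min (mn ((List.range (QQ (G a))).map (fun s =>
    phi (G a) (ms a) (v a) s + (ps (G a) (u a) s t + ps (G a) (v a) t s)))) (pen (G a)))
    (uQQ hG).range ?_
  refine Poly.min (pMn ?_) (pPen (hG.comp (Poly.fst Poly.id)))
  refine Poly.map (F := fun (x : α × ℕ) s => phi (G x.1) (ms x.1) (v x.1) s +
    (ps (G x.1) (u x.1) s x.2 + ps (G x.1) (v x.1) x.2 s))
    ((uQQ hG).range.comp (Poly.fst Poly.id)) ?_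
  have h1 := hG.comp (f := fun x : (α × ℕ) × ℕ => x.1.1) (by fun_prop)
  have h2 := hm.comp (f := fun x : (α × ℕ) × ℕ => x.1.1) (by fun_prop)
  have h3 := hv.comp (f := fun x : (α × ℕ) × ℕ => x.1.1) (by fun_prop)
  have h4 := hu.comp (f := fun x : (α × ℕ) × ℕ => x.1.1) (by fun_prop)
  exact Poly.add (pPhi h1 h2 h3 (by fun_prop)) (Poly.add (pPs h1 h4 (by fun_prop) (by fun_prop))
    (pPs h1 h3 (by fun_prop) (by fun_prop)))

end

/-- The first branch. -/
def st1 (G : Gr) (st : List ℕ × (List (ℕ × List ℕ) × ℕ)) (v : ℕ) :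
    List ℕ × (List (ℕ × List ℕ) × ℕ) :=
  (st.1.filter (fun u => decide (u ≠ v)),
      (st.2.1, min (st.2.2 + mn ((List.range (QQ G)).map (phi G st.2.1 v))) (pen G)))

/-- The second branch. -/
def st2 (G : Gr) (st : List ℕ × (List (ℕ × List ℕ) × ℕ)) (v w : ℕ) :
    List ℕ × (List (ℕ × List ℕ) × ℕ) :=
  (st.1.filter (fun u => decide (u ≠ v)), (((w, tab G st.2.1 v w)) :: st.2.1, st.2.2))

section

variable {α : Type} [TEnc α]

theorem pSt1 {G : α → Gr} {S : α → List ℕ} {ms : α → List (ℕ × List ℕ)} {c v : α → ℕ}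
    (hG : Poly G) (hS : Poly S) (hm : Poly ms) (hc : Poly c) (hv : Poly v) :
    Poly (fun a => st1 (G a) (S a, (ms a, c a)) (v a)) := by
  unfold st1
  refine Poly.pair (Poly.filter (p := fun a u => decide (u ≠ v a)) hS
      (PP.dec (PP.ne (Poly.snd Poly.id) (hv.comp (Poly.fst Poly.id)))))
    (Poly.pair hm (Poly.min (Poly.add hc (pMn ?_)) (pPen hG)))
  exact Poly.map (F := fun a s => phi (G a) (ms a) (v a) s) (uQQ hG).range
      (pPhi (hG.comp (Poly.fst Poly.id)) (hm.comp (Poly.fst Poly.id))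
        (hv.comp (Poly.fst Poly.id)) (Poly.snd Poly.id))

theorem pSt2 {G : α → Gr} {S : α → List ℕ} {ms : α → List (ℕ × List ℕ)} {c v w : α → ℕ}
    (hG : Poly G) (hS : Poly S) (hm : Poly ms) (hc : Poly c) (hv : Poly v) (hw : Poly w) :
    Poly (fun a => st2 (G a) (S a, (ms a, c a)) (v a) (w a)) := by
  unfold st2
  exact Poly.pair (Poly.filter (p := fun a u => decide (u ≠ v a)) hS
      (PP.dec (PP.ne (Poly.snd Poly.id) (hv.comp (Poly.fst Poly.id)))))
    (Poly.pair (Poly.cons (Poly.pair hw (pTab hG hm hv hw)) hm) hc)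

end

theorem step_eq (G : Gr) (st : List ℕ × (List (ℕ × List ℕ) × ℕ)) :
    step G st = if st.1.filter (fun u => decide (Adj G (lf G st.1) u)) = [] then
      st1 G st (lf G st.1) else
      st2 G st (lf G st.1) ((st.1.filter (fun u => decide (Adj G (lf G st.1) u))).headD 0) := rfl

theorem pStep : Poly (fun x : Gr × (List ℕ × (List (ℕ × List ℕ) × ℕ)) => step x.1 x.2) := by
  have hG : Poly (fun x : Gr × (List ℕ × (List (ℕ × List ℕ) × ℕ)) => x.1) := Poly.fst Poly.id
  have hS : Poly (fun x : Gr × (List ℕ × (List (ℕ × List ℕ) × ℕ)) => x.2.1) := by fun_prop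
  have hm : Poly (fun x : Gr × (List ℕ × (List (ℕ × List ℕ) × ℕ)) => x.2.2.1) := by fun_prop
  have ha : Poly (fun x : Gr × (List ℕ × (List (ℕ × List ℕ) × ℕ)) => x.2.2.2) := by fun_prop
  have hl : Poly (fun x : Gr × (List ℕ × (List (ℕ × List ℕ) × ℕ)) => lf x.1 x.2.1) := pLf hG hS
  have hN := pNb hG hS hl
  exact (PP.ite (PP.eq hN (Poly.const [])) (pSt1 hG hS hm ha hl)
    (pSt2 hG hS hm ha hl (pHd hN))).congr fun x => (step_eq x.1 x.2).symm

/-! ### The size of the states -/

/-- The states reached by the algorithm. -/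
structure Inv (G : Gr) (k : ℕ) (st : List ℕ × (List (ℕ × List ℕ) × ℕ)) : Prop where
  sub : st.1.Sublist (Vd G)
  len : st.2.1.length ≤ k
  name : ∀ t ∈ st.2.1, t.1 = 0 ∨ t.1 ∈ Vd G
  tlen : ∀ t ∈ st.2.1, t.2.length = QQ G
  val : ∀ t ∈ st.2.1, ∀ x ∈ t.2, x ≤ pen G
  acc : st.2.2 ≤ pen G

theorem Inv.step {G : Gr} {k : ℕ} {st : List ℕ × (List (ℕ × List ℕ) × ℕ)} (h : Inv G k st) :
    Inv G (k + 1) (step G st) := by
  obtain ⟨S, msgs, acc⟩ := st
  unfold Tree.step
  split_ifs with h0
  · refine ⟨List.filter_sublist.trans h.sub, by have := h.len; simp only at this ⊢; omega,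
      h.name, h.tlen, h.val, min_le_right _ _⟩
  · refine ⟨List.filter_sublist.trans h.sub, ?_, ?_, ?_, ?_, h.acc⟩
    · have := h.len
      simp only [List.length_cons] at this ⊢
      omega
    · intro t ht
      rcases List.mem_cons.1 ht with rfl | ht
      · simp only
        cases hL : S.filter (fun u => decide (Adj G (lf G S) u)) with
        | nil => left; rfl
        | cons a L =>
          right
          simp only [List.headD_cons]
          have : a ∈ S.filter (fun u => decide (Adj G (lf G S) u)) := by rw [hL]; simp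
          exact h.sub.subset (List.mem_filter.1 this).1
      · exact h.name t ht
    · intro t ht
      rcases List.mem_cons.1 ht with rfl | ht
      · unfold tab
        simp
      · exact h.tlen t ht
    · intro t ht x hx
      rcases List.mem_cons.1 ht with rfl | ht
      · unfold tab at hx
        simp only [List.mem_map] at hx
        obtain ⟨_, _, rfl⟩ := hx
        exact min_le_right _ _
      · exact h.val t ht x hx

/-- A bound for the size of the states. -/
noncomputable def bd : Polynomial ℕ :=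
  Polynomial.X + (Polynomial.X * (Polynomial.X +
    (((Polynomial.X * (Polynomial.X + 1) + 1) * Polynomial.X) *
      (4 * (Polynomial.X * (Polynomial.X + 1) + 1) + 2)) + 4) + 1) +
    (4 * (Polynomial.X * (Polynomial.X + 1) + 1) + 1) + 2

theorem Inv.sz {G : Gr} {k : ℕ} {st : List ℕ × (List (ℕ × List ℕ) × ℕ)} (h : Inv G k st)
    (hk : k ≤ (Vd G).length) : sz st ≤ bd.eval (NPC.sz G) := by
  obtain ⟨S, msgs, acc⟩ := st
  set s := NPC.sz G with hs
  have hsG : NPC.sz G.1 ≤ s := by
    rw [hs]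
    obtain ⟨a, b⟩ := G
    simp only [sz_pair]
    omega
  have hVd : NPC.sz (Vd G) ≤ s := (R544.sz_sublist (List.dedup_sublist _)).trans hsG
  have hn : nn G ≤ s := by
    have := length_lt_sz (Vd G)
    unfold nn
    omega
  have hks : k ≤ s := hk.trans hn
  have hp : pen G ≤ s * (s + 1) + 1 := by
    unfold pen MM
    have := Nat.mul_le_mul hn (show nn G + 1 ≤ s + 1 by omega)
    omega
  have hQ : QQ G ≤ (s * (s + 1) + 1) * s := by
    unfold QQ
    exact Nat.mul_le_mul hp hn
  have h1 : NPC.sz S ≤ s := (R544.sz_sublist h.sub).trans hVd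
  have h2 : NPC.sz acc ≤ 4 * (s * (s + 1) + 1) + 1 := by
    have a1 := sz_small acc
    have a2 : acc ≤ pen G := h.acc
    omega
  have h3 : NPC.sz msgs ≤ s * (s + (((s * (s + 1) + 1) * s) * (4 * (s * (s + 1) + 1) + 2)) + 4)
      + 1 := by
    refine (sz_le_length_mul msgs
      (s + (((s * (s + 1) + 1) * s) * (4 * (s * (s + 1) + 1) + 2)) + 3) ?_).trans ?_
    · rintro ⟨u, t⟩ ht
      rw [sz_pair]
      have a1 : NPC.sz u ≤ s + 1 := by
        rcases h.name _ ht with e | e
        · simp only at e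
          rw [e]
          have := sz_small 0
          omega
        · have := sz_le_of_mem e
          simp only at this
          omega
      have a2 : NPC.sz t ≤ ((s * (s + 1) + 1) * s) * (4 * (s * (s + 1) + 1) + 2) + 1 := by
        refine (sz_le_length_mul t (4 * (s * (s + 1) + 1) + 1) fun x hx => ?_).trans ?_
        · have b1 := sz_small x
          have b2 := h.val _ ht x hx
          omega
        · rw [h.tlen _ ht]
          exact Nat.succ_le_succ (Nat.mul_le_mul_right _ hQ)
      omega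
    · exact Nat.succ_le_succ (Nat.mul_le_mul_right _ (h.len.trans hks))
  have e : bd.eval s = s + (s * (s + (((s * (s + 1) + 1) * s) * (4 * (s * (s + 1) + 1) + 2)) + 4)
      + 1) + (4 * (s * (s + 1) + 1) + 1) + 2 := by
    unfold bd
    simp
  rw [e, sz_pair, sz_pair]
  omega

theorem inv_iter (G : Gr) : ∀ k, Inv G k ((step G)^[k] (Vd G, ([], 0))) := by
  intro k
  induction k with
  | zero => exact ⟨List.Sublist.refl _, by simp, by simp, by simp, by simp, Nat.zero_le _⟩
  | succ k ih =>
    rw [Function.iterate_succ_apply']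
    exact ih.step

theorem alg_poly : Poly alg := by
  have h := Poly.iterLen (l := fun G : Gr => Vd G) (s := fun G : Gr =>
    ((Vd G, ([], 0)) : List ℕ × (List (ℕ × List ℕ) × ℕ))) (F := fun G st => step G st)
    (pVd Poly.id) (Poly.pair (pVd Poly.id) (Poly.const _)) pStep bd
    (fun G k hk => (inv_iter G k).sz hk)
  exact Poly.snd (Poly.snd h)

end Pool.Agent.NPC.R536UD.Tree
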